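import Pool.Agent.U881.HB.Sum
import Pool.Agent.TH583.HB.Final
import Pool.Agent.N393.Nine.Key
import Pool.Agent.N393.Nine.PathB

/-!
# Bricks that are minors of graphs of some simple classes
-/

set_option autoImplicit false

namespace Pool.Agent.U881.HB

open Finset H76FC H76TW H76TX H76TY Pool.Agent.W315.LB Pool.Agent.TH583.HB
open Pool.Agent.R145.Cir (Pa Ci)

/-- `v 0, v 1, ..., v (n - 1)` are the vertices of a circuit with `n ≥ 3` edges -/
def IsCircuit {V : Type} (G : SimpleGraph V) (n : ℕ) (v : ℕ → V) : Prop :=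
  3 ≤ n ∧ (∀ i < n, ∀ j < n, v i = v j → i = j) ∧ ∀ i < n, G.Adj (v i) (v ((i + 1) % n))

/-- `v 0, v 1, ..., v (n - 1)` are the vertices of a path -/
def IsPath {V : Type} (G : SimpleGraph V) (n : ℕ) (v : ℕ → V) : Prop :=
  (∀ i < n, ∀ j < n, v i = v j → i = j) ∧ ∀ i, i + 1 < n → G.Adj (v i) (v (i + 1))

theorem circuit_of_ci {V : Type} {G : SimpleGraph V} {l : List V} (hl : Ci G l) :
    ∃ v, IsCircuit G l.length v ∧ ∀ i < l.length, v i ∈ l := by
  have hpos : 0 < l.length := by have := hl.2.1; omega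
  refine ⟨fun i => l.getD i (l[0]'hpos), ⟨hl.2.1, ?_, ?_⟩, ?_⟩
  · intro i hi j hj hij
    simp only [List.getD_eq_getElem?_getD, List.getElem?_eq_getElem hi,
      List.getElem?_eq_getElem hj, Option.getD_some] at hij
    exact (List.Nodup.getElem_inj_iff hl.1.1).mp hij
  · intro i hi
    have hj : (i + 1) % l.length < l.length := Nat.mod_lt _ hpos
    simp only [List.getD_eq_getElem?_getD, List.getElem?_eq_getElem hi,
      List.getElem?_eq_getElem hj, Option.getD_some]
    exact Pool.Agent.R145.Cir.adj_ix hl (List.getElem?_eq_getElem hi)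
      (List.getElem?_eq_getElem hj) (by
      unfold Pool.Agent.R145.Cir.Ai
      rcases Nat.lt_or_ge (i + 1) l.length with h | h
      · left; exact Nat.mod_eq_of_lt h
      · right; right; left
        have : i + 1 = l.length := by omega
        exact ⟨this, by rw [this, Nat.mod_self]⟩)
  · intro i hi
    simp only [List.getD_eq_getElem?_getD, List.getElem?_eq_getElem hi, Option.getD_some]
    exact List.getElem_mem hi

theorem path_of_pa {V : Type} {G : SimpleGraph V} {l : List V} (hl : Pa G l) (hne : l ≠ []) :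
    ∃ v, IsPath G l.length v ∧ ∀ i < l.length, v i ∈ l := by
  have hpos : 0 < l.length := List.length_pos_iff.2 hne
  refine ⟨fun i => l.getD i (l[0]'hpos), ⟨?_, ?_⟩, ?_⟩
  · intro i hi j hj hij
    simp only [List.getD_eq_getElem?_getD, List.getElem?_eq_getElem hi,
      List.getElem?_eq_getElem hj, Option.getD_some] at hij
    exact (List.Nodup.getElem_inj_iff hl.1).mp hij
  · intro i hj
    have hi : i < l.length := by omega
    simp only [List.getD_eq_getElem?_getD, List.getElem?_eq_getElem hi,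
      List.getElem?_eq_getElem hj, Option.getD_some]
    exact List.isChain_iff_getElem.mp hl.2 i hj
  · intro i hi
    simp only [List.getD_eq_getElem?_getD, List.getElem?_eq_getElem hi, Option.getD_some]
    exact List.getElem_mem hi

section lift
variable {V W : Type} [Finite V] {G : SimpleGraph V} {H : SimpleGraph W}

/-- a minor with finite branch sets -/
theorem minor_fin (h : Minor H G) : ∃ f : W → Finset V, (∀ a b, a ≠ b → Disjoint (f a) (f b)) ∧
    (∀ a, (G.induce (f a : Set V)).Connected) ∧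
    ∀ a b, H.Adj a b → ∃ x ∈ f a, ∃ y ∈ f b, G.Adj x y := by
  classical
  obtain ⟨f, h1, h2, h3⟩ := h
  have hfin : ∀ a, (f a).Finite := fun a => Set.toFinite _
  refine ⟨fun a => (hfin a).toFinset, ?_, ?_, ?_⟩
  · intro a b hab
    rw [← Finset.disjoint_coe, Set.Finite.coe_toFinset, Set.Finite.coe_toFinset]
    exact h1 a b hab
  · intro a
    rw [Set.Finite.coe_toFinset]
    exact h2 a
  · intro a b hab
    obtain ⟨x, hx, y, hy, hxy⟩ := h3 a b hab
    exact ⟨x, (hfin a).mem_toFinset.2 hx, y, (hfin b).mem_toFinset.2 hy, hxy⟩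

variable {f : W → Finset V}

theorem lift_pa (f1 : ∀ a b, a ≠ b → Disjoint (f a) (f b))
    (f3 : ∀ a, (G.induce (f a : Set V)).Connected)
    (f4 : ∀ a b, H.Adj a b → ∃ x ∈ f a, ∃ y ∈ f b, G.Adj x y) {l : List W} (hl : Pa H l)
    (hne : l ≠ []) : ∃ l', Pa G l' ∧ l.length ≤ l'.length ∧ ∀ v ∈ l', ∃ b ∈ l, v ∈ f b := by
  rcases l with _ | ⟨a, l⟩
  · exact absurd rfl hne
  · obtain ⟨c, hc⟩ : ∃ c, (a :: l).getLast? = some c := by
      rw [List.getLast?_cons]; exact ⟨_, rfl⟩
    have hfne : ∀ a, (f a).Nonempty := by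
      intro a
      obtain ⟨⟨x, hx⟩⟩ := (f3 a).nonempty
      exact ⟨x, hx⟩
    obtain ⟨p, hp⟩ := hfne a
    obtain ⟨q, hq⟩ := hfne c
    obtain ⟨l', q1, _, _, q4, q5⟩ :=
      Pool.Agent.R145.Cir.lift_path f1 f3 f4 l a c hl hc p hp q hq
    exact ⟨l', q1, by simpa using q4, q5⟩

theorem lift_ci' (f1 : ∀ a b, a ≠ b → Disjoint (f a) (f b))
    (f3 : ∀ a, (G.induce (f a : Set V)).Connected)
    (f4 : ∀ a b, H.Adj a b → ∃ x ∈ f a, ∃ y ∈ f b, G.Adj x y) {l : List W} (hl : Ci H l) :
    ∃ l', Ci G l' ∧ l.length ≤ l'.length ∧ ∀ v ∈ l', ∃ b ∈ l, v ∈ f b := by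
  obtain ⟨h1, h2, h3⟩ := hl
  rcases l with _ | ⟨a, l⟩
  · simp at h2
  · obtain ⟨c, hc⟩ : ∃ c, (a :: l).getLast? = some c := by
      rw [List.getLast?_cons]; exact ⟨_, rfl⟩
    have hca : H.Adj c a := h3 c (by rw [hc]; rfl) a (by simp)
    obtain ⟨y, hy, x, hx, hyx⟩ := f4 c a hca
    obtain ⟨q, q1, q2, q3, q4, q5⟩ :=
      Pool.Agent.R145.Cir.lift_path f1 f3 f4 l a c h1 hc x hx y hy
    refine ⟨q, ⟨q1, ?_, ?_⟩, by simpa using q4, q5⟩
    · simp only [List.length_cons] at h2; omega
    · intro u hu v hv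
      rw [q3] at hu
      rw [q2] at hv
      simp only [Option.mem_def, Option.some.injEq] at hu hv
      rw [← hu, ← hv]; exact hyx

end lift

/-- graphs with two disjoint odd cycles of length at least five -/
theorem not_meet {W : Type} {H : SimpleGraph W} (h : ¬ Meet H) : ∃ l l' : List W, Ci H l ∧ Ci H l' ∧
    5 ≤ l.length ∧ 5 ≤ l'.length ∧ ∀ x ∈ l, x ∉ l' := by
  unfold Meet at h
  push Not at h
  obtain ⟨v, w, c, c', hc, hc', _, _, h5, h5', hd⟩ := h
  obtain ⟨z1, z2, z3⟩ := Pool.Agent.R145.Cir.walk_ci c hc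
  obtain ⟨z4, z5, z6⟩ := Pool.Agent.R145.Cir.walk_ci c' hc'
  exact ⟨_, _, z1, z4, by omega, by omega, fun x hx hx' => hd x (z3 x hx) (z6 x hx')⟩

/-! ### The classes -/

/-- two circuits of length at least five meet -/
def LongMeet (V : Type) (G : SimpleGraph V) : Prop :=
  ∀ m n u v, 5 ≤ m → 5 ≤ n → IsCircuit G m u → IsCircuit G n v → ∃ i < m, ∃ j < n, u i = v j

/-- at most three vertices meet all paths with four vertices -/
def PathCover (V : Type) (G : SimpleGraph V) : Prop :=
  ∃ C : Finset V, C.card ≤ 3 ∧ ∀ v, IsPath G 4 v → ∃ i < 4, v i ∈ C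

/-- tree-depth at most five: there is a ranking of the vertices with five ranks such that every
connected set has exactly one vertex of the smallest rank -/
def TreeDepth5 (V : Type) (G : SimpleGraph V) : Prop :=
  ∃ ρ : V → Fin 5, ∀ S : Set V, (G.induce S).Connected → ∃! x, x ∈ S ∧ ∀ y ∈ S, ρ x ≤ ρ y

/-- two vertices meet all circuits -/
def TwoFeedback (V : Type) (G : SimpleGraph V) : Prop :=
  ∃ x y : V, ∀ n v, IsCircuit G n v → ∃ i < n, v i = x ∨ v i = y

/-- at most seven vertices cover the edges -/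
def Cover7 (V : Type) (G : SimpleGraph V) : Prop :=
  ∃ C : Finset V, C.card ≤ 7 ∧ ∀ u v, G.Adj u v → u ∈ C ∨ v ∈ C

/-- at most thirteen vertices have more than two neighbours -/
def Branch13 (V : Type) (G : SimpleGraph V) : Prop :=
  ∃ C : Finset V, C.card ≤ 13 ∧ ∀ v ∉ C, ∃ a b, ∀ w, G.Adj v w → w = a ∨ w = b

section
variable {W : Type} [Fintype W] {H : SimpleGraph W}

theorem conn3_of_brick (hB : Brick H) : Conn3 H := fun u v huv => (hB u v huv).1

theorem meet_of_longMeet {V : Type} [Finite V] {G : SimpleGraph V} (hG : LongMeet V G)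
    (hm : Minor H G) : Meet H := by
  by_contra hno
  obtain ⟨l, l', hl, hl', h5, h5', hd⟩ := not_meet hno
  obtain ⟨f, f1, f3, f4⟩ := minor_fin hm
  obtain ⟨k, hk, hk1, hk2⟩ := lift_ci' f1 f3 f4 hl
  obtain ⟨k', hk', hk1', hk2'⟩ := lift_ci' f1 f3 f4 hl'
  obtain ⟨u, hu, hu'⟩ := circuit_of_ci hk
  obtain ⟨v, hv, hv'⟩ := circuit_of_ci hk'
  obtain ⟨i, hi, j, hj, hij⟩ := hG _ _ u v (h5.trans hk1) (h5'.trans hk1') hu hv
  obtain ⟨b, hb, hub⟩ := hk2 _ (hu' i hi)
  obtain ⟨b', hb', hvb⟩ := hk2' _ (hv' j hj)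
  have hne : b ≠ b' := fun h => hd b hb (h ▸ hb')
  rw [hij] at hub
  exact Finset.disjoint_left.1 (f1 b b' hne) hub hvb

theorem ci_le {V : Type} [Finite V] {G : SimpleGraph V} (hm : Minor H G) {k : ℕ}
    (hG : ∀ n v, IsCircuit G n v → n ≤ k) : ∀ l, Ci H l → l.length ≤ k := by
  intro l hl
  obtain ⟨f, f1, f3, f4⟩ := minor_fin hm
  obtain ⟨q, hq, hq1, _⟩ := lift_ci' f1 f3 f4 hl
  obtain ⟨v, hv, _⟩ := circuit_of_ci hq
  exact hq1.trans (hG _ v hv)

theorem pa_le {V : Type} [Finite V] {G : SimpleGraph V} (hm : Minor H G) {k : ℕ}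
    (hG : ∀ n v, IsPath G n v → n ≤ k) : ∀ l, Pa H l → l.length ≤ k := by
  intro l hl
  by_cases hne : l = []
  · subst hne; simp
  obtain ⟨f, f1, f3, f4⟩ := minor_fin hm
  obtain ⟨q, hq, hq1, _⟩ := lift_pa f1 f3 f4 hl hne
  have hqne : q ≠ [] := by
    rintro rfl
    rw [List.length_nil, Nat.le_zero, List.length_eq_zero_iff] at hq1
    exact hne hq1
  obtain ⟨v, hv, _⟩ := path_of_pa hq hqne
  exact hq1.trans (hG _ v hv)

/-- the set of branch sets meeting `C` -/
theorem branch_card {V : Type} (f : W → Finset V)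
    (f1 : ∀ a b, a ≠ b → Disjoint (f a) (f b)) (C : Finset V) [DecidableEq V]
    [DecidablePred fun w => (f w ∩ C).Nonempty] :
    (univ.filter (fun w => (f w ∩ C).Nonempty)).card ≤ C.card := by
  classical
  have h1 : ∀ w : W, ∃ x : Option V, (f w ∩ C).Nonempty → ∃ y ∈ f w ∩ C, x = some y := by
    intro w
    by_cases h : (f w ∩ C).Nonempty
    · obtain ⟨x, hx⟩ := h
      exact ⟨some x, fun _ => ⟨x, hx, rfl⟩⟩
    · exact ⟨none, fun h' => absurd h' h⟩
  choose g hg using h1
  have h2 : (univ.filter (fun w => (f w ∩ C).Nonempty)).card ≤ (C.map Function.Embedding.some).card := by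
    refine Finset.card_le_card_of_injOn g ?_ ?_
    · intro w hw
      rw [Finset.mem_coe, Finset.mem_filter] at hw
      obtain ⟨y, hy, hy'⟩ := hg w hw.2
      rw [hy', Finset.mem_coe, Finset.mem_map]
      exact ⟨y, (Finset.mem_inter.1 hy).2, rfl⟩
    · intro w hw w' hw' hww
      rw [Finset.mem_coe, Finset.mem_filter] at hw hw'
      obtain ⟨y, hy, hy'⟩ := hg w hw.2
      obtain ⟨z, hz, hz'⟩ := hg w' hw'.2
      by_contra hne
      rw [hy', hz'] at hww
      rw [Option.some.inj hww] at hy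
      exact Finset.disjoint_left.1 (f1 w w' hne) (Finset.mem_inter.1 hy).1 (Finset.mem_inter.1 hz).1
  rw [Finset.card_map] at h2
  exact h2

theorem card_of_cover7 (hB : Brick H) {V : Type} [Finite V] {G : SimpleGraph V}
    (hG : Cover7 V G) (hm : Minor H G) : Fintype.card W ≤ 13 := by
  classical
  by_contra hcon
  push Not at hcon
  obtain ⟨C, hC, hcov⟩ := hG
  obtain ⟨f, f1, f3, f4⟩ := minor_fin hm
  set D : Finset W := univ.filter (fun w => (f w ∩ C).Nonempty) with hD
  have hDc : D.card ≤ 7 := (branch_card f f1 C).trans hC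
  have hDcov : ∀ u v, H.Adj u v → u ∈ D ∨ v ∈ D := by
    intro u v huv
    obtain ⟨x, hx, y, hy, hxy⟩ := f4 u v huv
    rcases hcov x y hxy with h | h
    · left; rw [hD, Finset.mem_filter]; exact ⟨Finset.mem_univ _, x, Finset.mem_inter.2 ⟨hx, h⟩⟩
    · right; rw [hD, Finset.mem_filter]; exact ⟨Finset.mem_univ _, y, Finset.mem_inter.2 ⟨hy, h⟩⟩
  obtain ⟨E, hDE, _, hE⟩ := Finset.exists_subsuperset_card_eq (s := D) (t := univ) (n := 7)
    (Finset.subset_univ _) hDc (by rw [Finset.card_univ]; omega)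
  obtain ⟨u, hu, v, hv, huv⟩ := Finset.one_lt_card.1 (show 1 < E.card by omega)
  obtain ⟨_, M, hM1, hM2, hM3⟩ := hB u v huv
  have hMv : M v = u := by rw [← hM2, hM1]
  have h1 : (Eᶜ).card ≤ ((E.erase u).erase v).card := by
    refine Finset.card_le_card_of_injOn M ?_ ?_
    · intro w hw
      rw [Finset.mem_coe, Finset.mem_compl] at hw
      have hwu : w ≠ u := fun h => hw (h ▸ hu)
      have hwv : w ≠ v := fun h => hw (h ▸ hv)
      have hadj := hM3 w hwu hwv
      rw [Finset.mem_coe, Finset.mem_erase, Finset.mem_erase]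
      refine ⟨?_, ?_, ?_⟩
      · intro h
        apply hwu
        rw [← hM1 w, h, hMv]
      · intro h
        apply hwv
        rw [← hM1 w, h, hM2]
      · rcases hDcov _ _ hadj with h | h
        · exact absurd (hDE h) hw
        · exact hDE h
    · intro a _ b _ hab
      rw [← hM1 a, hab, hM1]
  rw [Finset.card_compl, Finset.card_erase_of_mem (Finset.mem_erase.2 ⟨huv.symm, hv⟩),
    Finset.card_erase_of_mem hu, hE] at h1
  omega

theorem meet_of_pathCover {V : Type} [Finite V] {G : SimpleGraph V} (hG : PathCover V G)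
    (hm : Minor H G) : Meet H := by
  classical
  by_contra hno
  obtain ⟨l, l', hl, hl', h5, h5', hd⟩ := not_meet hno
  obtain ⟨C, hC, hcov⟩ := hG
  obtain ⟨f, f1, f3, f4⟩ := minor_fin hm
  set D : Finset W := univ.filter (fun w => (f w ∩ C).Nonempty) with hD
  have hDc : D.card ≤ 3 := (branch_card f f1 C).trans hC
  -- a path with four vertices meets `D`
  have hpath : ∀ q : List W, Pa H q → 4 ≤ q.length → ∃ x ∈ q, x ∈ D := by
    intro q hq hq4
    have hq' : Pa H (q.take 4) := ⟨hq.1.sublist (List.take_sublist 4 q), hq.2.take 4⟩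
    have hql : (q.take 4).length = 4 := by rw [List.length_take]; omega
    obtain ⟨k, hk, hk1, hk2⟩ := lift_pa f1 f3 f4 hq' (by
      intro h; rw [h] at hql; simp at hql)
    have hk' : Pa G (k.take 4) := ⟨hk.1.sublist (List.take_sublist 4 k), hk.2.take 4⟩
    have hkl : (k.take 4).length = 4 := by rw [List.length_take]; omega
    obtain ⟨v, hv, hv'⟩ := path_of_pa hk' (by intro h; rw [h] at hkl; simp at hkl)
    rw [hkl] at hv hv'
    obtain ⟨i, hi, hiC⟩ := hcov v hv
    obtain ⟨b, hb, hvb⟩ := hk2 _ ((List.take_sublist 4 k).subset (hv' i hi))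
    refine ⟨b, (List.take_sublist 4 q).subset hb, ?_⟩
    rw [hD, Finset.mem_filter]
    exact ⟨Finset.mem_univ _, v i, Finset.mem_inter.2 ⟨hvb, hiC⟩⟩
  -- a circuit with five vertices meets `D` twice
  have hcirc : ∀ q : List W, Ci H q → 5 ≤ q.length → 2 ≤ (D.filter (fun x => x ∈ q)).card := by
    intro q hq hq5
    by_contra hlt
    push Not at hlt
    obtain ⟨x, hx, hxD⟩ := hpath q hq.1 (by omega)
    obtain ⟨s, t, rfl⟩ := List.append_of_mem hx
    -- rotate
    have hrot : Pa H (t ++ s) := by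
      obtain ⟨⟨hnd, hch⟩, h3, hJo⟩ := hq
      have hnd' : (t ++ s).Nodup := by
        rw [List.nodup_append] at hnd ⊢
        obtain ⟨n1, n2, n3⟩ := hnd
        rw [List.nodup_cons] at n2
        refine ⟨n2.2, n1, ?_⟩
        intro a ha b hb hab
        exact n3 b hb a (List.mem_cons_of_mem _ ha) hab.symm
      refine ⟨hnd', ?_⟩
      rw [List.isChain_append] at hch ⊢
      obtain ⟨c1, c2, c3⟩ := hch
      refine ⟨c2.tail, c1, ?_⟩
      intro a ha b hb
      refine hJo a ?_ b ?_
      · rcases t with _ | ⟨t0, t⟩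
        · simp at ha
        · rw [List.getLast?_append, List.getLast?_cons_cons] 
          rw [Option.mem_def] at ha ⊢
          rw [ha]
          rfl
      · rcases s with _ | ⟨s0, s⟩
        · simp at hb
        · simpa using hb
    obtain ⟨y, hy, hyD⟩ := hpath (t ++ s) hrot (by
      rw [List.length_append, List.length_cons] at hq5
      rw [List.length_append]; omega)
    have hxy : x ≠ y := by
      rintro rfl
      have hnd := hq.1.1
      rw [List.nodup_append] at hnd
      obtain ⟨_, n2, n3⟩ := hnd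
      rw [List.nodup_cons] at n2
      rw [List.mem_append] at hy
      rcases hy with hy | hy
      · exact n2.1 hy
      · exact n3 x hy x (List.mem_cons_self) rfl
    have hsub : ({x, y} : Finset W) ⊆ D.filter (fun z => z ∈ s ++ x :: t) := by
      intro z hz
      rw [Finset.mem_insert, Finset.mem_singleton] at hz
      rw [Finset.mem_filter]
      rcases hz with rfl | rfl
      · exact ⟨hxD, hx⟩
      · refine ⟨hyD, ?_⟩
        rw [List.mem_append] at hy
        rw [List.mem_append, List.mem_cons]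
        tauto
    have := Finset.card_le_card hsub
    rw [Finset.card_pair hxy] at this
    omega
  have h1 := hcirc l hl h5
  have h2 := hcirc l' hl' h5'
  have h3 : (D.filter (fun x => x ∈ l)).card + (D.filter (fun x => x ∈ l')).card ≤ D.card := by
    rw [← Finset.card_union_of_disjoint]
    · exact Finset.card_le_card (Finset.union_subset (Finset.filter_subset _ _)
        (Finset.filter_subset _ _))
    · rw [Finset.disjoint_left]
      intro x hx hx'
      exact hd x (Finset.mem_filter.1 hx).2 (Finset.mem_filter.1 hx').2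
  omega

end

end Pool.Agent.U881.HB
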