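import Pool.Agent.U881.HB.Base

/-!
# Bricks that are minors of graphs of some simple classes, continued
-/

set_option autoImplicit false
set_option linter.unusedSectionVars false

namespace Pool.Agent.U881.HB

open Finset H76FC H76TW H76TX H76TY Pool.Agent.W315.LB Pool.Agent.TH583.HB
open Pool.Agent.R145.Cir (Pa Ci)

section
variable {W : Type} [Fintype W] {H : SimpleGraph W}

theorem treeDepth_minor {V : Type} {G : SimpleGraph V} (hG : TreeDepth5 V G) (hm : Minor H G) :
    TreeDepth5 W H := by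
  obtain ⟨ρ, hρ⟩ := hG
  obtain ⟨f, f1, f2, f3⟩ := hm
  choose m hm1 hm2 using fun w => hρ (f w) (f2 w)
  refine ⟨fun w => ρ (m w), ?_⟩
  intro S hS
  have hF := y12_conn H G f f2 f3 S hS
  obtain ⟨x0, ⟨⟨w0, hw0, hx0⟩, hmin⟩, huniq⟩ := hρ _ hF
  have hx : ∀ w ∈ S, (∀ w' ∈ S, ρ (m w) ≤ ρ (m w')) → m w = x0 := by
    intro w hw hmw
    refine huniq _ ⟨⟨w, hw, (hm1 w).1⟩, ?_⟩
    rintro y ⟨w', hw', hy⟩
    exact (hmw w' hw').trans ((hm1 w').2 y hy)
  have h0 : ∀ w' ∈ S, ρ (m w0) ≤ ρ (m w') := by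
    intro w' hw'
    have h1 := (hm1 w0).2 x0 hx0
    have h2 := hmin (m w') ⟨w', hw', (hm1 w').1⟩
    exact h1.trans h2
  refine ⟨w0, ⟨hw0, h0⟩, ?_⟩
  rintro w1 ⟨hw1, h1⟩
  have e0 := hx w0 hw0 h0
  have e1 := hx w1 hw1 h1
  by_contra hne
  refine Set.disjoint_left.1 (f1 w1 w0 hne) (hm1 w1).1 ?_
  rw [e1, ← e0]
  exact (hm1 w0).1

theorem pathCover_of_treeDepth (h3 : Conn3 H) (hn : 6 ≤ Fintype.card W) (hG : TreeDepth5 W H) :
    PathCover W H := by
  classical
  obtain ⟨ρ, hρ⟩ := hG
  have hexists : ∀ S : Finset W, S.card ≤ 5 → ∃ x, x ∉ S := by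
    intro S hS
    by_contra hcon
    push Not at hcon
    have : (univ : Finset W) ⊆ S := fun x _ => hcon x
    have := Finset.card_le_card this
    rw [Finset.card_univ] at this
    omega
  -- two vertices of the same rank which is minimal among all vertices but one
  have key : ∀ r x y : W, x ≠ y → x ≠ r → y ≠ r → ρ x = ρ y →
      (∀ z, z ≠ r → ρ x ≤ ρ z) → False := by
    intro r x y hxy hxr hyr hρxy hmin
    obtain ⟨z, hz⟩ := hexists {r, x, y} (by
      have := Finset.card_le_three (a := r) (b := x) (c := y); omega)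
    simp only [Finset.mem_insert, Finset.mem_singleton, not_or] at hz
    obtain ⟨u, _, hu⟩ := hρ _ (h3 r z (Ne.symm hz.1))
    have e1 := hu x ⟨⟨hxr, Ne.symm hz.2.1⟩, fun w hw => hmin w hw.1⟩
    have e2 := hu y ⟨⟨hyr, Ne.symm hz.2.2⟩, fun w hw => by rw [← hρxy]; exact hmin w hw.1⟩
    exact hxy (e1.trans e2.symm)
  obtain ⟨r1, _, h1⟩ := Finset.exists_min_image (univ : Finset W) ρ
    ⟨_, Finset.mem_univ (hexists ∅ (by simp)).choose⟩
  obtain ⟨r2, hr2, h2⟩ := Finset.exists_min_image (univ.erase r1 : Finset W) ρ (by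
    obtain ⟨x, hx⟩ := hexists {r1} (by simp)
    exact ⟨x, Finset.mem_erase.2 ⟨by simpa using hx, Finset.mem_univ _⟩⟩)
  obtain ⟨r3, hr3, h3'⟩ := Finset.exists_min_image ((univ.erase r1).erase r2 : Finset W) ρ (by
    obtain ⟨x, hx⟩ := hexists {r1, r2} (by
      have := Finset.card_le_two (a := r1) (b := r2); omega)
    simp only [Finset.mem_insert, Finset.mem_singleton, not_or] at hx
    exact ⟨x, Finset.mem_erase.2 ⟨hx.2, Finset.mem_erase.2 ⟨hx.1, Finset.mem_univ _⟩⟩⟩)
  rw [Finset.mem_erase] at hr2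
  rw [Finset.mem_erase, Finset.mem_erase] at hr3
  have m1 : ∀ z, ρ r1 ≤ ρ z := fun z => h1 z (Finset.mem_univ _)
  have m2 : ∀ z, z ≠ r1 → ρ r2 ≤ ρ z := fun z hz =>
    h2 z (Finset.mem_erase.2 ⟨hz, Finset.mem_univ _⟩)
  have m3 : ∀ z, z ≠ r1 → z ≠ r2 → ρ r3 ≤ ρ z := fun z hz hz' =>
    h3' z (Finset.mem_erase.2 ⟨hz', Finset.mem_erase.2 ⟨hz, Finset.mem_univ _⟩⟩)
  have l12 : ρ r1 < ρ r2 := by
    refine lt_of_le_of_ne (m1 r2) fun h => ?_
    obtain ⟨z, hz⟩ := hexists {r1, r2} (by
      have := Finset.card_le_two (a := r1) (b := r2); omega)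
    simp only [Finset.mem_insert, Finset.mem_singleton, not_or] at hz
    exact key z r1 r2 (Ne.symm hr2.1) (Ne.symm hz.1) (Ne.symm hz.2) h (fun w _ => m1 w)
  have l23 : ρ r2 < ρ r3 := by
    refine lt_of_le_of_ne (m2 r3 hr3.2.1) fun h => ?_
    exact key r1 r2 r3 (Ne.symm hr3.1) hr2.1 hr3.2.1 h m2
  have l3 : ∀ z, z ≠ r1 → z ≠ r2 → z ≠ r3 → ρ r3 < ρ z := by
    intro z hz1 hz2 hz3
    refine lt_of_le_of_ne (m3 z hz1 hz2) fun h => ?_
    obtain ⟨u, _, hu⟩ := hρ _ (h3 r1 r2 (Ne.symm hr2.1))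
    have e1 := hu r3 ⟨⟨hr3.2.1, hr3.1⟩, fun w hw => m3 w hw.1 hw.2⟩
    have e2 := hu z ⟨⟨hz1, hz2⟩, fun w hw => by rw [← h]; exact m3 w hw.1 hw.2⟩
    exact hz3 (e2.trans e1.symm)
  refine ⟨{r1, r2, r3}, Finset.card_le_three, ?_⟩
  intro v hv
  by_contra hcon
  push Not at hcon
  have hge : ∀ i < 4, 3 ≤ (ρ (v i)).val := by
    intro i hi
    have h4 := hcon i hi
    simp only [Finset.mem_insert, Finset.mem_singleton, not_or] at h4
    have h5 := l3 (v i) h4.1 h4.2.1 h4.2.2
    rw [Fin.lt_def] at l12 l23 h5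
    omega
  have hlt : ∀ i, (ρ (v i)).val < 5 := fun i => (ρ (v i)).isLt
  -- adjacent vertices of the path have different ranks
  have hpair : ∀ i, i + 1 < 4 → ρ (v i) ≠ ρ (v (i + 1)) := by
    intro i hi h
    have hadj := hv.2 i hi
    obtain ⟨u, _, hu⟩ := hρ {v i, v (i + 1)} (SimpleGraph.induce_pair_connected_of_adj hadj)
    have e1 := hu (v i) ⟨Or.inl rfl, by
      rintro y (rfl | rfl)
      · exact le_rfl
      · exact h.le⟩
    have e2 := hu (v (i + 1)) ⟨Or.inr rfl, by
      rintro y (rfl | rfl)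
      · exact h.ge
      · exact le_rfl⟩
    exact hadj.ne (e1.trans e2.symm)
  have hall : (H.induce ({v 0, v 1} ∪ {v 2, v 3} : Set W)).Connected :=
    SimpleGraph.connected_induce_union
      (SimpleGraph.induce_pair_connected_of_adj (hv.2 0 (by omega))).preconnected
      (SimpleGraph.induce_pair_connected_of_adj (hv.2 2 (by omega))).preconnected
      (v := v 1) (w := v 2) (Or.inr rfl) (Or.inl rfl) (hv.2 1 (by omega))
  have hmem : ∀ y ∈ ({v 0, v 1} ∪ {v 2, v 3} : Set W), 3 ≤ (ρ y).val := by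
    rintro y ((rfl | rfl) | (rfl | rfl))
    · exact hge 0 (by omega)
    · exact hge 1 (by omega)
    · exact hge 2 (by omega)
    · exact hge 3 (by omega)
  have h01 := hpair 0 (by omega)
  have h23 := hpair 2 (by omega)
  simp only [Nat.zero_add, Nat.reduceAdd] at h01 h23
  obtain ⟨i, hi, hi3⟩ : ∃ i, i < 2 ∧ (ρ (v i)).val = 3 := by
    have a0 := hge 0 (by omega)
    have a1 := hge 1 (by omega)
    have b0 := hlt 0
    have b1 := hlt 1
    have hne : (ρ (v 0)).val ≠ (ρ (v 1)).val := fun h => h01 (Fin.ext h)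
    by_cases h : (ρ (v 0)).val = 3
    · exact ⟨0, by omega, h⟩
    · exact ⟨1, by omega, by omega⟩
  obtain ⟨j, hj, hj4, hj3⟩ : ∃ j, 2 ≤ j ∧ j < 4 ∧ (ρ (v j)).val = 3 := by
    have a0 := hge 2 (by omega)
    have a1 := hge 3 (by omega)
    have b0 := hlt 2
    have b1 := hlt 3
    have hne : (ρ (v 2)).val ≠ (ρ (v 3)).val := fun h => h23 (Fin.ext h)
    by_cases h : (ρ (v 2)).val = 3
    · exact ⟨2, by omega, by omega, h⟩
    · exact ⟨3, by omega, by omega, by omega⟩
  have hmi : v i ∈ ({v 0, v 1} ∪ {v 2, v 3} : Set W) := by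
    interval_cases i
    · exact Or.inl (Or.inl rfl)
    · exact Or.inl (Or.inr rfl)
  have hmj : v j ∈ ({v 0, v 1} ∪ {v 2, v 3} : Set W) := by
    interval_cases j
    · exact Or.inr (Or.inl rfl)
    · exact Or.inr (Or.inr rfl)
  obtain ⟨u, _, hu⟩ := hρ _ hall
  have e1 := hu (v i) ⟨hmi, fun y hy => by rw [Fin.le_def, hi3]; exact hmem y hy⟩
  have e2 := hu (v j) ⟨hmj, fun y hy => by rw [Fin.le_def, hj3]; exact hmem y hy⟩
  have := hv.1 i (by omega) j hj4 (e1.trans e2.symm)
  omega

theorem sides_of_feedback {V : Type} [Finite V] {G : SimpleGraph V} (hn : 6 ≤ Fintype.card W)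
    (hG : TwoFeedback V G) (hm : Minor H G) :
    ∃ c : W → Bool, ∀ a b a' b' : W, H.Adj a b → H.Adj a' b' → c a = c b → c a' = c b' →
      c a = c a' → a = a' ∨ a = b' ∨ b = a' ∨ b = b' := by
  classical
  obtain ⟨x, y, hcov⟩ := hG
  obtain ⟨f, f1, f3, f4⟩ := minor_fin hm
  set D : Finset W := univ.filter (fun w => (f w ∩ {x, y}).Nonempty) with hD
  have hDc : D.card ≤ 2 := (branch_card f f1 {x, y}).trans Finset.card_le_two
  obtain ⟨E, hDE, _, hE⟩ := Finset.exists_subsuperset_card_eq (s := D) (t := univ) (n := 2)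
    (Finset.subset_univ _) hDc (by rw [Finset.card_univ]; omega)
  obtain ⟨p, q, hpq, rfl⟩ := Finset.card_eq_two.1 hE
  have hac : (H.induce {w | w ≠ p ∧ w ≠ q}).IsAcyclic := by
    intro v c hc
    have hc' : (c.map (SimpleGraph.Embedding.induce {w | w ≠ p ∧ w ≠ q}).toHom).IsCycle := by
      exact (SimpleGraph.Walk.isCycle_map_iff_of_injective
        (SimpleGraph.Embedding.induce (G := H) {w | w ≠ p ∧ w ≠ q}).injective).2 hc
    obtain ⟨z1, z2, z3⟩ := Pool.Agent.R145.Cir.walk_ci _ hc'
    obtain ⟨k, hk, _, hk2⟩ := lift_ci' f1 f3 f4 z1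
    obtain ⟨u, hu, hu'⟩ := circuit_of_ci hk
    obtain ⟨i, hi, hxy⟩ := hcov _ u hu
    obtain ⟨b, hb, hub⟩ := hk2 _ (hu' i hi)
    have hbD : b ∈ D := by
      rw [hD, Finset.mem_filter]
      refine ⟨Finset.mem_univ _, u i, Finset.mem_inter.2 ⟨hub, ?_⟩⟩
      rw [Finset.mem_insert, Finset.mem_singleton]
      exact hxy
    have hbE := hDE hbD
    rw [Finset.mem_insert, Finset.mem_singleton] at hbE
    have hbs := z3 b hb
    rw [SimpleGraph.Walk.support_map, List.mem_map] at hbs
    obtain ⟨t, _, ht⟩ := hbs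
    have htp := t.2
    have htb : t.1 = b := ht
    rw [← htb] at hbE
    rcases hbE with h | h
    · exact htp.1 h
    · exact htp.2 h
  obtain ⟨col⟩ := hac.colorable_two
  refine ⟨fun w => if w = p then true else if w = q then false else
    if h : w ≠ p ∧ w ≠ q then decide (col ⟨w, h⟩ = 0) else true, ?_⟩
  set c : W → Bool := fun w => if w = p then true else if w = q then false else
    if h : w ≠ p ∧ w ≠ q then decide (col ⟨w, h⟩ = 0) else true with hc
  have hcp : c p = true := by simp [hc]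
  have hcq : c q = false := by simp [hc, hpq.symm]
  have hco : ∀ w (h : w ≠ p ∧ w ≠ q), c w = decide (col ⟨w, h⟩ = 0) := by
    intro w h
    simp only [hc]
    rw [if_neg h.1, if_neg h.2, dif_pos h]
  have key : ∀ a b, H.Adj a b → c a = c b → (c a = true ∧ (a = p ∨ b = p)) ∨
      (c a = false ∧ (a = q ∨ b = q)) := by
    intro a b hab hcab
    by_cases ha : a = p
    · subst ha; exact Or.inl ⟨hcp, Or.inl rfl⟩
    by_cases ha' : a = q
    · subst ha'; exact Or.inr ⟨hcq, Or.inl rfl⟩
    by_cases hb : b = p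
    · subst hb; exact Or.inl ⟨by rw [hcab, hcp], Or.inr rfl⟩
    by_cases hb' : b = q
    · subst hb'; exact Or.inr ⟨by rw [hcab, hcq], Or.inr rfl⟩
    exfalso
    have hval : (H.induce {w | w ≠ p ∧ w ≠ q}).Adj ⟨a, ha, ha'⟩ ⟨b, hb, hb'⟩ := hab
    have hne := col.valid hval
    rw [hco a ⟨ha, ha'⟩, hco b ⟨hb, hb'⟩] at hcab
    apply hne
    have h0 : ∀ z : Fin 2, z = 0 ∨ z = 1 := by decide
    rcases h0 (col ⟨a, ha, ha'⟩) with h1 | h1 <;> rcases h0 (col ⟨b, hb, hb'⟩) with h2 | h2
    · rw [h1, h2]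
    · rw [h1, h2] at hcab; simp at hcab
    · rw [h1, h2] at hcab; simp at hcab
    · rw [h1, h2]
  intro a b a' b' hab hab' h1 h2 h3
  rcases key a b hab h1 with ⟨k1, k2⟩ | ⟨k1, k2⟩ <;> rcases key a' b' hab' h2 with ⟨k3, k4⟩ | ⟨k3, k4⟩
  · rcases k2 with rfl | rfl <;> rcases k4 with rfl | rfl <;> tauto
  · rw [h3, k3] at k1; cases k1
  · rw [h3, k3] at k1; cases k1
  · rcases k2 with rfl | rfl <;> rcases k4 with rfl | rfl <;> tauto

/-- a connected set of vertices with at most two neighbours each has at most two neighbours -/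
theorem three_out {V : Type} [DecidableEq V] {G : SimpleGraph V} : ∀ (n : ℕ) (F : Finset V),
    F.card = n → Cn G F → (∀ v ∈ F, ∃ a b, ∀ w, G.Adj v w → w = a ∨ w = b) →
    ∀ y : Fin 3 → V, Function.Injective y → (∀ i, y i ∉ F) → (∀ i, ∃ x ∈ F, G.Adj x (y i)) →
    False := by
  intro n
  induction n with
  | zero =>
    intro F hF hcn
    rw [Finset.card_eq_zero] at hF
    subst hF
    obtain ⟨⟨x, hx⟩⟩ := hcn.nonempty
    simp at hx
  | succ n ih =>
    intro F hF hcn hdeg y hy hyF hadj
    by_cases h2 : 2 ≤ F.card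
    · obtain ⟨z, hz, hcz⟩ := exists_erase hcn h2
      have hne : (F.erase z).Nonempty := by
        rw [← Finset.card_pos, Finset.card_erase_of_mem hz]; omega
      obtain ⟨z0, hz0, z', hz', hzz'⟩ := cn_nbr hcn hz hne
      rw [Finset.mem_singleton] at hz0
      subst hz0
      have hz'F := Finset.mem_of_mem_erase hz'
      have hcard : (F.erase z0).card = n := by rw [Finset.card_erase_of_mem hz, hF]; rfl
      have hdeg' : ∀ v ∈ F.erase z0, ∃ a b, ∀ w, G.Adj v w → w = a ∨ w = b :=
        fun v hv => hdeg v (Finset.mem_of_mem_erase hv)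
      by_cases hi : ∃ i, G.Adj z0 (y i)
      · obtain ⟨i, hi⟩ := hi
        have hno : ∀ j, j ≠ i → ¬ G.Adj z0 (y j) := by
          intro j hji hj
          obtain ⟨a, b, hab⟩ := hdeg z0 hz
          have e1 := hab _ hi
          have e2 := hab _ hj
          have e3 := hab _ hzz'
          have n1 : y i ≠ y j := fun h => hji (hy h).symm
          have n2 : z' ≠ y i := fun h => hyF i (h ▸ hz'F)
          have n3 : z' ≠ y j := fun h => hyF j (h ▸ hz'F)
          rcases e1 with e1 | e1 <;> rcases e2 with e2 | e2 <;> rcases e3 with e3 | e3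
          · exact n1 (e1.trans e2.symm)
          · exact n1 (e1.trans e2.symm)
          · exact n2 (e3.trans e1.symm)
          · exact n3 (e3.trans e2.symm)
          · exact n3 (e3.trans e2.symm)
          · exact n2 (e3.trans e1.symm)
          · exact n1 (e1.trans e2.symm)
          · exact n1 (e1.trans e2.symm)
        refine ih (F.erase z0) hcard hcz hdeg' (Function.update y i z0) ?_ ?_ ?_
        · intro j k hjk
          by_cases hj : j = i
          · by_cases hk : k = i
            · rw [hj, hk]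
            · rw [hj, Function.update_self, Function.update_of_ne hk] at hjk
              exact absurd (hjk ▸ hz) (hyF k)
          · by_cases hk : k = i
            · rw [hk, Function.update_self, Function.update_of_ne hj] at hjk
              exact absurd (hjk ▸ hz) (hyF j)
            · rw [Function.update_of_ne hj, Function.update_of_ne hk] at hjk
              exact hy hjk
        · intro j
          by_cases hj : j = i
          · rw [hj, Function.update_self]; exact Finset.notMem_erase _ _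
          · rw [Function.update_of_ne hj]
            exact fun h => hyF j (Finset.mem_of_mem_erase h)
        · intro j
          by_cases hj : j = i
          · rw [hj, Function.update_self]
            exact ⟨z', hz', hzz'.symm⟩
          · rw [Function.update_of_ne hj]
            obtain ⟨x, hx, hxy⟩ := hadj j
            refine ⟨x, Finset.mem_erase.2 ⟨?_, hx⟩, hxy⟩
            rintro rfl
            exact hno j hj hxy
      · push Not at hi
        refine ih (F.erase z0) hcard hcz hdeg' y hy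
          (fun j h => hyF j (Finset.mem_of_mem_erase h)) ?_
        intro j
        obtain ⟨x, hx, hxy⟩ := hadj j
        refine ⟨x, Finset.mem_erase.2 ⟨?_, hx⟩, hxy⟩
        rintro rfl
        exact hi j hxy
    · obtain ⟨x, rfl⟩ := Finset.card_eq_one.1 (show F.card = 1 by omega)
      obtain ⟨a, b, hab⟩ := hdeg x (Finset.mem_singleton_self x)
      have hx : ∀ i, y i = a ∨ y i = b := by
        intro i
        obtain ⟨x', hx', hadj'⟩ := hadj i
        rw [Finset.mem_singleton] at hx'
        subst hx'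
        exact hab _ hadj'
      have n01 : y 0 ≠ y 1 := fun h => absurd (hy h) (by decide)
      have n02 : y 0 ≠ y 2 := fun h => absurd (hy h) (by decide)
      have n12 : y 1 ≠ y 2 := fun h => absurd (hy h) (by decide)
      rcases hx 0 with e1 | e1 <;> rcases hx 1 with e2 | e2 <;> rcases hx 2 with e3 | e3
      · exact n01 (e1.trans e2.symm)
      · exact n01 (e1.trans e2.symm)
      · exact n02 (e1.trans e3.symm)
      · exact n12 (e2.trans e3.symm)
      · exact n12 (e2.trans e3.symm)
      · exact n02 (e1.trans e3.symm)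
      · exact n01 (e1.trans e2.symm)
      · exact n01 (e1.trans e2.symm)

theorem three_nbrs (h3 : Conn3 H) (hn : 6 ≤ Fintype.card W) (w : W) :
    ∃ t : Fin 3 → W, Function.Injective t ∧ ∀ i, H.Adj w (t i) := by
  classical
  by_cases hN : 3 ≤ (univ.filter (fun v => H.Adj w v)).card
  · obtain ⟨N, hN1, hN2⟩ := Finset.exists_subset_card_eq hN
    have e := Finset.equivFinOfCardEq hN2
    refine ⟨fun i => (e.symm i).1, fun i j h => e.symm.injective (Subtype.ext h), fun i => ?_⟩
    exact (Finset.mem_filter.1 (hN1 (e.symm i).2)).2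
  · exfalso
    push Not at hN
    obtain ⟨T, hT1, hT2, hT3⟩ := Finset.exists_subsuperset_card_eq
      (s := univ.filter (fun v => H.Adj w v)) (t := univ.erase w) (n := 2) (by
        intro x hx
        rw [Finset.mem_filter] at hx
        exact Finset.mem_erase.2 ⟨hx.2.ne', Finset.mem_univ _⟩) (by omega) (by
        rw [Finset.card_erase_of_mem (Finset.mem_univ _), Finset.card_univ]; omega)
    obtain ⟨a, b, hab, rfl⟩ := Finset.card_eq_two.1 hT3
    have hwa : w ≠ a := fun h => (Finset.mem_erase.1 (hT2 (by rw [h]; simp))).1 rfl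
    have hwb : w ≠ b := fun h => (Finset.mem_erase.1 (hT2 (by rw [h]; simp))).1 rfl
    obtain ⟨z, hz⟩ : ∃ z, z ∉ ({w, a, b} : Finset W) := by
      by_contra hcon
      push Not at hcon
      have : (univ : Finset W) ⊆ {w, a, b} := fun x _ => hcon x
      have := Finset.card_le_card this
      rw [Finset.card_univ] at this
      have := Finset.card_le_three (a := w) (b := a) (c := b)
      omega
    simp only [Finset.mem_insert, Finset.mem_singleton, not_or] at hz
    refine sep h3 {w} a b w z hab rfl hwa hwb hz.1 hz.2.1 hz.2.2 ?_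
    intro u hu v huv hva hvb
    rw [Set.mem_singleton_iff] at hu
    subst hu
    exfalso
    have := hT1 (Finset.mem_filter.2 ⟨Finset.mem_univ _, huv⟩)
    rw [Finset.mem_insert, Finset.mem_singleton] at this
    rcases this with h | h
    · exact hva h
    · exact hvb h

theorem card_of_branch13 (h3 : Conn3 H) {V : Type} [Finite V] {G : SimpleGraph V}
    (hG : Branch13 V G) (hm : Minor H G) : Fintype.card W ≤ 13 := by
  classical
  by_contra hcon
  push Not at hcon
  obtain ⟨C, hC, hcov⟩ := hG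
  obtain ⟨f, f1, f3, f4⟩ := minor_fin hm
  have hall : ∀ w, (f w ∩ C).Nonempty := by
    intro w
    by_contra hno
    rw [Finset.not_nonempty_iff_eq_empty] at hno
    have hdeg : ∀ v ∈ f w, ∃ a b, ∀ u, G.Adj v u → u = a ∨ u = b := by
      intro v hv
      refine hcov v fun h => ?_
      have : v ∈ f w ∩ C := Finset.mem_inter.2 ⟨hv, h⟩
      rw [hno] at this
      simp at this
    obtain ⟨t, ht, hadj⟩ := three_nbrs h3 (by omega) w
    choose x hx y hy hxy using fun i => f4 w (t i) (hadj i)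
    refine three_out _ (f w) rfl (f3 w) hdeg y ?_ ?_ ?_
    · intro i j hij
      by_contra hne
      refine Finset.disjoint_left.1 (f1 (t i) (t j) fun h => hne (ht h)) (hy i) ?_
      rw [hij]; exact hy j
    · intro i h
      exact Finset.disjoint_left.1 (f1 w (t i) (hadj i).ne) h (hy i)
    · intro i
      exact ⟨x i, hx i, hxy i⟩
  have h1 := branch_card f f1 C
  rw [Finset.filter_true_of_mem (fun w _ => hall w), Finset.card_univ] at h1
  omega

end

end Pool.Agent.U881.HB
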