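import Pool.Agent.H76R2.TW.ClosB

/-!
# Closures of the even side of a 3-separation: every distribution of the virtual edges works
-/

set_option autoImplicit false
set_option linter.unusedSimpArgs false
set_option linter.unusedSectionVars false

namespace Pool.Agent.U881.HB

open Finset H76TW H76TW.CB

/-- T3': every closure of the even side (with one new vertex `z ∈ P`) is an `r`-graph -/
theorem closBall (V : Type) [Fintype V] [DecidableEq V] (r t na nb nc : ℕ)
    (pA pB : V → V → ℕ) (P Q : Finset V) (a b c z : V) (hS : Split pA pB P Q a b c)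
    (hG : RG r (fun u v => pA u v + pB u v) (P ∪ Q ∪ {a, b, c}))
    (hN : Num pA pB a b c r t na nb nc) (hz : z ∈ P) (ya yb yc : ℕ) (hy : ya + yb + yc = t) :
    RG r (fun u v => pB u v + (tri a b c ya yb yc u v
      + star z a b c (na + ya) (nb + yb) (nc + yc) u v)) (insert z (Q ∪ {a, b, c})) := by
  have hza : z ≠ a := fun h => hS.aP (h ▸ hz)
  have hzb : z ≠ b := fun h => hS.bP (h ▸ hz)
  have hzc : z ≠ c := fun h => hS.cP (h ▸ hz)
  have hzQ : z ∉ Q := fun h => (Finset.disjoint_left.1 hS.PQ) hz h
  have hab := hS.ab
  have hbc := hS.bc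
  have hca := hS.ca
  set U : Finset V := Q ∪ {a, b, c} with hU
  have haU : a ∈ U := by simp [hU]
  have hbU : b ∈ U := by simp [hU]
  have hcU : c ∈ U := by simp [hU]
  have hzU : z ∉ U := by simp [hU, hzQ, hza, hzb, hzc]
  have hPQ : U ⊆ P ∪ Q ∪ {a, b, c} := by
    intro x hx
    simp only [hU, Finset.mem_union] at hx ⊢
    tauto
  -- the basic inequality
  have hbase : ∀ Z ⊆ U, Odd Z.card → r ≤ H76FC.cut pB Z + ((if a ∈ Z then na + t else 0)
      + (if b ∈ Z then nb + t else 0) + (if c ∈ Z then nc + t else 0)) := by
    intro Z hZ ho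
    have h1 := hG.odd Z (hZ.trans hPQ) ho
    rw [cut_add] at h1
    have h2 : H76FC.cut pA Z ≤ (if a ∈ Z then na + t else 0)
      + (if b ∈ Z then nb + t else 0) + (if c ∈ Z then nc + t else 0) := by
      have h3 : H76FC.cut pA Z ≤ ∑ u ∈ Z, ∑ v, pA u v := by
        unfold H76FC.cut
        apply Finset.sum_le_sum
        intro u _
        exact Finset.sum_le_sum_of_subset (Finset.subset_univ _)
      refine h3.trans (le_of_eq ?_)
      have h4 : ∑ u ∈ Z, ∑ v, pA u v = ∑ u ∈ ({a, b, c} : Finset V), if u ∈ Z then ∑ v, pA u v
          else 0 := by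
        rw [← Finset.sum_filter]
        have hsub : ({a, b, c} : Finset V).filter (fun u => u ∈ Z) ⊆ Z := by
          intro x hx
          exact (Finset.mem_filter.1 hx).2
        symm
        apply Finset.sum_subset hsub
        intro x hx hx'
        apply Finset.sum_eq_zero
        intro v _
        by_contra hne
        have hxP := hS.suppA x v hne
        apply hx'
        rw [Finset.mem_filter]
        refine ⟨?_, hx⟩
        rcases Finset.mem_union.1 hxP with h5 | h5
        · have h6 := hZ hx
          rcases Finset.mem_union.1 h6 with h7 | h7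
          · exact absurd h7 (Finset.disjoint_left.1 hS.PQ h5)
          · exact h7
        · exact h5
      rw [h4, Finset.sum_insert, Finset.sum_insert, Finset.sum_singleton, hN.dA, hN.dB, hN.dC]
      · ring
      · simp [hbc]
      · simp [hab, hca.symm]
    omega
  -- the three choices
  have hcardU : U.card = Q.card + 3 := by
    rw [hU, Finset.card_union_of_disjoint]
    · have : ({a, b, c} : Finset V).card = 3 := by
        rw [Finset.card_insert_of_notMem, Finset.card_insert_of_notMem, Finset.card_singleton]
        · simp [hbc]
        · simp [hab, hca.symm]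
      omega
    · rw [Finset.disjoint_left]
      intro x hx hx'
      simp only [Finset.mem_insert, Finset.mem_singleton] at hx'
      rcases hx' with h | h | h
      · exact hS.aQ (h ▸ hx)
      · exact hS.bQ (h ▸ hx)
      · exact hS.cQ (h ▸ hx)
  have hsuppB : ∀ u v, pB u v ≠ 0 → u ∈ U := fun u v h => hS.suppB u v h
  have hone : ∀ Z ⊆ U, Odd Z.card → ∀ w ∈ U, w ∉ Z → (∀ x ∈ ({a, b, c} : Finset V), x ≠ w → x ∈ Z) →
      r ≤ H76FC.cut pB Z + ∑ v, pB w v := by
    intro Z hZ ho w hwU hwZ hw
    have h1 : symmDiff (U \ Z) {w} = (U \ Z).erase w := by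
      ext x
      simp only [Finset.mem_symmDiff, Finset.mem_sdiff, Finset.mem_singleton, Finset.mem_erase]
      constructor
      · rintro (⟨h1, h2⟩ | ⟨h1, h2⟩)
        · exact ⟨h2, h1⟩
        · subst h1; exact absurd ⟨hwU, hwZ⟩ h2
      · rintro ⟨h1, h2⟩
        exact Or.inl ⟨h2, h1⟩
    have hwUZ : w ∈ U \ Z := Finset.mem_sdiff.2 ⟨hwU, hwZ⟩
    have h2 := cut_symmDiff pB hS.symmB (U \ Z) {w}
    rw [h1, ← cut_compl_in pB U Z hS.symmB hsuppB] at h2
    have h3 : H76FC.cut pB {w} ≤ ∑ v, pB w v := by
      unfold H76FC.cut
      rw [Finset.sum_singleton]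
      exact Finset.sum_le_sum_of_subset (Finset.subset_univ _)
    have h4 : ∀ x ∈ ({a, b, c} : Finset V), x ∉ (U \ Z).erase w := by
      intro x hx h
      rw [Finset.mem_erase, Finset.mem_sdiff] at h
      exact h.2.2 (hw x hx h.1)
    have h5 : Odd ((U \ Z).erase w).card := by
      rw [Finset.card_erase_of_mem hwUZ]
      have h6 := Finset.card_sdiff_add_card_eq_card hZ
      have h7 := hS.evenQ
      have h8 : 0 < (U \ Z).card := Finset.card_pos.2 ⟨w, hwUZ⟩
      rw [Nat.odd_iff] at ho ⊢
      rw [Nat.even_iff] at h7
      omega
    have h6 := hbase ((U \ Z).erase w) (fun x hx =>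
      (Finset.mem_sdiff.1 (Finset.mem_of_mem_erase hx)).1) h5
    rw [if_neg (h4 a (by simp)), if_neg (h4 b (by simp)), if_neg (h4 c (by simp))] at h6
    omega
  have gya : Good pB U b c a r (nb + nc + 2 * t) ya := by
    intro Z hZ ho h1 h2 h3
    have := hone Z hZ ho a haU h3 (by
      intro x hx hxa
      simp only [Finset.mem_insert, Finset.mem_singleton] at hx
      rcases hx with rfl | rfl | rfl
      · exact absurd rfl hxa
      · exact h1
      · exact h2)
    rw [hN.eA] at this
    omega
  have gyb : Good pB U c a b r (nc + na + 2 * t) yb := by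
    intro Z hZ ho h1 h2 h3
    have := hone Z hZ ho b hbU h3 (by
      intro x hx hxa
      simp only [Finset.mem_insert, Finset.mem_singleton] at hx
      rcases hx with rfl | rfl | rfl
      · exact h2
      · exact absurd rfl hxa
      · exact h1)
    rw [hN.eB] at this
    omega
  have gyc : Good pB U a b c r (na + nb + 2 * t) yc := by
    intro Z hZ ho h1 h2 h3
    have := hone Z hZ ho c hcU h3 (by
      intro x hx hxa
      simp only [Finset.mem_insert, Finset.mem_singleton] at hx
      rcases hx with rfl | rfl | rfl
      · exact h1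
      · exact h2
      · exact absurd rfl hxa)
    rw [hN.eC] at this
    omega
  have hgeq : (fun u v => pB u v + (tri a b c ya yb yc u v
      + star z a b c (na + ya) (nb + yb) (nc + yc) u v)) = fun u v => pB u v +
      six a b c z ya yb yc (na + ya) (nb + yb) (nc + yc) u v := by
    funext u v
    rw [tri_eq hab hbc hca, star_eq hab hbc hca hza hzb hzc]
    rfl
  rw [hgeq]
  have hsymm6 : ∀ u v, six a b c z ya yb yc (na + ya) (nb + yb) (nc + yc) u v
      = six a b c z ya yb yc (na + ya) (nb + yb) (nc + yc) v u := by
    intro u v
    unfold six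
    rw [sg_symm b c ya u v, sg_symm c a yb u v, sg_symm a b yc u v, sg_symm z a _ u v,
      sg_symm z b _ u v, sg_symm z c _ u v]
  have hsymm : ∀ u v, pB u v + six a b c z ya yb yc (na + ya) (nb + yb) (nc + yc) u v
      = pB v u + six a b c z ya yb yc (na + ya) (nb + yb) (nc + yc) v u := by
    intro u v
    rw [hS.symmB u v, hsymm6 u v]
  have hsupp : ∀ u v, pB u v + six a b c z ya yb yc (na + ya) (nb + yb) (nc + yc) u v ≠ 0 →
      u ∈ insert z U := by
    intro u v h
    by_contra hu
    apply h
    have hu1 : u ≠ z := fun h => hu (by rw [h]; exact Finset.mem_insert_self _ _)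
    have hu2 : u ∉ U := fun h => hu (Finset.mem_insert_of_mem h)
    have hua : u ≠ a := fun h => hu2 (h ▸ haU)
    have hub : u ≠ b := fun h => hu2 (h ▸ hbU)
    have huc : u ≠ c := fun h => hu2 (h ▸ hcU)
    have hpB : pB u v = 0 := by
      by_contra hne
      exact hu2 (hS.suppB u v hne)
    rw [hpB]
    simp [six, sg, hu1, hua, hub, huc]
  have hkey : ∀ Z ⊆ U, Odd Z.card →
      r ≤ H76FC.cut (fun u v => pB u v + six a b c z ya yb yc (na + ya) (nb + yb) (nc + yc) u v) Z := by
    intro Z hZ ho
    rw [cut_add, cut_six]
    simp only [cut_sg]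
    have hzZ : z ∉ Z := fun h => hzU (hZ h)
    have hb := hbase Z hZ ho
    have htot := hN.tot
    by_cases ha : a ∈ Z <;> by_cases hb' : b ∈ Z <;> by_cases hc : c ∈ Z <;>
      simp only [ha, hb', hc, hzZ, if_true, if_false, not_true_eq_false, not_false_eq_true,
        and_true, and_false, true_and, false_and, and_self] at hb ⊢
    · omega
    · have := gyc Z hZ ho ha hb' hc
      omega
    · have := gyb Z hZ ho hc ha hb'
      omega
    · omega
    · have := gya Z hZ ho hb' hc ha
      omega
    · omega
    · omega
    · omega
  constructor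
  · intro v
    rw [hS.loopB]
    by_cases h1 : v = a
    · subst h1; simp [six, sg, hab, hbc, hca, hab.symm, hbc.symm, hca.symm, hza, hza.symm]
    · by_cases h2 : v = b
      · subst h2; simp [six, sg, hab, hbc, hca, hab.symm, hbc.symm, hca.symm, hzb, hzb.symm]
      · by_cases h3 : v = c
        · subst h3; simp [six, sg, hab, hbc, hca, hab.symm, hbc.symm, hca.symm, hzc, hzc.symm]
        · simp [six, sg, h1, h2, h3]
  · exact hsymm
  · exact hsupp
  · intro v hv
    rw [Finset.sum_add_distrib, sum_six]
    simp only [sum_sg]
    have htot := hN.tot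
    rcases Finset.mem_insert.1 hv with h | h
    · subst h
      have h0 : ∑ w, pB v w = 0 := by
        apply Finset.sum_eq_zero
        intro w _
        by_contra hne
        exact hzU (hS.suppB v w hne)
      rw [h0]
      simp only [hza, hzb, hzc, if_true, if_false]
      omega
    · rcases Finset.mem_union.1 h with h1 | h1
      · have hva : v ≠ a := fun h => hS.aQ (h ▸ h1)
        have hvb : v ≠ b := fun h => hS.bQ (h ▸ h1)
        have hvc : v ≠ c := fun h => hS.cQ (h ▸ h1)
        have hvz : v ≠ z := fun h => hzQ (h ▸ h1)
        simp only [hva, hvb, hvc, hvz, if_false]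
        have h2 := hG.reg v (hPQ h)
        rw [Finset.sum_add_distrib] at h2
        have h3 : ∑ w, pA v w = 0 := by
          apply Finset.sum_eq_zero
          intro w _
          by_contra hne
          have h4 := hS.suppA v w hne
          rcases Finset.mem_union.1 h4 with h5 | h5
          · exact (Finset.disjoint_left.1 hS.PQ h5) h1
          · simp [hva, hvb, hvc] at h5
        omega
      · simp only [Finset.mem_insert, Finset.mem_singleton] at h1
        rcases h1 with h1 | h1 | h1
        · subst h1
          rw [hN.eA]
          simp only [hab, hca.symm, hza.symm, if_true, if_false]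
          omega
        · subst h1
          rw [hN.eB]
          simp only [hab.symm, hbc, hzb.symm, if_true, if_false]
          omega
        · subst h1
          rw [hN.eC]
          simp only [hbc.symm, hca, hzc.symm, if_true, if_false]
          omega
  · intro Z hZ ho
    by_cases hzZ : z ∈ Z
    · rw [cut_compl_in _ (insert z U) Z hsymm hsupp]
      apply hkey
      · intro x hx
        rw [Finset.mem_sdiff, Finset.mem_insert] at hx
        rcases hx.1 with h | h
        · exact absurd (h ▸ hzZ) hx.2
        · exact h
      · have h1 : (insert z U).card = Q.card + 4 := by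
          rw [Finset.card_insert_of_notMem hzU, hU, Finset.card_union_of_disjoint]
          · have : ({a, b, c} : Finset V).card = 3 := by
              rw [Finset.card_insert_of_notMem, Finset.card_insert_of_notMem, Finset.card_singleton]
              · simp [hbc]
              · simp [hab, hca.symm]
            omega
          · rw [Finset.disjoint_left]
            intro x hx hx'
            simp only [Finset.mem_insert, Finset.mem_singleton] at hx'
            rcases hx' with h | h | h
            · exact hS.aQ (h ▸ hx)
            · exact hS.bQ (h ▸ hx)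
            · exact hS.cQ (h ▸ hx)
        have h2 := Finset.card_sdiff_add_card_eq_card hZ
        have h3 := hS.evenQ
        rw [Nat.odd_iff] at ho ⊢
        rw [Nat.even_iff] at h3
        omega
    · apply hkey Z _ ho
      intro x hx
      rcases Finset.mem_insert.1 (hZ hx) with h | h
      · exact absurd (h ▸ hx) hzZ
      · exact h

end Pool.Agent.U881.HB
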