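import Pool.Agent.U881.HB.TD
import Pool.Agent.TH100.LV.Final

/-!
# Lovász's Hilbert basis conjecture and sums of order at most three: assembly
-/

set_option autoImplicit false
set_option linter.unusedSectionVars false

namespace Pool.Agent.U881.HB

open Finset H76FC H76TW H76TX H76TY Pool.Agent.W315.LB Pool.Agent.TH583.HB
open Pool.Agent.R145.Cir (Pa Ci)
open Pool.Agent.TH100.LV (EvenPerms TwoColour TwoMeeting cover_of)

/-- at most three vertices whose deletion leaves components with at most nine vertices -/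
def Comp9 (V : Type) (G : SimpleGraph V) : Prop :=
  ∃ C : Finset V, C.card ≤ 3 ∧
    ∀ F : Finset V, (G.induce (F : Set V)).Connected → (∀ v ∈ F, v ∉ C) → F.card ≤ 9

/-- the classes of bricks of the starting files -/
def Classes (W : Type) [Fintype W] (H : SimpleGraph W) : Prop :=
  KF W H ∨ EvenPerms H.Adj ∨ TwoColour H ∨ TwoMeeting H

/-- the bricks that are minors are in the classes of the starting files, unless they have a Petersen
minor or a separation of order three with at least two vertices on both sides -/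
def Settled (V : Type) (G : SimpleGraph V) : Prop :=
  ∀ (W : Type) [Fintype W] [DecidableEq W] (H : SimpleGraph W), Brick H → Minor H G →
    ¬ PetMinor H → ¬ Sep3 H → Classes W H

/-- the pieces -/
def Piece (V : Type) (G : SimpleGraph V) : Prop :=
  Branch13 V G ∨ Cover7 V G ∨ LongMeet V G ∨ (∀ n v, IsCircuit G n v → n ≤ 9) ∨
  (∀ n v, IsPath G n v → n ≤ 11) ∨ TwoFeedback V G ∨ PathCover V G ∨ TreeDepth5 V G ∨
  Comp9 V G ∨ Settled V G

theorem minor_card {V W : Type} [Fintype V] [Fintype W] {H : SimpleGraph W} {G : SimpleGraph V}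
    (h : Minor H G) : Fintype.card W ≤ Fintype.card V := by
  obtain ⟨f, f1, f2, _⟩ := h
  have hne : ∀ w, ∃ x, x ∈ f w := fun w => by
    obtain ⟨⟨x, hx⟩⟩ := (f2 w).nonempty
    exact ⟨x, hx⟩
  choose g hg using hne
  refine Fintype.card_le_of_injective g fun a b hab => ?_
  by_contra hne
  have h1 := hg a
  rw [hab] at h1
  exact Set.disjoint_left.1 (f1 a b hne) h1 (hg b)

section
variable {W : Type} [Fintype W] [DecidableEq W] {H : SimpleGraph W}

theorem sep3_of_comp9 (hB : Brick H) (hn : 14 ≤ Fintype.card W) {V : Type} [Finite V]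
    {G : SimpleGraph V} (hG : Comp9 V G) (hm : Minor H G) : Sep3 H := by
  classical
  obtain ⟨C, hC, hcomp⟩ := hG
  obtain ⟨f, f1, f3, f4⟩ := minor_fin hm
  set D : Finset W := univ.filter (fun w => (f w ∩ C).Nonempty) with hD
  have hDc : D.card ≤ 3 := (branch_card f f1 C).trans hC
  obtain ⟨E, hDE, _, hE⟩ := Finset.exists_subsuperset_card_eq (s := D) (t := univ) (n := 3)
    (Finset.subset_univ _) hDc (by rw [Finset.card_univ]; omega)
  have hfE : ∀ w, w ∉ E → ∀ v ∈ f w, v ∉ C := by
    intro w hw v hv hvC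
    apply hw
    apply hDE
    rw [hD, Finset.mem_filter]
    exact ⟨Finset.mem_univ _, v, Finset.mem_inter.2 ⟨hv, hvC⟩⟩
  -- connected sets outside of `E` are small
  have hsmall : ∀ K : Finset W, Cn H K → (∀ w ∈ K, w ∉ E) → K.card ≤ 9 := by
    intro K hK hKE
    have hcn := y12_conn H G (fun w => (f w : Set V)) f3
      (fun x y hxy => by
        obtain ⟨a, ha, b, hb, hab⟩ := f4 x y hxy
        exact ⟨a, ha, b, hb, hab⟩) (K : Set W) hK
    have h6 : {b | ∃ x ∈ (K : Set W), b ∈ (f x : Set V)} = ((K.biUnion f : Finset V) : Set V) := by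
      ext b
      simp
    rw [h6] at hcn
    have h7 := hcomp _ hcn (by
      intro v hv
      obtain ⟨w, hw, hvw⟩ := Finset.mem_biUnion.1 hv
      exact hfE w (hKE w hw) v hvw)
    rw [Finset.card_biUnion (fun x _ y _ hxy => f1 x y hxy)] at h7
    have h8 : K.card ≤ ∑ w ∈ K, (f w).card := by
      rw [Finset.card_eq_sum_ones]
      refine Finset.sum_le_sum fun w _ => ?_
      obtain ⟨⟨x, hx⟩⟩ := (f3 w).nonempty
      exact Finset.card_pos.2 ⟨x, hx⟩
    omega
  by_cases hedge : ∃ u v, H.Adj u v ∧ u ∉ E ∧ v ∉ E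
  · obtain ⟨u, v, huv, hu, hv⟩ := hedge
    have h0 : ({u, v} : Finset W) ∈ univ.filter (fun K : Finset W => Cn H K ∧ u ∈ K ∧
        ∀ w ∈ K, w ∉ E) := by
      rw [Finset.mem_filter]
      refine ⟨Finset.mem_univ _, ?_, by simp, ?_⟩
      · unfold Cn
        rw [Finset.coe_pair]
        exact SimpleGraph.induce_pair_connected_of_adj huv
      · intro w hw
        rw [Finset.mem_insert, Finset.mem_singleton] at hw
        rcases hw with rfl | rfl
        · exact hu
        · exact hv
    obtain ⟨K, hK, hmax⟩ := Finset.exists_max_image _ (fun K : Finset W => K.card) ⟨_, h0⟩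
    have hK2 : 2 ≤ K.card := by
      have := hmax _ h0
      rw [Finset.card_pair huv.ne] at this
      exact this
    rw [Finset.mem_filter] at hK
    obtain ⟨_, hKc, huK, hKE⟩ := hK
    have hK9 := hsmall K hKc hKE
    have hdKE : Disjoint K E := Finset.disjoint_left.2 hKE
    refine ⟨K, (K ∪ E)ᶜ, E, ?_, hdKE, ?_, ?_, hE, hK2, ?_, ?_⟩
    · rw [Finset.disjoint_right]
      intro x hx hxK
      exact (Finset.mem_compl.1 hx) (Finset.mem_union_left _ hxK)
    · rw [Finset.disjoint_left]
      intro x hx hxE
      exact (Finset.mem_compl.1 hx) (Finset.mem_union_right _ hxE)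
    · ext x
      simp only [Finset.mem_union, Finset.mem_compl, Finset.mem_univ, iff_true]
      tauto
    · rw [Finset.card_compl, Finset.card_union_of_disjoint hdKE, hE]
      omega
    · intro x hx y hy hxy
      rw [Finset.mem_compl, Finset.mem_union, not_or] at hy
      have h1 := hmax (insert y K) (by
        rw [Finset.mem_filter]
        refine ⟨Finset.mem_univ _, ?_, Finset.mem_insert_of_mem huK, ?_⟩
        · exact cn_insert hKc ⟨y, Finset.mem_singleton_self _, x, hx, hxy.symm⟩
        · intro w hw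
          rcases Finset.mem_insert.1 hw with rfl | hw
          · exact hy.2
          · exact hKE w hw)
      rw [Finset.card_insert_of_notMem hy.1] at h1
      omega
  · exfalso
    push Not at hedge
    have h13 := card_of_cover7 hB (V := W) (G := H) ⟨E, by omega, fun u v huv => by
      by_contra hno
      rw [not_or] at hno
      exact hno.2 (hedge u v huv hno.1)⟩ (minor_refl H)
    omega

theorem piece_kf (hB : Brick H) (hn : 14 ≤ Fintype.card W) (hP : ¬ PetMinor H) {V : Type}
    [Finite V] {G : SimpleGraph V} (hG : Piece V G) (hm : Minor H G) : Sep3 H ∨ Classes W H := by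
  classical
  suffices hh : Sep3 H ∨ KF W H ∨ Classes W H by
    rcases hh with h | h | h
    · exact Or.inl h
    · exact Or.inr (Or.inl h)
    · exact Or.inr h
  have h3 := conn3_of_brick hB
  rcases hG with h | h | h | h | h | h | h | h | h | h
  · have := card_of_branch13 h3 h hm
    omega
  · have := card_of_cover7 hB h hm
    omega
  · exact Or.inr (Or.inl (Or.inr (few_of_meet W H (meet_of_longMeet h hm))))
  · rcases Pool.Agent.N393.Nine.meet_or_ten hB (ci_le hm h) with h | h
    · exact Or.inr (Or.inl (Or.inr (few_of_meet W H h)))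
    · omega
  · rcases Pool.Agent.N393.Nine.path_brick hB (pa_le hm h) with h | h
    · omega
    · rcases Pool.Agent.N393.Nine.meet_or_ten hB h with h | h
      · exact Or.inr (Or.inl (Or.inr (few_of_meet W H h)))
      · omega
  · exact Or.inr (Or.inl (Or.inl (Or.inr (Or.inr (sides_of_feedback (by omega) h hm)))))
  · exact Or.inr (Or.inl (Or.inr (few_of_meet W H (meet_of_pathCover h hm))))
  · exact Or.inr (Or.inl (Or.inr (few_of_meet W H (meet_of_pathCover
      (pathCover_of_treeDepth h3 (by omega) (treeDepth_minor h hm)) (minor_refl H)))))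
  · exact Or.inl (sep3_of_comp9 hB hn h hm)
  · by_cases hs : Sep3 H
    · exact Or.inl hs
    · exact Or.inr (Or.inr (h W H hB hm hP hs))

end

/-- the case of a separation of order three -/
theorem cover_sep3 {V : Type} [Fintype V] [DecidableEq V] {r : ℕ} {p : V → V → ℕ} (hr : 1 ≤ r)
    (hp0 : RGraph r p) (h3 : Conn3 (gr p))
    (hbelow : ∀ (W : Type) [Fintype W] [DecidableEq W] (q : W → W → ℕ),
      Fintype.card W < Fintype.card V → RGraph r q → Minor (gr q) (gr p) → Cover 1 r q)
    (hs : Sep3 (gr p)) : Cover 1 r p := by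
  obtain ⟨P, Q, S, hPQ, hPS, hQS, hU, hS, hP, hQ, hpq⟩ := hs
  have hcard : (univ : Finset V).card = P.card + Q.card + 3 := by
    rw [← hU, Finset.card_union_of_disjoint, Finset.card_union_of_disjoint hPQ, hS]
    rw [Finset.disjoint_union_left]
    exact ⟨hPS, hQS⟩
  have hev := even_card (span V 1 r p hp0).1 hr
  rw [hcard] at hev
  have hpq0 : ∀ u ∈ P, ∀ v ∈ Q, p u v = 0 := by
    intro u hu v hv
    by_contra h
    exact hpq u hu v hv (Y13.adj_gr p u v (fun h' => Finset.disjoint_left.1 hPQ hu (h' ▸ hv))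
      (Nat.pos_of_ne_zero h))
  rcases Nat.even_or_odd P.card with hPe | hPo
  · have hQo : Odd Q.card := by
      obtain ⟨i, hi⟩ := hev
      obtain ⟨j, hj⟩ := hPe
      exact ⟨i - j - 2, by omega⟩
    refine vcut_class hp0 h3 hbelow hPQ.symm hQS hPS ?_ hS hQo hPe hQ hP ?_
    · rw [Finset.union_comm Q P]; exact hU
    · intro u hu v hv
      rw [hp0.symm]
      exact hpq0 v hv u hu
  · have hQe : Even Q.card := by
      obtain ⟨i, hi⟩ := hev
      obtain ⟨j, hj⟩ := hPo
      exact ⟨i - j - 2, by omega⟩
    exact vcut_class hp0 h3 hbelow hPQ hPS hQS hU hS hPo hQe hP hQ hpq0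

theorem cover_sum {V0 : Type} [Finite V0] (G0 : SimpleGraph V0) (hP : ¬ PetMinor G0)
    (hS : Sum3 Piece V0 G0) : ∀ (n : ℕ) (V : Type) [Fintype V] [DecidableEq V],
    Fintype.card V = n → ∀ (r : ℕ) (p : V → V → ℕ), RGraph r p → Minor (gr p) G0 →
    Cover 1 r p := by
  intro n
  induction n using Nat.strong_induction_on with
  | _ n ih =>
  intro V _ _ hV r p hp hm
  refine main Pool.Agent.W209.LB.conn3 Pool.Agent.W427.LB.bicrit transport H76TW.bip H76TW.span
    tight2 connSide (fun W _ H => Fintype.card W ≤ n ∧ Minor H G0)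
    (fun V _ _ r p hc hp => eight' V r p (by omega) hp) ?_ n V hV r p hp ?_
  · intro V' _ _ r' p' hr' hp' hnt hB hk
    obtain ⟨hcard, hm'⟩ := hk
    have hPet : ¬ PetMinor (gr p') := fun h => hP (pet_minor hm' h)
    by_cases h13 : Fintype.card V' ≤ 13
    · exact Or.inl (thirteen _ h13 V' rfl r' p' hp' hPet)
    have hkf : Sep3 (gr p') ∨ Classes V' (gr p') := by
      rcases sum3_lift hS inferInstance V' (gr p') (conn3_of_brick hB) (by omega) hm' with
        h | ⟨V'', hfin, G'', hG'', hm''⟩
      · exact Or.inl h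
      · have := hfin
        exact piece_kf hB (by omega) hPet hG'' hm''
    rcases hkf with hs | (hk | hk) | hk
    · refine Or.inl (cover_sep3 hr' hp' (conn3_of_brick hB) ?_ hs)
      intro W _ _ q hW hq hmq
      exact ih _ (by omega) W rfl r' q hq (minor_trans hmq hm')
    · exact Or.inl (cover_known hp' hk)
    · exact Or.inr (step hr' hp' hnt hk)
    · exact Or.inl (cover_of hp' hk)
  · intro W _ H _ hH
    have h1 := minor_of_odd hH
    exact ⟨(minor_card h1).trans hV.le, minor_trans h1 hm⟩

theorem decomp_sum (V E : Type) [Fintype V] [Fintype E] [DecidableEq E] (ends : E → Sym2 V)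
    (hP : ¬ PetMinor (SimpleGraph.fromEdgeSet (Set.range ends)))
    (hS : Sum3 Piece V (SimpleGraph.fromEdgeSet (Set.range ends))) : Decomp ends := by
  refine decomp_of (fun V' G => Minor G (SimpleGraph.fromEdgeSet (Set.range ends))) ?_ ?_ V E ends
    (minor_refl _)
  · intro V' G H h hG
    exact minor_trans (minor_sub id Function.injective_id h) hG
  · intro V' _ _ r p hp hm
    exact cover_sum _ hP hS _ V' rfl r p hp hm

theorem decomp_sum7 (V E : Type) [Fintype V] [Fintype E] [DecidableEq E] (ends : E → Sym2 V)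
    (hP : ¬ PetMinor (SimpleGraph.fromEdgeSet (Set.range ends)))
    (hS : Sum7 (SimpleGraph.fromEdgeSet (Set.range ends))) : Decomp ends :=
  decomp_sum V E ends hP (sum_of_sum7 Piece (fun _ _ _ h => Or.inr (Or.inl h)) V _ hS)

end Pool.Agent.U881.HB
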