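import Pool.Agent.U881.HB.Final

/-!
# Four hubs: what a blocked perfect matching looks like
-/

set_option autoImplicit false
set_option linter.unusedSectionVars false

namespace Pool.Agent.U881.HB

open Finset H76FC H76TW H76TX H76TY Pool.Agent.W315.LB Pool.Agent.TH583.HB

/-- crossing a vertex partition of a connected set -/
theorem crossing {W : Type} {G : SimpleGraph W} {s : Set W} (h : (G.induce s).Connected)
    (P : Set W) {a b : W} (ha : a ∈ s) (haP : a ∈ P) (hb : b ∈ s) (hbP : b ∉ P) :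
    ∃ x ∈ s, ∃ y ∈ s, x ∈ P ∧ y ∉ P ∧ G.Adj x y := by
  obtain ⟨w⟩ := h.preconnected ⟨a, ha⟩ ⟨b, hb⟩
  obtain ⟨d, _, hd1, hd2⟩ := w.exists_boundary_dart (Subtype.val ⁻¹' P) haP hbP
  exact ⟨d.fst.1, d.fst.2, d.snd.1, d.snd.2, hd1, hd2, d.adj⟩

/-- the vertices outside of `C` have at most one neighbour outside of `C` -/
def Short {V : Type} (G : SimpleGraph V) (C : Finset V) : Prop :=
  ∀ x y z : V, x ∉ C → y ∉ C → z ∉ C → x ≠ z → G.Adj x y → ¬ G.Adj y z

variable {V : Type} [Fintype V] [DecidableEq V]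

/-- the violated sets -/
structure Vio (r : ℕ) (p : V → V → ℕ) (M : V → V) (S : Finset V) : Prop where
  le : H76FC.cut p S + 3 ≤ out M S + r
  five : 5 ≤ out M S
  heavy : Heavy (gr p) S

theorem adj_pos {p : V → V → ℕ} (hs : ∀ u v, p u v = p v u) {u v : V} (h : (gr p).Adj u v) :
    0 < p u v := by
  unfold gr at h
  rw [SimpleGraph.fromRel_adj] at h
  rcases h.2 with h | h
  · exact h
  · rw [hs]; exact h

theorem vio {r : ℕ} {p : V → V → ℕ} (hr : 1 ≤ r) (hR : RGraph r p) (hN : NoTight r p)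
    {M : V → V} (hM : PMof p M) (hno : ¬ RGraph (r - 1) (minus p M)) :
    ∃ S T : Finset V, Disjoint S T ∧ Vio r p M S ∧ Vio r p M T := by
  have hgr : ∀ u v, 0 < p u v → u ≠ v → (gr p).Adj u v := fun u v h huv => Y13.adj_gr p u v huv h
  have hq : ∀ u v, 0 < minus p M u v → u ≠ v → (gr p).Adj u v := by
    intro u v h huv
    refine hgr u v ?_ huv
    unfold minus at h
    omega
  have hviol : ∀ S, MinV (r - 1) (minus p M) S → Vio r p M S := by
    intro S hS
    have h1 := cut_add hM S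
    have h2 := hS.lt
    have h3 := hR.odd S hS.odd
    obtain ⟨a, ha⟩ := cut_parity hR hS.odd
    obtain ⟨b, hb⟩ := out_parity hM.1 S
    obtain ⟨c, hc⟩ := hS.odd
    have h4 : H76FC.cut p S - r + 3 ≤ out M S := by omega
    have hle : out M S ≤ S.card := Finset.card_filter_le _ _
    have hle' : out M S ≤ Sᶜ.card := by
      apply Finset.card_le_card_of_injOn M
      · intro v hv
        have := (Finset.mem_filter.1 hv).2
        exact Finset.mem_coe.2 (Finset.mem_compl.2 this)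
      · intro u _ v _ huv
        have := congrArg M huv
        rwa [hM.1.1, hM.1.1] at this
    have htight : H76FC.cut p S ≠ r := by
      intro h0
      rcases hN S hS.odd h0 with h1 | h1 <;> omega
    have h5 : 5 ≤ out M S := by omega
    exact ⟨by omega, h5, hS.heavy (by omega) hq⟩
  rcases remove_or hr hR hM with h | ⟨S, T, hST, hS, hT⟩
  · exact absurd h hno
  · exact ⟨S, T, hST, hviol S hS, hviol T hT⟩

/-- a heavy set of at least five vertices contains two hubs -/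
theorem two_hubs {G : SimpleGraph V} {C S : Finset V} (hC : Short G C) (hS : Heavy G S)
    (h5 : 5 ≤ S.card) : 2 ≤ (C ∩ S).card := by
  by_contra hcon
  have hle : (C ∩ S).card ≤ 1 := by omega
  obtain ⟨w, hw, hwC⟩ : ∃ w ∈ S, ∀ x ∈ S, x ≠ w → x ∉ C := by
    by_cases he : (C ∩ S).Nonempty
    · obtain ⟨w, hw⟩ := he
      refine ⟨w, (Finset.mem_inter.1 hw).2, fun x hx hxw hxC => hxw ?_⟩
      exact Finset.card_le_one.1 hle x (Finset.mem_inter.2 ⟨hxC, hx⟩) w hw
    · obtain ⟨w, hw⟩ : S.Nonempty := Finset.card_pos.1 (by omega)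
      exact ⟨w, hw, fun x hx _ hxC => he ⟨x, Finset.mem_inter.2 ⟨hxC, hx⟩⟩⟩
  have hcn := hS.conn w hw
  have hcard : 4 ≤ (S.erase w).card := by rw [Finset.card_erase_of_mem hw]; omega
  obtain ⟨x, hx, x', hx', hxx⟩ := Finset.one_lt_card.1 (show 1 < (S.erase w).card by omega)
  rw [Finset.mem_erase] at hx hx'
  obtain ⟨a, ⟨haS, haw⟩, y, ⟨hyS, hyw⟩, ha, _, hay⟩ := crossing hcn {x} (a := x) (b := x')
    ⟨hx.2, hx.1⟩ rfl ⟨hx'.2, hx'.1⟩ (fun h => hxx h.symm)
  obtain rfl : a = x := ha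
  obtain ⟨z, hz⟩ : (((S.erase w).erase a).erase y).Nonempty := by
    rw [← Finset.card_pos]
    have h1 := Finset.pred_card_le_card_erase (s := (S.erase w).erase a) (a := y)
    have h2 := Finset.pred_card_le_card_erase (s := S.erase w) (a := a)
    omega
  rw [Finset.mem_erase, Finset.mem_erase, Finset.mem_erase] at hz
  obtain ⟨b, ⟨hbS, hbw⟩, c, ⟨hcS, hcw⟩, hb, hc, hbc⟩ := crossing hcn {a, y} (a := a) (b := z)
    ⟨haS, haw⟩ (Set.mem_insert _ _) ⟨hz.2.2.2, hz.2.2.1⟩ (by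
      rintro (h | h)
      · exact hz.2.1 h
      · exact hz.1 h)
  rw [Set.mem_insert_iff, Set.mem_singleton_iff, not_or] at hc
  have hall : ∀ x ∈ S, x ≠ w → x ∉ C := hwC
  rcases hb with rfl | hb
  · exact hC y b c (hall y hyS hyw) (hall b hbS hbw) (hall c hcS hcw) (Ne.symm hc.2) hay.symm hbc
  · obtain rfl : b = y := hb
    exact hC a b c (hall a haS haw) (hall b hbS hbw) (hall c hcS hcw) (Ne.symm hc.1) hay hbc

/-- the shape of a violated set which contains two of the four hubs -/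
structure Shape (r : ℕ) (p : V → V → ℕ) (C : Finset V) (M : V → V) (S : Finset V) (v : V) :
    Prop where
  cut_le : H76FC.cut p S ≤ r + 2
  hub : ∀ c ∈ C, c ∈ S → M c ∉ S ∧ (gr p).Adj v c
  hub' : ∀ c ∈ C, c ∉ S → M c ∈ S ∧ M c ∉ C
  vS : v ∈ S
  vC : v ∉ C
  MvS : M v ∉ S
  MvC : M v ∉ C
  pair : ∀ x ∈ S, x ∉ C → x ≠ v → ∃ y ∈ S, y ∉ C ∧ (gr p).Adj x y
  uniq : ∀ x ∈ S, x ∉ C → M x ∉ S → M x ∉ C → x = v

theorem shape {r : ℕ} {p : V → V → ℕ} {C S : Finset V} {M : V → V} (hM : PMof p M)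
    (hC : Short (gr p) C) (hV : Vio r p M S) (hC4 : C.card = 4) (hCS : (C ∩ S).card = 2) :
    ∃ v, Shape r p C M S v := by
  have hgr : ∀ v, (gr p).Adj v (M v) := fun v => Y13.adj_gr p v (M v) (Ne.symm (hM.1.2 v)) (hM.2 v)
  have hinj : Function.Injective M := fun a b h => by
    have := congrArg M h
    rwa [hM.1.1, hM.1.1] at this
  have hS5 : 5 ≤ S.card := hV.five.trans (Finset.card_filter_le _ _)
  obtain ⟨c1, c2, hc12, hCSe⟩ := Finset.card_eq_two.1 hCS
  have hc1 : c1 ∈ C ∧ c1 ∈ S := Finset.mem_inter.1 (by rw [hCSe]; simp)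
  have hc2 : c2 ∈ C ∧ c2 ∈ S := Finset.mem_inter.1 (by rw [hCSe]; simp)
  have hmem : ∀ c ∈ C, c ∈ S → c = c1 ∨ c = c2 := by
    intro c h1 h2
    have : c ∈ C ∩ S := Finset.mem_inter.2 ⟨h1, h2⟩
    rw [hCSe] at this
    simpa using this
  -- at most one single vertex
  have hsing : ∀ x ∈ S, x ∉ C → (∀ y ∈ S, y ∉ C → ¬ (gr p).Adj x y) →
      ∀ x' ∈ S, x' ∉ C → (∀ y ∈ S, y ∉ C → ¬ (gr p).Adj x' y) → x = x' := by
    intro x hx hxC hxs x' hx' hxC' hxs'
    obtain ⟨N, hN⟩ := hV.heavy.crit c1 hc1.2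
    have hne : ∀ z, z ∉ C → z ≠ c1 := fun z hz h => hz (h ▸ hc1.1)
    have key : ∀ x ∈ S, x ∉ C → (∀ y ∈ S, y ∉ C → ¬ (gr p).Adj x y) → N x = c2 := by
      intro x hx hxC hxs
      obtain ⟨h1, h2, _, h4⟩ := hN x hx (hne x hxC)
      have h5 : N x ∈ C := by
        by_contra h
        exact hxs _ h1 h h4
      rcases hmem _ h5 h1 with h | h
      · exact absurd h h2
      · exact h
    have e1 := (hN x hx (hne x hxC)).2.2.1
    have e2 := (hN x' hx' (hne x' hxC')).2.2.1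
    rw [key x hx hxC hxs] at e1
    rw [key x' hx' hxC' hxs'] at e2
    exact e1.symm.trans e2
  -- crossing edges outside of the hubs
  have hcs : ∀ x ∈ S, x ∉ C → M x ∉ S → M x ∉ C → ∀ y ∈ S, y ∉ C → ¬ (gr p).Adj x y := by
    intro x _ hxC hMS hMC y hy hyC hxy
    exact hC y x (M x) hyC hxC hMC (fun h => hMS (h ▸ hy)) hxy.symm (hgr x)
  set F := S.filter (fun x => M x ∉ S) with hF
  set A1 := F.filter (fun x => x ∈ C) with hA1
  set A2 := F.filter (fun x => x ∉ C ∧ M x ∈ C) with hA2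
  set A3 := F.filter (fun x => x ∉ C ∧ M x ∉ C) with hA3
  have hsplit : F.card ≤ A1.card + A2.card + A3.card := by
    have : F ⊆ A1 ∪ A2 ∪ A3 := by
      intro x hx
      simp only [hA1, hA2, hA3, Finset.mem_union, Finset.mem_filter]
      tauto
    exact (Finset.card_le_card this).trans ((Finset.card_union_le _ _).trans
      (Nat.add_le_add_right (Finset.card_union_le _ _) _))
  have h1 : A1 ⊆ C ∩ S := by
    intro x hx
    simp only [hA1, hF, Finset.mem_filter] at hx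
    exact Finset.mem_inter.2 ⟨hx.2, hx.1.1⟩
  have hsd : (C \ S).card = 2 := by
    have := Finset.card_sdiff_add_card_inter C S
    omega
  have h2 : A2.image M ⊆ C \ S := by
    intro x hx
    obtain ⟨y, hy, rfl⟩ := Finset.mem_image.1 hx
    simp only [hA2, hF, Finset.mem_filter] at hy
    exact Finset.mem_sdiff.2 ⟨hy.2.2, hy.1.2⟩
  have h2c : (A2.image M).card = A2.card := Finset.card_image_of_injective _ hinj
  have h3 : A3.card ≤ 1 := by
    refine Finset.card_le_one.2 fun x hx x' hx' => ?_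
    simp only [hA3, hF, Finset.mem_filter] at hx hx'
    exact hsing x hx.1.1 hx.2.1 (hcs x hx.1.1 hx.2.1 hx.1.2 hx.2.2) x' hx'.1.1 hx'.2.1
      (hcs x' hx'.1.1 hx'.2.1 hx'.1.2 hx'.2.2)
  have hF5 : 5 ≤ F.card := hV.five
  have l1 := Finset.card_le_card h1
  have l2 := Finset.card_le_card h2
  rw [hCS] at l1
  rw [hsd, h2c] at l2
  have e1 : A1 = C ∩ S := Finset.eq_of_subset_of_card_le h1 (by omega)
  have e2 : A2.image M = C \ S := Finset.eq_of_subset_of_card_le h2 (by omega)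
  obtain ⟨v, hv⟩ : A3.Nonempty := Finset.card_pos.1 (by omega)
  simp only [hA3, hF, Finset.mem_filter] at hv
  obtain ⟨⟨hvS, hMvS⟩, hvC, hMvC⟩ := hv
  have hvs := hcs v hvS hvC hMvS hMvC
  have hcn : ∀ c ∈ C, c ∈ S → ∀ d ∈ C, d ∈ S → c ≠ d → (gr p).Adj v c := by
    intro c hcC hcS d hdC hdS hcd
    obtain ⟨a, ⟨haS, had⟩, y, ⟨hyS, hyd⟩, ha, hy, hay⟩ := crossing (hV.heavy.conn d hdS) {v}
      (a := v) (b := c) ⟨hvS, fun h => hvC (h ▸ hdC)⟩ rfl ⟨hcS, hcd⟩ (fun h => hvC (by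
        rw [← (h : c = v)]; exact hcC))
    obtain rfl : a = v := ha
    have hyC : y ∈ C := by
      by_contra h
      exact hvs y hyS h hay
    have : y = c := by
      rcases hmem y hyC hyS with h1 | h1 <;> rcases hmem c hcC hcS with h2 | h2 <;>
        rcases hmem d hdC hdS with h3 | h3 <;> subst h1 h2 <;> first | rfl | (exfalso; subst h3; tauto)
    rw [← this]; exact hay
  refine ⟨v, ⟨?_, ?_, ?_, hvS, hvC, hMvS, hMvC, ?_, ?_⟩⟩
  · have := hV.le
    have h6 : out M S = F.card := rfl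
    omega
  · intro c hcC hcS
    refine ⟨?_, ?_⟩
    · have : c ∈ A1 := by rw [e1]; exact Finset.mem_inter.2 ⟨hcC, hcS⟩
      simp only [hA1, hF, Finset.mem_filter] at this
      exact this.1.2
    · rcases hmem c hcC hcS with h | h
      · exact hcn c hcC hcS c2 hc2.1 hc2.2 (by rw [h]; exact hc12)
      · exact hcn c hcC hcS c1 hc1.1 hc1.2 (by rw [h]; exact hc12.symm)
  · intro c hcC hcS
    have : c ∈ A2.image M := by rw [e2]; exact Finset.mem_sdiff.2 ⟨hcC, hcS⟩
    obtain ⟨x, hx, rfl⟩ := Finset.mem_image.1 this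
    simp only [hA2, hF, Finset.mem_filter] at hx
    rw [hM.1.1]
    exact ⟨hx.1.1, hx.2.1⟩
  · intro x hx hxC hxv
    by_contra hno
    push Not at hno
    exact hxv (hsing x hx hxC (fun y hy hyC h => hno y hy hyC h) v hvS hvC hvs)
  · intro x hx hxC h4 h5
    exact hsing x hx hxC (hcs x hx hxC h4 h5) v hvS hvC hvs

end Pool.Agent.U881.HB
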