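import Pool.Agent.U881.HB.Hub

/-!
# Four hubs: the pair which blocks a perfect matching
-/

set_option autoImplicit false
set_option linter.unusedSectionVars false

namespace Pool.Agent.U881.HB

open Finset H76FC H76TW H76TX H76TY Pool.Agent.W315.LB Pool.Agent.TH583.HB

variable {V : Type} [Fintype V] [DecidableEq V]

theorem of_two {A : Finset V} (h : A.card = 2) {c d e : V} (hc : c ∈ A) (hd : d ∈ A) (he : e ∈ A)
    (hcd : c ≠ d) : e = c ∨ e = d := by
  by_contra hno
  rw [not_or] at hno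
  have h1 : ({e, c, d} : Finset V) ⊆ A := by
    intro x hx
    simp only [Finset.mem_insert, Finset.mem_singleton] at hx
    rcases hx with rfl | rfl | rfl <;> assumption
  have h2 := Finset.card_le_card h1
  rw [Finset.card_insert_of_notMem (by simp [hno.1, hno.2]), Finset.card_pair hcd] at h2
  omega

theorem cut_ge {p : V → V → ℕ} {S B : Finset V} (hB : Disjoint B S) :
    ∑ b ∈ B, ∑ a ∈ S, p a b ≤ H76FC.cut p S := by
  rw [cut_E, Finset.sum_comm]
  unfold E
  refine Finset.sum_le_sum fun a _ => Finset.sum_le_sum_of_subset ?_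
  intro b hb
  exact Finset.mem_compl.2 (Finset.disjoint_left.1 hB hb)

/-- one side of the count -/
theorem count_side {r : ℕ} {p : V → V → ℕ} {C S T : Finset V} {M : V → V} {v : V}
    (hs : ∀ u v, p u v = p v u) (hM : PMof p M) (hC4 : C.card = 4)
    (hCS : (C ∩ S).card = 2) (h : Shape r p C M S v) (hT : ∀ c ∈ C, c ∈ S → M c ∈ T ∧ M c ∉ C)
    {y z : V} (hyz : y ≠ z) (hy : y ∉ S ∧ y ∉ T ∧ y ∉ C) (hz : z ∉ S ∧ z ∉ T ∧ z ∉ C) :
    ∑ a ∈ S, p a y + ∑ a ∈ S, p a z + 4 ≤ H76FC.cut p S := by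
  have hinj : Function.Injective M := fun a b h => by
    have := congrArg M h
    rwa [hM.1.1, hM.1.1] at this
  have hsd : (C \ S).card = 2 := by
    have := Finset.card_sdiff_add_card_inter C S
    omega
  have d1 : Disjoint ({y, z} : Finset V) (C \ S) := by
    rw [Finset.disjoint_left]
    intro x hx hx'
    rw [Finset.mem_insert, Finset.mem_singleton] at hx
    rcases hx with rfl | rfl
    · exact hy.2.2 (Finset.mem_sdiff.1 hx').1
    · exact hz.2.2 (Finset.mem_sdiff.1 hx').1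
  have d2 : Disjoint (({y, z} : Finset V) ∪ (C \ S)) ((C ∩ S).image M) := by
    rw [Finset.disjoint_right]
    intro x hx hx'
    obtain ⟨c, hc, rfl⟩ := Finset.mem_image.1 hx
    obtain ⟨h1, h2⟩ := hT c (Finset.mem_inter.1 hc).1 (Finset.mem_inter.1 hc).2
    rw [Finset.mem_union, Finset.mem_insert, Finset.mem_singleton, Finset.mem_sdiff] at hx'
    rcases hx' with (h3 | h3) | h3
    · exact hy.2.1 (h3 ▸ h1)
    · exact hz.2.1 (h3 ▸ h1)
    · exact h2 h3.1
  have d3 : Disjoint ((({y, z} : Finset V) ∪ (C \ S)) ∪ ((C ∩ S).image M)) S := by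
    rw [Finset.disjoint_left]
    intro x hx hxS
    rw [Finset.mem_union, Finset.mem_union, Finset.mem_insert, Finset.mem_singleton,
      Finset.mem_sdiff, Finset.mem_image] at hx
    rcases hx with ((rfl | rfl) | h3) | ⟨c, hc, rfl⟩
    · exact hy.1 hxS
    · exact hz.1 hxS
    · exact h3.2 hxS
    · exact (h.hub c (Finset.mem_inter.1 hc).1 (Finset.mem_inter.1 hc).2).1 hxS
  have h1 := cut_ge (p := p) d3
  rw [Finset.sum_union d2, Finset.sum_union d1, Finset.sum_pair hyz] at h1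
  have h2 : 2 ≤ ∑ b ∈ C \ S, ∑ a ∈ S, p a b := by
    calc 2 = ∑ b ∈ C \ S, 1 := by rw [Finset.sum_const, hsd]; rfl
      _ ≤ _ := Finset.sum_le_sum fun b hb => by
        rw [Finset.mem_sdiff] at hb
        have h3 := (h.hub' b hb.1 hb.2).1
        have h4 := Finset.single_le_sum (f := fun a => p a b) (fun _ _ => Nat.zero_le _) h3
        have h5 := hM.2 b
        rw [hs] at h5
        exact h5.trans_le h4
  have h3 : 2 ≤ ∑ b ∈ (C ∩ S).image M, ∑ a ∈ S, p a b := by
    calc 2 = ∑ b ∈ (C ∩ S).image M, 1 := by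
          rw [Finset.sum_const, Finset.card_image_of_injective _ hinj, hCS]; rfl
      _ ≤ _ := Finset.sum_le_sum fun b hb => by
        obtain ⟨c, hc, rfl⟩ := Finset.mem_image.1 hb
        have h4 := Finset.single_le_sum (f := fun a => p a (M c)) (fun _ _ => Nat.zero_le _)
          (Finset.mem_inter.1 hc).2
        exact (hM.2 c).trans_le h4
  omega

/-- all edges at `y = M v` go to `C` or to `v` -/
theorem count_vertex {r : ℕ} {p : V → V → ℕ} (hR : RGraph r p) {C S T : Finset V}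
    (hC : Short (gr p) C) (hCST : C ⊆ S ∪ T) (hd : Disjoint S T) {v y : V} (hv : v ∈ S ∪ T)
    (hvC : v ∉ C) (hyC : y ∉ C) (hvy : (gr p).Adj v y) :
    ∑ a ∈ S, p a y + ∑ a ∈ T, p a y = r := by
  rw [← Finset.sum_union hd, ← hR.reg y]
  have e : ∑ w, p y w = ∑ w, p w y := Finset.sum_congr rfl fun w _ => hR.symm _ _
  rw [e]
  refine Finset.sum_subset (Finset.subset_univ _) fun w _ hw => ?_
  by_contra hne
  have hadj : (gr p).Adj w y := Y13.adj_gr p w y (by
    rintro rfl
    exact hne (hR.loopless _)) (Nat.pos_of_ne_zero hne)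
  have hwC : w ∉ C := fun h => hw (hCST h)
  exact hC w y v hwC hyC hvC (fun h => hw (h ▸ hv)) hadj hvy.symm

/-- the hubs of `S` are matched with the two ends of an edge -/
theorem pair_hubs {r : ℕ} {p : V → V → ℕ} {C S : Finset V} {M : V → V} {v : V} (hM : PMof p M)
    (hC : Short (gr p) C) (h : Shape r p C M S v) {c d : V} (hc : c ∈ C ∧ c ∉ S)
    (hall : ∀ e ∈ C, e ∉ S → e = c ∨ e = d) :
    (gr p).Adj (M c) (M d) := by
  have hgr : ∀ v, (gr p).Adj v (M v) := fun v => Y13.adj_gr p v (M v) (Ne.symm (hM.1.2 v)) (hM.2 v)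
  obtain ⟨h1, h2⟩ := h.hub' c hc.1 hc.2
  have hne : M c ≠ v := by
    intro h3
    apply h.MvC
    rw [← h3, hM.1.1]
    exact hc.1
  obtain ⟨y, hyS, hyC, hay⟩ := h.pair _ h1 h2 hne
  have hMy : M y ∈ C := by
    by_contra hno
    refine hC (M c) y (M y) h2 hyC hno ?_ hay (hgr y)
    intro h3
    have h4 := congrArg M h3
    rw [hM.1.1, hM.1.1] at h4
    exact hyC (h4 ▸ hc.1)
  have hMyS : M y ∉ S := by
    intro h3
    have := (h.hub _ hMy h3).1
    rw [hM.1.1] at this
    exact this hyS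
  rcases hall _ hMy hMyS with h3 | h3
  · exfalso
    have h4 := congrArg M h3
    rw [hM.1.1] at h4
    rw [← h4] at hay
    exact hay.ne rfl
  · have h4 := congrArg M h3
    rw [hM.1.1] at h4
    rw [← h4]
    exact hay

/-- the structure of a blocked perfect matching -/
theorem key {r : ℕ} {p : V → V → ℕ} {C : Finset V} {M : V → V} (hr : 1 ≤ r) (hR : RGraph r p)
    (hN : NoTight r p) (hC : Short (gr p) C) (hC4 : C.card = 4) (hM : PMof p M)
    (hno : ¬ RGraph (r - 1) (minus p M)) :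
    ∃ P Q : Finset V, Disjoint P Q ∧ P ∪ Q = C ∧ P.card = 2 ∧ Q.card = 2 ∧
      (∀ c ∈ C, M c ∉ C) ∧
      (∀ c ∈ P, ∀ d ∈ P, c ≠ d → (gr p).Adj (M c) (M d)) ∧
      (∀ c ∈ Q, ∀ d ∈ Q, c ≠ d → (gr p).Adj (M c) (M d)) ∧
      ∃ v, v ∉ C ∧ M v ∉ C ∧ (∀ c ∈ P, (gr p).Adj v c) ∧ ∀ c ∈ Q, (gr p).Adj (M v) c := by
  have hgr : ∀ v, (gr p).Adj v (M v) := fun v => Y13.adj_gr p v (M v) (Ne.symm (hM.1.2 v)) (hM.2 v)
  obtain ⟨S, T, hST, hS, hT⟩ := vio hr hR hN hM hno
  have hS5 : 5 ≤ S.card := hS.five.trans (Finset.card_filter_le _ _)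
  have hT5 : 5 ≤ T.card := hT.five.trans (Finset.card_filter_le _ _)
  have hS2 := two_hubs hC hS.heavy hS5
  have hT2 := two_hubs hC hT.heavy hT5
  have hdis : Disjoint (C ∩ S) (C ∩ T) := by
    rw [Finset.disjoint_left]
    intro x hx hx'
    exact Finset.disjoint_left.1 hST (Finset.mem_inter.1 hx).2 (Finset.mem_inter.1 hx').2
  have hsub : (C ∩ S) ∪ (C ∩ T) ⊆ C := by
    intro x hx
    rcases Finset.mem_union.1 hx with h | h
    · exact (Finset.mem_inter.1 h).1
    · exact (Finset.mem_inter.1 h).1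
  have hle := Finset.card_le_card hsub
  rw [Finset.card_union_of_disjoint hdis] at hle
  have hCS : (C ∩ S).card = 2 := by omega
  have hCT : (C ∩ T).card = 2 := by omega
  have hun : (C ∩ S) ∪ (C ∩ T) = C := Finset.eq_of_subset_of_card_le hsub (by
    rw [Finset.card_union_of_disjoint hdis]; omega)
  have hCST : C ⊆ S ∪ T := by
    intro x hx
    rw [← hun] at hx
    rcases Finset.mem_union.1 hx with h | h
    · exact Finset.mem_union_left _ (Finset.mem_inter.1 h).2
    · exact Finset.mem_union_right _ (Finset.mem_inter.1 h).2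
  obtain ⟨v, hv⟩ := shape hM hC hS hC4 hCS
  obtain ⟨w, hw⟩ := shape hM hC hT hC4 hCT
  have hnS : ∀ x, x ∈ T → x ∉ S := fun x hx hx' => Finset.disjoint_left.1 hST hx' hx
  have hnT : ∀ x, x ∈ S → x ∉ T := fun x hx hx' => Finset.disjoint_left.1 hST hx hx'
  -- the two single vertices are matched
  have hvw : M v = w := by
    by_contra hne
    have h1 : M v ∉ T := by
      intro h
      refine hne (hw.uniq (M v) h hv.MvC ?_ ?_)
      · rw [hM.1.1]; exact hnT v hv.vS
      · rw [hM.1.1]; exact hv.vC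
    have h2 : M w ∉ S := by
      intro h
      apply hne
      have := hv.uniq (M w) h hw.MvC (by rw [hM.1.1]; exact hnS w hw.vS)
        (by rw [hM.1.1]; exact hw.vC)
      rw [← this, hM.1.1]
    have h3 : M v ≠ M w := by
      intro h
      have := congrArg M h
      rw [hM.1.1, hM.1.1] at this
      exact hnT v hv.vS (this ▸ hw.vS)
    have c1 := count_side (T := T) hR.symm hM hC4 hCS hv
      (fun c hc hcS => hw.hub' c hc (hnT c hcS)) h3 ⟨hv.MvS, h1, hv.MvC⟩ ⟨h2, hw.MvS, hw.MvC⟩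
    have c2 := count_side (T := S) hR.symm hM hC4 hCT hw
      (fun c hc hcS => hv.hub' c hc (hnS c hcS)) h3 ⟨h1, hv.MvS, hv.MvC⟩ ⟨hw.MvS, h2, hw.MvC⟩
    have c3 := count_vertex hR hC hCST hST (Finset.mem_union_left _ hv.vS) hv.vC hv.MvC (hgr v)
    have c4 := count_vertex hR hC hCST hST (Finset.mem_union_right _ hw.vS) hw.vC hw.MvC (hgr w)
    have c5 := hv.cut_le
    have c6 := hw.cut_le
    omega
  refine ⟨C ∩ S, C ∩ T, hdis, hun, hCS, hCT, ?_, ?_, ?_, v, hv.vC, hv.MvC, ?_, ?_⟩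
  · intro c hc
    by_cases hcS : c ∈ S
    · exact (hw.hub' c hc (hnT c hcS)).2
    · exact (hv.hub' c hc hcS).2
  · intro c hc d hd hcd
    rw [Finset.mem_inter] at hc hd
    refine pair_hubs hM hC hw ⟨hc.1, hnT c hc.2⟩ ?_
    intro e he heT
    have heS : e ∈ S := (Finset.mem_union.1 (hCST he)).resolve_right heT
    exact of_two hCS (Finset.mem_inter.2 hc) (Finset.mem_inter.2 hd) (Finset.mem_inter.2 ⟨he, heS⟩)
      hcd
  · intro c hc d hd hcd
    rw [Finset.mem_inter] at hc hd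
    refine pair_hubs hM hC hv ⟨hc.1, hnS c hc.2⟩ ?_
    intro e he heT
    have heS : e ∈ T := (Finset.mem_union.1 (hCST he)).resolve_left heT
    exact of_two hCT (Finset.mem_inter.2 hc) (Finset.mem_inter.2 hd) (Finset.mem_inter.2 ⟨he, heS⟩)
      hcd
  · intro c hc
    rw [Finset.mem_inter] at hc
    exact (hv.hub c hc.1 hc.2).2
  · intro c hc
    rw [Finset.mem_inter] at hc
    rw [hvw]
    exact (hw.hub c hc.1 hc.2).2

end Pool.Agent.U881.HB
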