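import Pool.Agent.U881.HB.Hub2

/-!
# Four hubs: three blocked perfect matchings give a Petersen subgraph
-/

set_option autoImplicit false
set_option linter.unusedSectionVars false

namespace Pool.Agent.U881.HB

open Finset H76FC H76TW H76TX H76TY Pool.Agent.W315.LB Pool.Agent.TH583.HB

/-! ### the Petersen graph -/

/-- numbers of the two-element subsets of `{0, 1, 2, 3, 4}` -/
def pidx (s : Finset (Fin 5)) : Fin 10 :=
  if s = {0, 1} then 0 else if s = {0, 2} then 1 else if s = {0, 3} then 2 else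
  if s = {0, 4} then 3 else if s = {3, 4} then 4 else if s = {1, 2} then 5 else
  if s = {2, 4} then 6 else if s = {1, 3} then 7 else if s = {2, 3} then 8 else 9

/-- the edges of the Petersen graph in these numbers -/
def ped : List (Fin 10 × Fin 10) :=
  [(4, 0), (4, 1), (5, 2), (5, 3), (6, 0), (6, 2), (7, 1), (7, 3), (8, 0), (8, 3), (9, 1), (9, 2),
    (4, 5), (6, 7), (8, 9)]

theorem pidx_inj : ∀ s ∈ (univ : Finset (Finset (Fin 5))).filter (fun s => s.card = 2),
    ∀ t ∈ (univ : Finset (Finset (Fin 5))).filter (fun s => s.card = 2),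
    s ≠ t → pidx s ≠ pidx t := by
  decide +kernel

theorem pidx_adj : ∀ s ∈ (univ : Finset (Finset (Fin 5))).filter (fun s => s.card = 2),
    ∀ t ∈ (univ : Finset (Finset (Fin 5))).filter (fun s => s.card = 2),
    Disjoint s t → (pidx s, pidx t) ∈ ped ∨ (pidx t, pidx s) ∈ ped := by
  decide +kernel

/-- `G` has a subgraph isomorphic to the Petersen graph (the vertices of which are the two-element
subsets of a set with five elements, disjoint sets being adjacent) -/
def PetSub {W : Type} (G : SimpleGraph W) : Prop :=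
  ∃ f : {s : Finset (Fin 5) // s.card = 2} → W, Function.Injective f ∧
    ∀ s t : {s : Finset (Fin 5) // s.card = 2}, Disjoint s.1 t.1 → G.Adj (f s) (f t)

theorem petMinor_of_sub {W : Type} {G : SimpleGraph W} (h : PetSub G) : PetMinor G := by
  obtain ⟨f, hf, hadj⟩ := h
  refine ⟨fun s => {f s}, ?_, ?_, ?_⟩
  · intro s t hst
    rw [Set.disjoint_singleton]
    exact fun h => hst (hf h)
  · intro s
    exact SimpleGraph.Connected.mk (by
      rintro ⟨a, ha⟩ ⟨b, hb⟩
      obtain rfl : a = _ := ha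
      obtain rfl : b = _ := hb
      exact SimpleGraph.Reachable.refl _)
  · intro s t hst
    exact ⟨_, rfl, _, rfl, hadj s t hst⟩

theorem pet_of {W : Type} {G : SimpleGraph W} {c1 c2 c3 c4 u u' v v' w w' : W}
    (hnd : [c1, c2, c3, c4, u, u', v, v', w, w'].Nodup)
    (h1 : G.Adj u c1) (h2 : G.Adj u c2) (h3 : G.Adj u' c3) (h4 : G.Adj u' c4)
    (h5 : G.Adj v c1) (h6 : G.Adj v c3) (h7 : G.Adj v' c2) (h8 : G.Adj v' c4)
    (h9 : G.Adj w c1) (h10 : G.Adj w c4) (h11 : G.Adj w' c2) (h12 : G.Adj w' c3)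
    (h13 : G.Adj u u') (h14 : G.Adj v v') (h15 : G.Adj w w') : PetSub G := by
  have hinj := List.nodup_iff_injective_get.1 hnd
  set l : List W := [c1, c2, c3, c4, u, u', v, v', w, w'] with hl
  have hE : ∀ e ∈ ped, G.Adj (l.get e.1) (l.get e.2) := by
    intro e he
    simp only [ped, List.mem_cons, List.not_mem_nil, or_false] at he
    rcases he with rfl | rfl | rfl | rfl | rfl | rfl | rfl | rfl | rfl | rfl | rfl | rfl | rfl |
      rfl | rfl <;> assumption
  have hm : ∀ s : {s : Finset (Fin 5) // s.card = 2},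
      s.1 ∈ (univ : Finset (Finset (Fin 5))).filter (fun s => s.card = 2) := fun s =>
    Finset.mem_filter.2 ⟨Finset.mem_univ _, s.2⟩
  refine ⟨fun s => l.get (pidx s.1), ?_, ?_⟩
  · intro s t h
    by_contra hst
    exact pidx_inj s.1 (hm s) t.1 (hm t) (fun e => hst (Subtype.ext e)) (hinj h)
  · intro s t hst
    rcases pidx_adj s.1 (hm s) t.1 (hm t) hst with h | h
    · exact hE _ h
    · exact (hE _ h).symm

/-! ### building a perfect matching -/

variable {V : Type} [DecidableEq V]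

/-- `N` is a perfect matching of the set `X` -/
def On (p : V → V → ℕ) (X : Finset V) (N : V → V) : Prop :=
  ∀ x ∈ X, N x ∈ X ∧ N (N x) = x ∧ 0 < p x (N x)

theorem on_insert {p : V → V → ℕ} (hs : ∀ u v, p u v = p v u) {X : Finset V} {N : V → V}
    (h : On p X N) {u w : V} (hu : u ∉ X) (hw : w ∉ X) (huw : u ≠ w) (hp : 0 < p u w) :
    ∃ N', On p (insert u (insert w X)) N' ∧ N' u = w ∧ N' w = u ∧ ∀ x ∈ X, N' x = N x := by
  refine ⟨fun x => if x = u then w else if x = w then u else N x, ?_, ?_, ?_, ?_⟩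
  · intro x hx
    rw [Finset.mem_insert, Finset.mem_insert] at hx
    rcases hx with rfl | rfl | hx
    · have hwx : w ≠ x := Ne.symm huw
      simp only [if_true, if_neg hwx]
      exact ⟨by simp, trivial, hp⟩
    · have hwx : x ≠ u := Ne.symm huw
      simp only [if_true, if_neg hwx]
      exact ⟨by simp, trivial, by rw [hs]; exact hp⟩
    · have e1 : x ≠ u := fun h => hu (h ▸ hx)
      have e2 : x ≠ w := fun h => hw (h ▸ hx)
      obtain ⟨h1, h2, h3⟩ := h x hx
      have e3 : N x ≠ u := fun h => hu (h ▸ h1)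
      have e4 : N x ≠ w := fun h => hw (h ▸ h1)
      simp only [if_neg e1, if_neg e2, if_neg e3, if_neg e4]
      exact ⟨by simp [h1], h2, h3⟩
  · simp
  · simp [Ne.symm huw]
  · intro x hx
    have e1 : x ≠ u := fun h => hu (h ▸ hx)
    have e2 : x ≠ w := fun h => hw (h ▸ hx)
    simp [e1, e2]

variable [Fintype V]

/-- `π` matches the vertices outside of the hubs -/
def Mate (p : V → V → ℕ) (C : Finset V) (π : V → V) : Prop :=
  ∀ z, z ∉ C → π z ∉ C ∧ (gr p).Adj z (π z) ∧ π (π z) = z ∧ ∀ w, w ∉ C → (gr p).Adj z w → w = π z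

theorem exists_mate {p : V → V → ℕ} {C : Finset V} (hC : Short (gr p) C)
    (h : ∀ z, z ∉ C → ∃ w, w ∉ C ∧ (gr p).Adj z w) : ∃ π, Mate p C π := by
  classical
  have h' : ∀ z, ∃ w, z ∉ C → w ∉ C ∧ (gr p).Adj z w := by
    intro z
    by_cases hz : z ∉ C
    · obtain ⟨w, hw⟩ := h z hz
      exact ⟨w, fun _ => hw⟩
    · exact ⟨z, fun h => absurd h hz⟩
  choose π hπ using h'
  have hu : ∀ z, z ∉ C → ∀ w, w ∉ C → (gr p).Adj z w → w = π z := by
    intro z hz w hw hzw
    by_contra hne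
    exact hC w z (π z) hw hz (hπ z hz).1 hne hzw.symm (hπ z hz).2
  refine ⟨π, fun z hz => ⟨(hπ z hz).1, (hπ z hz).2, ?_, hu z hz⟩⟩
  exact (hu (π z) (hπ z hz).1 z hz (hπ z hz).2.symm).symm

theorem third {r : ℕ} {p : V → V → ℕ} {C : Finset V} (hr : 1 ≤ r) (hR : RGraph r p)
    (hN : NoTight r p) (hC : Short (gr p) C) (hC4 : C.card = 4)
    (hno : ∀ M, PMof p M → ¬ RGraph (r - 1) (minus p M)) {π : V → V} (hπ : Mate p C π)
    {a b d1 d2 d3 d4 : V} (hCe : C = {d1, d2, d3, d4}) (ha : a ∉ C) (hb : b ∉ C) (hba : b ≠ a)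
    (hba' : b ≠ π a) (h1 : (gr p).Adj a d1) (h2 : (gr p).Adj (π a) d2) (h3 : (gr p).Adj b d3)
    (h4 : (gr p).Adj (π b) d4) :
    ∃ v, v ∉ C ∧ v ≠ a ∧ v ≠ π a ∧ v ≠ b ∧ v ≠ π b ∧ (gr p).Adj v d1 ∧ (gr p).Adj v d2 ∧
      (gr p).Adj (π v) d3 ∧ (gr p).Adj (π v) d4 := by
  classical
  have hs := hR.symm
  -- distinct hubs
  have hdis : d1 ≠ d2 ∧ d1 ≠ d3 ∧ d1 ≠ d4 ∧ d2 ≠ d3 ∧ d2 ≠ d4 ∧ d3 ≠ d4 := by
    have hle : ∀ x y z : V, ({x, y, z} : Finset V).card ≤ 3 := fun x y z => Finset.card_le_three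
    refine ⟨?_, ?_, ?_, ?_, ?_, ?_⟩ <;> rintro rfl <;> rw [hCe] at hC4
    · have := hle d1 d3 d4
      rw [Finset.insert_eq_of_mem (by simp : d1 ∈ ({d1, d3, d4} : Finset V))] at hC4; omega
    · have := hle d2 d1 d4
      rw [Finset.insert_eq_of_mem (by simp : d1 ∈ ({d2, d1, d4} : Finset V))] at hC4; omega
    · have := hle d2 d3 d1
      rw [Finset.insert_eq_of_mem (by simp : d1 ∈ ({d2, d3, d1} : Finset V))] at hC4; omega
    · have := hle d1 d2 d4
      rw [Finset.insert_eq_of_mem (by simp : d2 ∈ ({d2, d4} : Finset V))] at hC4; omega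
    · have := hle d1 d3 d2
      rw [Finset.insert_eq_of_mem (by simp : d2 ∈ ({d3, d2} : Finset V))] at hC4; omega
    · have := hle d1 d2 d3
      rw [Finset.insert_eq_of_mem (by simp : d3 ∈ ({d3} : Finset V))] at hC4; omega
  obtain ⟨e12, e13, e14, e23, e24, e34⟩ := hdis
  have m1 : d1 ∈ C := by rw [hCe]; simp
  have m2 : d2 ∈ C := by rw [hCe]; simp
  have m3 : d3 ∈ C := by rw [hCe]; simp
  have m4 : d4 ∈ C := by rw [hCe]; simp
  obtain ⟨a1, a2, a3, a4⟩ := hπ a ha
  obtain ⟨b1, b2, b3, b4⟩ := hπ b hb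
  have nab : π b ≠ a := by
    intro h
    apply hba'
    rw [← h, b3]
  have nab' : π b ≠ π a := by
    intro h
    apply hba
    rw [← b3, h, a3]
  have nC : ∀ x c, x ∉ C → c ∈ C → x ≠ c := fun x c hx hc h => hx (h ▸ hc)
  set X0 : Finset V := univ.filter (fun x => x ∉ C ∧ x ≠ a ∧ x ≠ π a ∧ x ≠ b ∧ x ≠ π b) with hX0
  have mX0 : ∀ x, x ∈ X0 ↔ x ∉ C ∧ x ≠ a ∧ x ≠ π a ∧ x ≠ b ∧ x ≠ π b := fun x => by
    rw [hX0, Finset.mem_filter]; simp
  have hX0 : On p X0 π := by
    intro x hx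
    obtain ⟨x1, x2, x3, x4, x5⟩ := (mX0 x).1 hx
    obtain ⟨y1, y2, y3, y4⟩ := hπ x x1
    refine ⟨(mX0 _).2 ⟨y1, ?_, ?_, ?_, ?_⟩, y3, adj_pos hs y2⟩
    · intro h; apply x3; rw [← h, y3]
    · intro h; apply x2; rw [← y3, h, a3]
    · intro h; apply x5; rw [← h, y3]
    · intro h; apply x4; rw [← y3, h, b3]
  obtain ⟨N1, g1, g1a, g1b, g1c⟩ := on_insert hs hX0 (u := a) (w := d1) (by rw [mX0]; tauto)
    (by rw [mX0]; tauto) (nC a d1 ha m1) (adj_pos hs h1)
  obtain ⟨N2, g2, g2a, g2b, g2c⟩ := on_insert hs g1 (u := π a) (w := d2)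
    (by
      rw [Finset.mem_insert, Finset.mem_insert, mX0]
      have := a2.ne'
      have := nC (π a) d1 a1 m1
      tauto)
    (by
      rw [Finset.mem_insert, Finset.mem_insert, mX0]
      have := nC a d2 ha m2
      have := e12.symm
      tauto) (nC (π a) d2 a1 m2) (adj_pos hs h2)
  obtain ⟨N3, g3, g3a, g3b, g3c⟩ := on_insert hs g2 (u := b) (w := d3)
    (by
      rw [Finset.mem_insert, Finset.mem_insert, Finset.mem_insert, Finset.mem_insert, mX0]
      have := nC b d1 hb m1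
      have := nC b d2 hb m2
      tauto)
    (by
      rw [Finset.mem_insert, Finset.mem_insert, Finset.mem_insert, Finset.mem_insert, mX0]
      have := nC a d3 ha m3
      have := nC (π a) d3 a1 m3
      have := e13.symm
      have := e23.symm
      tauto) (nC b d3 hb m3) (adj_pos hs h3)
  obtain ⟨N4, g4, g4a, g4b, g4c⟩ := on_insert hs g3 (u := π b) (w := d4)
    (by
      rw [Finset.mem_insert, Finset.mem_insert, Finset.mem_insert, Finset.mem_insert,
        Finset.mem_insert, Finset.mem_insert, mX0]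
      have := nC (π b) d1 b1 m1
      have := nC (π b) d2 b1 m2
      have := nC (π b) d3 b1 m3
      have := b2.ne'
      tauto)
    (by
      rw [Finset.mem_insert, Finset.mem_insert, Finset.mem_insert, Finset.mem_insert,
        Finset.mem_insert, Finset.mem_insert, mX0]
      have := nC a d4 ha m4
      have := nC (π a) d4 a1 m4
      have := nC b d4 hb m4
      have := e14.symm
      have := e24.symm
      have := e34.symm
      tauto) (nC (π b) d4 b1 m4) (adj_pos hs h4)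
  have hall : ∀ x, x ∈ insert (π b) (insert d4 (insert b (insert d3 (insert (π a) (insert d2
      (insert a (insert d1 X0))))))) := by
    intro x
    simp only [Finset.mem_insert, mX0]
    by_cases hx : x ∈ C
    · rw [hCe] at hx
      simp only [Finset.mem_insert, Finset.mem_singleton] at hx
      tauto
    · tauto
  have hM : PMof p N4 := by
    refine ⟨⟨fun x => (g4 x (hall x)).2.1, fun x hx => ?_⟩, fun x => (g4 x (hall x)).2.2⟩
    have := (g4 x (hall x)).2.2
    rw [hx, hR.loopless] at this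
    exact lt_irrefl 0 this
  -- the values
  have v4 : N4 d4 = π b := g4b
  have v4' : N4 (π b) = d4 := g4a
  have v3 : N4 d3 = b := by rw [g4c d3 (by simp)]; exact g3b
  have v3' : N4 b = d3 := by rw [g4c b (by simp)]; exact g3a
  have v2 : N4 d2 = π a := by rw [g4c d2 (by simp), g3c d2 (by simp)]; exact g2b
  have v2' : N4 (π a) = d2 := by rw [g4c (π a) (by simp), g3c (π a) (by simp)]; exact g2a
  have v1 : N4 d1 = a := by rw [g4c d1 (by simp), g3c d1 (by simp), g2c d1 (by simp)]; exact g1b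
  have v1' : N4 a = d1 := by rw [g4c a (by simp), g3c a (by simp), g2c a (by simp)]; exact g1a
  have v0 : ∀ x ∈ X0, N4 x = π x := by
    intro x hx
    rw [g4c x (by simp [hx]), g3c x (by simp [hx]), g2c x (by simp [hx]), g1c x hx]
  obtain ⟨P, Q, hPQ, hPQC, hP2, hQ2, _, hPp, hQp, v, hvC, hMv, hvP, hvQ⟩ :=
    key hr hR hN hC hC4 hM (hno N4 hM)
  -- one of the parts is `{d1, d2}`
  have hpart : ∀ P Q : Finset V, Disjoint P Q → P ∪ Q = C → P.card = 2 →
      (∀ c ∈ P, ∀ d ∈ P, c ≠ d → (gr p).Adj (N4 c) (N4 d)) → d1 ∈ P →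
      d2 ∈ P ∧ d3 ∈ Q ∧ d4 ∈ Q := by
    intro P Q hPQ hPQC hP2 hPp hd1
    have h2 : d2 ∈ P := by
      obtain ⟨c, hc, hcd⟩ := Finset.exists_mem_ne (by omega : 1 < P.card) d1
      have hcC : c ∈ C := by rw [← hPQC]; exact Finset.mem_union_left _ hc
      rw [hCe] at hcC
      simp only [Finset.mem_insert, Finset.mem_singleton] at hcC
      have h5 := hPp d1 hd1 c hc hcd.symm
      rw [v1] at h5
      rcases hcC with rfl | rfl | rfl | rfl
      · exact absurd rfl hcd
      · exact hc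
      · rw [v3] at h5
        exact absurd (a4 b hb h5) hba'
      · rw [v4] at h5
        exact absurd (a4 _ b1 h5) nab'
    have hin : ∀ d ∈ C, d ≠ d1 → d ≠ d2 → d ∈ Q := by
      intro d hd n1 n2
      rw [← hPQC, Finset.mem_union] at hd
      refine hd.resolve_left fun hdP => ?_
      rcases of_two hP2 hd1 h2 hdP e12 with h | h
      · exact n1 h
      · exact n2 h
    exact ⟨h2, hin d3 m3 e13.symm e23.symm, hin d4 m4 e14.symm e24.symm⟩
  have hvX : ∀ v, v ∉ C → N4 v ∉ C → v ∈ X0 := by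
    intro v hvC hMv
    rw [mX0]
    refine ⟨hvC, ?_, ?_, ?_, ?_⟩ <;> rintro rfl
    · exact hMv (by rw [v1']; exact m1)
    · exact hMv (by rw [v2']; exact m2)
    · exact hMv (by rw [v3']; exact m3)
    · exact hMv (by rw [v4']; exact m4)
  have hd1 : d1 ∈ P ∪ Q := by rw [hPQC]; exact m1
  rcases Finset.mem_union.1 hd1 with h | h
  · obtain ⟨q2, q3, q4⟩ := hpart P Q hPQ hPQC hP2 hPp h
    have hvX0 := hvX v hvC hMv
    obtain ⟨x1, x2, x3, x4, x5⟩ := (mX0 v).1 hvX0
    rw [v0 v hvX0] at hvQ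
    exact ⟨v, x1, x2, x3, x4, x5, hvP d1 h, hvP d2 q2, hvQ d3 q3, hvQ d4 q4⟩
  · obtain ⟨q2, q3, q4⟩ := hpart Q P hPQ.symm (by rw [Finset.union_comm]; exact hPQC) hQ2 hQp h
    have hMvv : N4 (N4 v) = v := hM.1.1 v
    have hvX0 := hvX (N4 v) hMv (by rw [hMvv]; exact hvC)
    obtain ⟨x1, x2, x3, x4, x5⟩ := (mX0 (N4 v)).1 hvX0
    refine ⟨N4 v, x1, x2, x3, x4, x5, hvQ d1 h, hvQ d2 q2, ?_, ?_⟩
    · rw [← v0 _ hvX0, hMvv]; exact hvP d3 q3
    · rw [← v0 _ hvX0, hMvv]; exact hvP d4 q4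

end Pool.Agent.U881.HB
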