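import Pool.Agent.U881.HB.Hub3

/-!
# Four hubs: removing a perfect matching, or the Petersen graph
-/

set_option autoImplicit false
set_option linter.unusedSectionVars false

namespace Pool.Agent.U881.HB

open Finset H76FC H76TW H76TX H76TY Pool.Agent.W315.LB Pool.Agent.TH583.HB

variable {V : Type} [Fintype V] [DecidableEq V]

theorem mate_ne {p : V → V → ℕ} {C : Finset V} {π : V → V} (hπ : Mate p C π) {a b : V}
    (ha : a ∉ C) (hb : b ∉ C) (h1 : b ≠ a) (h2 : b ≠ π a) :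
    π b ∉ C ∧ π b ≠ a ∧ π b ≠ π a ∧ π b ≠ b := by
  obtain ⟨a1, a2, a3, a4⟩ := hπ a ha
  obtain ⟨b1, b2, b3, b4⟩ := hπ b hb
  refine ⟨b1, fun h => h2 ?_, fun h => h1 ?_, b2.ne'⟩
  · rw [← h, b3]
  · rw [← b3, h, a3]

/-- Let `p` be an `r`-graph without nontrivial tight cuts on a 3-connected graph with four vertices
that meet all paths with three vertices.  Then removing some perfect matching leaves an
`(r - 1)`-graph, or `p` contains the Petersen graph. -/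
theorem hub_step {r : ℕ} {p : V → V → ℕ} {C : Finset V} (hr : 1 ≤ r) (hR : RGraph r p)
    (hN : NoTight r p) (h3 : Conn3 (gr p)) (hn : 7 ≤ Fintype.card V) (hC : Short (gr p) C)
    (hC4 : C.card = 4) :
    (∃ M, PMof p M ∧ RGraph (r - 1) (minus p M)) ∨ PetSub (gr p) := by
  classical
  by_contra hcon
  rw [not_or] at hcon
  obtain ⟨hno', hP⟩ := hcon
  have hno : ∀ M, PMof p M → ¬ RGraph (r - 1) (minus p M) := fun M h1 h2 => hno' ⟨M, h1, h2⟩
  obtain ⟨M, hM, _⟩ := exists_avg hR hr ∅ (fun _ => 0) (by simp)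
  have hgr : ∀ v, (gr p).Adj v (M v) := fun v => Y13.adj_gr p v (M v) (Ne.symm (hM.1.2 v)) (hM.2 v)
  obtain ⟨P, Q, hPQ, hPQC, hP2, hQ2, hMC, hPp, hQp, u, huC, hMu, huP, huQ⟩ :=
    key hr hR hN hC hC4 hM (hno M hM)
  obtain ⟨π, hπ⟩ : ∃ π, Mate p C π := by
    refine exists_mate hC fun z hz => ?_
    by_cases h : M z ∈ C
    · have h1 : M (M z) = z := hM.1.1 z
      rw [← hPQC, Finset.mem_union] at h
      rcases h with h | h
      · obtain ⟨d, hd, hdc⟩ := Finset.exists_mem_ne (by omega : 1 < P.card) (M z)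
        have h2 := hPp _ h d hd hdc.symm
        rw [h1] at h2
        exact ⟨M d, hMC d (by rw [← hPQC]; exact Finset.mem_union_left _ hd), h2⟩
      · obtain ⟨d, hd, hdc⟩ := Finset.exists_mem_ne (by omega : 1 < Q.card) (M z)
        have h2 := hQp _ h d hd hdc.symm
        rw [h1] at h2
        exact ⟨M d, hMC d (by rw [← hPQC]; exact Finset.mem_union_right _ hd), h2⟩
    · exact ⟨M z, h, hgr z⟩
  have hMπ : M u = π u := (hπ u huC).2.2.2 (M u) hMu (hgr u)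
  rw [hMπ] at huQ
  have hPC : P ⊆ C := by rw [← hPQC]; exact Finset.subset_union_left
  have hQC : Q ⊆ C := by rw [← hPQC]; exact Finset.subset_union_right
  have hmem : ∀ c ∈ C, c ∈ P ∨ c ∈ Q := fun c hc => by
    rw [← hPQC] at hc
    exact Finset.mem_union.1 hc
  have huu : π u ∉ C ∧ (gr p).Adj u (π u) ∧ π (π u) = u := ⟨(hπ u huC).1, (hπ u huC).2.1, (hπ u huC).2.2.1⟩
  -- another pair
  have hsep : ∀ b, b ∉ C → b ≠ u → b ≠ π u → ∀ R : Finset V, R.card = 2 → R ⊆ C →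
      (∀ c ∈ C, c ∉ R → ¬ (gr p).Adj b c ∧ ¬ (gr p).Adj (π b) c) → False := by
    intro b hb hbu hbu' R hR2 hRC hn
    obtain ⟨b1, b2, b3, b4⟩ := hπ b hb
    obtain ⟨x1, x2, hx12, hRe⟩ := Finset.card_eq_two.1 hR2
    have hx1 : x1 ∈ R := by rw [hRe]; simp
    have hx2 : x2 ∈ R := by rw [hRe]; simp
    have nR : ∀ x, x ∉ C → x ≠ x1 ∧ x ≠ x2 := fun x hx =>
      ⟨fun h => hx (h ▸ hRC hx1), fun h => hx (h ▸ hRC hx2)⟩
    obtain ⟨x, _, y, hy, hx, hyb, hxy⟩ := crossing (h3 x1 x2 hx12) {b, π b} (a := b) (b := u)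
      (nR b hb) (Set.mem_insert _ _) (nR u huC) (by
        rintro (h | h)
        · exact hbu h.symm
        · apply hbu'
          rw [(h : u = π b), b3])
    rw [Set.mem_insert_iff, Set.mem_singleton_iff, not_or] at hyb
    have hyR : y ∉ R := by
      rw [hRe, Finset.mem_insert, Finset.mem_singleton, not_or]
      exact hy
    by_cases hyC : y ∈ C
    · obtain ⟨h1, h2⟩ := hn y hyC hyR
      rcases hx with h | h
      · exact h1 ((h : x = b) ▸ hxy)
      · exact h2 ((h : x = π b) ▸ hxy)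
    · rcases hx with h | h
      · exact hyb.2 (b4 y hyC ((h : x = b) ▸ hxy))
      · have := (hπ (π b) b1).2.2.2 y hyC ((h : x = π b) ▸ hxy)
        exact hyb.1 (this.trans b3)
  have hnb : ∀ b, b ∉ C → ∃ c ∈ C, (gr p).Adj b c := by
    intro b hb
    obtain ⟨t, ht, hadj⟩ := three_nbrs h3 (by omega) b
    by_contra hno
    push Not at hno
    have h1 : ∀ i, t i = π b := fun i => (hπ b hb).2.2.2 (t i) (fun h => hno _ h (hadj i)) (hadj i)
    have := ht ((h1 0).trans (h1 1).symm)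
    exact absurd this (by decide)
  obtain ⟨b, hbC, hbu, hbu', c2, hc2, c4, hc4, hb2, hb4⟩ : ∃ b, b ∉ C ∧ b ≠ u ∧ b ≠ π u ∧
      ∃ c ∈ P, ∃ c' ∈ Q, (gr p).Adj b c ∧ (gr p).Adj (π b) c' := by
    obtain ⟨b, hb⟩ : ∃ b, b ∉ insert u (insert (π u) C) := by
      by_contra hall
      push Not at hall
      have h1 : (univ : Finset V) ⊆ insert u (insert (π u) C) := fun x _ => hall x
      have h2 := Finset.card_le_card h1
      have h3 := Finset.card_insert_le u (insert (π u) C)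
      have h4 := Finset.card_insert_le (π u) C
      rw [Finset.card_univ] at h2
      omega
    rw [Finset.mem_insert, Finset.mem_insert, not_or, not_or] at hb
    obtain ⟨hbu, hbu', hbC⟩ := hb
    obtain ⟨n1, n2, n3, _⟩ := mate_ne hπ huC hbC hbu hbu'
    have hbb : π (π b) = b := (hπ b hbC).2.2.1
    by_contra hcl
    push Not at hcl
    by_cases hbP : ∃ c ∈ P, (gr p).Adj b c
    · obtain ⟨c, hc, hbc⟩ := hbP
      have hQ1 : ∀ c' ∈ Q, ¬ (gr p).Adj (π b) c' := fun c' hc' => hcl b hbC hbu hbu' c hc c' hc' hbc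
      obtain ⟨c', hc', hbc'⟩ := hnb (π b) n1
      have hc'P : c' ∈ P := (hmem c' hc').resolve_right fun h => hQ1 c' h hbc'
      have hQ2' : ∀ d ∈ Q, ¬ (gr p).Adj b d := by
        intro d hd h
        have := hcl (π b) n1 n2 n3 c' hc'P d hd hbc'
        rw [hbb] at this
        exact this h
      exact hsep b hbC hbu hbu' P hP2 hPC fun d hd hdP =>
        ⟨hQ2' d ((hmem d hd).resolve_left hdP), hQ1 d ((hmem d hd).resolve_left hdP)⟩
    · push Not at hbP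
      obtain ⟨c', hc', hbc'⟩ := hnb b hbC
      have hc'Q : c' ∈ Q := (hmem c' hc').resolve_left fun h => hbP c' h hbc'
      refine hsep b hbC hbu hbu' Q hQ2 hQC fun d hd hdQ => ?_
      have hdP := (hmem d hd).resolve_right hdQ
      refine ⟨hbP d hdP, fun h => ?_⟩
      have := hcl (π b) n1 n2 n3 d hdP c' hc'Q h
      rw [hbb] at this
      exact this hbc'
  obtain ⟨c1, hc1, hc12⟩ := Finset.exists_mem_ne (by omega : 1 < P.card) c2
  obtain ⟨c3, hc3, hc34⟩ := Finset.exists_mem_ne (by omega : 1 < Q.card) c4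
  have hall : ∀ x, x ∈ C ↔ x = c1 ∨ x = c2 ∨ x = c3 ∨ x = c4 := by
    intro x
    constructor
    · intro hx
      rcases hmem x hx with h | h
      · rcases of_two hP2 hc1 hc2 h hc12 with h | h <;> tauto
      · rcases of_two hQ2 hc3 hc4 h hc34 with h | h <;> tauto
    · rintro (rfl | rfl | rfl | rfl)
      · exact hPC hc1
      · exact hPC hc2
      · exact hQC hc3
      · exact hQC hc4
  obtain ⟨v, hvC, hvu, hvu', _, _, hv1, hv3, hv2, hv4⟩ := third (d1 := c1) (d2 := c3) (d3 := c2)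
    (d4 := c4) hr hR hN hC hC4 hno hπ (by
      ext x
      rw [hall]
      simp only [Finset.mem_insert, Finset.mem_singleton]
      tauto) huC hbC hbu hbu' (huP c1 hc1) (huQ c3 hc3) hb2 hb4
  obtain ⟨w, hwC, hwu, hwu', hwv, hwv', hw1, hw4, hw3, hw2⟩ := third (d1 := c1) (d2 := c4)
    (d3 := c3) (d4 := c2) hr hR hN hC hC4 hno hπ (by
      ext x
      rw [hall]
      simp only [Finset.mem_insert, Finset.mem_singleton]
      tauto) huC hvC hvu hvu' (huP c1 hc1) (huQ c4 hc4) hv3 hv2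
  apply hP
  obtain ⟨v1, v2, v3, v4⟩ := mate_ne hπ huC hvC hvu hvu'
  obtain ⟨w1, w2, w3, w4⟩ := mate_ne hπ huC hwC hwu hwu'
  obtain ⟨_, w5, w6, _⟩ := mate_ne hπ hvC hwC hwv hwv'
  have hPQn : ∀ x ∈ P, ∀ y ∈ Q, x ≠ y := fun x hx y hy h => Finset.disjoint_left.1 hPQ hx (h ▸ hy)
  have nC : ∀ c ∈ C, ∀ x, x ∉ C → c ≠ x := fun c hc x hx h => hx (h ▸ hc)
  have m1 := hPC hc1
  have m2 := hPC hc2
  have m3 := hQC hc3
  have m4 := hQC hc4
  refine pet_of (c1 := c1) (c2 := c2) (c3 := c3) (c4 := c4) (u := u) (u' := π u) (v := v)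
    (v' := π v) (w := w) (w' := π w) ?_ (huP c1 hc1) (huP c2 hc2) (huQ c3 hc3) (huQ c4 hc4) hv1 hv3
    hv2 hv4 hw1 hw4 hw2 hw3 huu.2.1 (hπ v hvC).2.1 (hπ w hwC).2.1
  simp only [List.nodup_cons, List.mem_cons, List.not_mem_nil, or_false, not_or, List.nodup_nil,
    not_false_eq_true, and_true]
  exact ⟨⟨hc12, hPQn _ hc1 _ hc3, hPQn _ hc1 _ hc4, nC _ m1 _ huC, nC _ m1 _ huu.1, nC _ m1 _ hvC,
      nC _ m1 _ v1, nC _ m1 _ hwC, nC _ m1 _ w1⟩,
    ⟨hPQn _ hc2 _ hc3, hPQn _ hc2 _ hc4, nC _ m2 _ huC, nC _ m2 _ huu.1, nC _ m2 _ hvC,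
      nC _ m2 _ v1, nC _ m2 _ hwC, nC _ m2 _ w1⟩,
    ⟨hc34, nC _ m3 _ huC, nC _ m3 _ huu.1, nC _ m3 _ hvC, nC _ m3 _ v1, nC _ m3 _ hwC, nC _ m3 _ w1⟩,
    ⟨nC _ m4 _ huC, nC _ m4 _ huu.1, nC _ m4 _ hvC, nC _ m4 _ v1, nC _ m4 _ hwC, nC _ m4 _ w1⟩,
    ⟨huu.2.1.ne, hvu.symm, v2.symm, hwu.symm, w2.symm⟩,
    ⟨hvu'.symm, v3.symm, hwu'.symm, w3.symm⟩,
    ⟨v4.symm, hwv.symm, w5.symm⟩, ⟨hwv'.symm, w6.symm⟩, w4.symm⟩

end Pool.Agent.U881.HB
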