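import Pool.Agent.U881.HB.Hub4

/-!
# Lovász's Hilbert basis conjecture for graphs with four hubs: assembly
-/

set_option autoImplicit false
set_option linter.unusedSectionVars false

namespace Pool.Agent.U881.HB

open Finset H76FC H76TW H76TX H76TY Pool.Agent.W315.LB Pool.Agent.TH583.HB
open Pool.Agent.TH100.LV (EvenPerms TwoColour TwoMeeting cover_of)

/-- at most four vertices that meet all paths with three vertices -/
def FourHubs (V : Type) (G : SimpleGraph V) : Prop :=
  ∃ C : Finset V, C.card ≤ 4 ∧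
    ∀ x y z : V, x ∉ C → y ∉ C → z ∉ C → x ≠ z → G.Adj x y → ¬ G.Adj y z

theorem fourHubs_minor {W : Type} [Fintype W] [DecidableEq W] {H : SimpleGraph W} {V : Type}
    [Finite V] {G : SimpleGraph V} (hG : FourHubs V G) (hm : Minor H G) : FourHubs W H := by
  classical
  obtain ⟨C, hC, hpath⟩ := hG
  obtain ⟨f, f1, f3, f4⟩ := minor_fin hm
  refine ⟨univ.filter (fun w => (f w ∩ C).Nonempty), (branch_card f f1 C).trans hC, ?_⟩
  intro x y z hx hy hz hxz hxy hyz
  have hnot : ∀ w, w ∉ univ.filter (fun w => (f w ∩ C).Nonempty) → ∀ v ∈ f w, v ∉ C := by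
    intro w hw v hv hvC
    apply hw
    rw [Finset.mem_filter]
    exact ⟨Finset.mem_univ _, v, Finset.mem_inter.2 ⟨hv, hvC⟩⟩
  obtain ⟨a, ha, b, hb, hab⟩ := f4 x y hxy
  obtain ⟨b', hb', c, hc, hbc⟩ := f4 y z hyz
  have hne : ∀ w w' u u', w ≠ w' → u ∈ f w → u' ∈ f w' → u ≠ u' := by
    intro w w' u u' hw hu hu' h
    exact Finset.disjoint_left.1 (f1 w w' hw) hu (h ▸ hu')
  by_cases hbb : b = b'
  · subst hbb
    exact hpath a b c (hnot x hx a ha) (hnot y hy b hb) (hnot z hz c hc) (hne x z a c hxz ha hc)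
      hab hbc
  · obtain ⟨d, hd, e, he, hdb, _, hde⟩ := crossing (f3 y) {b} (a := b) (b := b') hb rfl hb'
      (fun h => hbb h.symm)
    obtain rfl : d = b := hdb
    exact hpath a d e (hnot x hx a ha) (hnot y hy d hb) (hnot y hy e he)
      (hne x y a e hxy.ne ha he) hab hde

/-- the pieces: four hubs, or the earlier pieces -/
def Piece4 (V : Type) (G : SimpleGraph V) : Prop := FourHubs V G ∨ Piece V G

theorem step_hubs {V : Type} [Fintype V] [DecidableEq V] {r : ℕ} {p : V → V → ℕ} (hr : 1 ≤ r)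
    (hR : RGraph r p) (hN : NoTight r p) (h3 : Conn3 (gr p)) (hn : 7 ≤ Fintype.card V)
    (hF : FourHubs V (gr p)) :
    (∃ M, PMof p M ∧ RGraph (r - 1) (minus p M)) ∨ PetSub (gr p) := by
  obtain ⟨C, hC, hpath⟩ := hF
  obtain ⟨D, hCD, _, hD⟩ := Finset.exists_subsuperset_card_eq (s := C) (t := univ) (n := 4)
    (Finset.subset_univ _) hC (by rw [Finset.card_univ]; omega)
  exact hub_step hr hR hN h3 hn (fun x y z hx hy hz hxz hxy hyz =>
    hpath x y z (fun h => hx (hCD h)) (fun h => hy (hCD h)) (fun h => hz (hCD h)) hxz hxy hyz) hD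

theorem cover_sum4 {V0 : Type} [Finite V0] (G0 : SimpleGraph V0) (hP : ¬ PetMinor G0)
    (hS : Sum3 Piece4 V0 G0) : ∀ (n : ℕ) (V : Type) [Fintype V] [DecidableEq V],
    Fintype.card V = n → ∀ (r : ℕ) (p : V → V → ℕ), RGraph r p → Minor (gr p) G0 →
    Cover 1 r p := by
  intro n
  induction n using Nat.strong_induction_on with
  | _ n ih =>
  intro V _ _ hV r p hp hm
  refine main Pool.Agent.W209.LB.conn3 Pool.Agent.W427.LB.bicrit transport H76TW.bip H76TW.span
    tight2 connSide (fun W _ H => Fintype.card W ≤ n ∧ Minor H G0)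
    (fun V _ _ r p hc hp => eight' V r p (by omega) hp) ?_ n V hV r p hp ?_
  · intro V' _ _ r' p' hr' hp' hnt hB hk
    obtain ⟨hcard, hm'⟩ := hk
    have hPet : ¬ PetMinor (gr p') := fun h => hP (pet_minor hm' h)
    by_cases h13 : Fintype.card V' ≤ 13
    · exact Or.inl (thirteen _ h13 V' rfl r' p' hp' hPet)
    rcases sum3_lift hS inferInstance V' (gr p') (conn3_of_brick hB) (by omega) hm' with
      hs | ⟨V'', hfin, G'', hG'' | hG'', hm''⟩
    · refine Or.inl (cover_sep3 hr' hp' (conn3_of_brick hB) ?_ hs)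
      intro W _ _ q hW hq hmq
      exact ih _ (by omega) W rfl r' q hq (minor_trans hmq hm')
    · have := hfin
      rcases step_hubs hr' hp' hnt (conn3_of_brick hB) (by omega) (fourHubs_minor hG'' hm'') with
        h | h
      · exact Or.inr h
      · exact absurd (petMinor_of_sub h) hPet
    · have := hfin
      rcases piece_kf hB (by omega) hPet hG'' hm'' with hs | (hk | hk) | hk
      · refine Or.inl (cover_sep3 hr' hp' (conn3_of_brick hB) ?_ hs)
        intro W _ _ q hW hq hmq
        exact ih _ (by omega) W rfl r' q hq (minor_trans hmq hm')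
      · exact Or.inl (cover_known hp' hk)
      · exact Or.inr (step hr' hp' hnt hk)
      · exact Or.inl (cover_of hp' hk)
  · intro W _ H _ hH
    have h1 := minor_of_odd hH
    exact ⟨(minor_card h1).trans hV.le, minor_trans h1 hm⟩

theorem decomp_sum4 (V E : Type) [Fintype V] [Fintype E] [DecidableEq E] (ends : E → Sym2 V)
    (hP : ¬ PetMinor (SimpleGraph.fromEdgeSet (Set.range ends)))
    (hS : Sum3 Piece4 V (SimpleGraph.fromEdgeSet (Set.range ends))) : Decomp ends := by
  refine decomp_of (fun V' G => Minor G (SimpleGraph.fromEdgeSet (Set.range ends))) ?_ ?_ V E ends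
    (minor_refl _)
  · intro V' G H h hG
    exact minor_trans (minor_sub id Function.injective_id h) hG
  · intro V' _ _ r p hp hm
    exact cover_sum4 _ hP hS _ V' rfl r p hp hm

end Pool.Agent.U881.HB
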