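import Pool.Agent.U881.HB.Hub5
import Pool.Agent.R145.Cir.Ham2

/-!
# Four disjoint paths between two disjoint circuits
-/

set_option autoImplicit false
set_option linter.unusedSectionVars false

namespace Pool.Agent.U881.HB

open Finset Pool.Agent.R145.Cir

variable {W : Type} {H : SimpleGraph W}

/-- Menger's theorem for two disjoint circuits of length at least five in a 3-connected graph without
separations of order three with at least two vertices on both sides -/
theorem four_br [Fintype W] [DecidableEq W] (h3 : Conn3 H) (hs : ¬ Sep3 H)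
    (hn : 6 ≤ Fintype.card W) {Z Z' : List W}
    (hZ : Ci H Z) (hZ' : Ci H Z') (h5 : 5 ≤ Z.length) (h5' : 5 ≤ Z'.length)
    (hd : ∀ x ∈ Z, x ∉ Z') :
    ∃ (a b : Fin 4 → W) (I : Fin 4 → List W), (∀ i, Br H Z Z' (a i) (b i) (I i)) ∧
      ∀ i j, i ≠ j → ∀ x ∈ [a i] ++ (I i ++ [b i]), x ∉ [a j] ++ (I j ++ [b j]) := by
  classical
  obtain ⟨P, hP, hPd⟩ := Pool.Agent.H135R2.Menger.menger_paths (HH H Z Z')
    (x := Sum.inr false) (y := Sum.inr true) (by simp) (fun h => h) 4 (by
      intro P S hx hy hxS hyS hst
      by_contra hcard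
      let T : Finset W := Finset.univ.filter (fun w => Sum.inl w ∈ S)
      have hT : T.card ≤ 3 := by
        have : T.card ≤ S.card := by
          refine Finset.card_le_card_of_injOn Sum.inl ?_ (Sum.inl_injective.injOn)
          intro w hw
          exact (Finset.mem_filter.mp hw).2
        omega
      have mT : ∀ w, w ∈ T ↔ Sum.inl w ∈ S := fun w => by simp [T]
      let A : Finset W := Finset.univ.filter (fun w => Sum.inl w ∈ P ∧ w ∉ T)
      let B : Finset W := Finset.univ.filter (fun w => Sum.inl w ∉ P ∧ w ∉ T)
      have mA : ∀ w, w ∈ A ↔ Sum.inl w ∈ P ∧ w ∉ T := fun w => by simp [A]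
      have mB : ∀ w, w ∈ B ↔ Sum.inl w ∉ P ∧ w ∉ T := fun w => by simp [B]
      have big : ∀ L : List W, L.Nodup → 5 ≤ L.length → ∀ C : Finset W,
          (∀ w ∈ L, w ∉ T → w ∈ C) → 2 ≤ C.card := by
        intro L hL hL5 C hC
        have h1 : L.toFinset ⊆ T ∪ C := by
          intro w hw
          by_cases hwT : w ∈ T
          · exact Finset.mem_union_left _ hwT
          · exact Finset.mem_union_right _ (hC w (List.mem_toFinset.mp hw) hwT)
        have h2 := Finset.card_le_card h1
        rw [List.toFinset_card_of_nodup hL] at h2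
        have h3 := Finset.card_union_le T C
        omega
      have hA : 2 ≤ A.card := big Z hZ.1.1 h5 A (by
        intro w hw hwT
        rw [mA]
        refine ⟨?_, hwT⟩
        by_contra hcon
        exact hwT ((mT w).mpr (hst _ _ hx hcon hw)))
      have hB : 2 ≤ B.card := big Z' hZ'.1.1 h5' B (by
        intro w hw hwT
        rw [mB]
        exact ⟨fun hcon => hyS (hst _ _ hcon hy hw), hwT⟩)
      have dAB : Disjoint A B := by
        rw [Finset.disjoint_left]
        intro w h1 h2
        exact ((mB w).1 h2).1 ((mA w).1 h1).1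
      have dAT : Disjoint A T := by
        rw [Finset.disjoint_left]
        intro w h1 h2
        exact ((mA w).1 h1).2 h2
      have dBT : Disjoint B T := by
        rw [Finset.disjoint_left]
        intro w h1 h2
        exact ((mB w).1 h1).2 h2
      have hU : A ∪ B ∪ T = Finset.univ := by
        ext w
        simp only [Finset.mem_union, mA, mB, Finset.mem_univ, iff_true]
        tauto
      have hno : ∀ u ∈ A, ∀ v ∈ B, ¬ H.Adj u v := by
        intro u hu v hv huv
        exact ((mB v).1 hv).2 ((mT v).mpr (hst _ _ ((mA u).1 hu).1 ((mB v).1 hv).1 huv))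
      rcases Nat.lt_or_ge T.card 3 with h | h
      · rcases no_sep2 h3 hn dAB dAT dBT hU (by omega) hno with h | h
        · rw [h] at hA
          simp at hA
        · rw [h] at hB
          simp at hB
      · exact hs ⟨A, B, T, dAB, dAT, dBT, hU, by omega, hA, hB, hno⟩)
  -- the lists
  have key : ∀ i, ∃ (a b : W) (I : List W), Br H Z Z' a b I ∧
      ∀ x ∈ [a] ++ (I ++ [b]), Sum.inl x ∈ (P i).support := by
    intro i
    have hnd := (hP i).support_nodup
    have hch := (P i).isChain_adj_support
    obtain ⟨L, hL⟩ : ∃ L, (P i).support = Sum.inr false :: L := by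
      cases h : P i with
      | cons h p => exact ⟨_, rfl⟩
    have hlast : (P i).support.getLast? = some (Sum.inr true) := by
      rw [List.getLast?_eq_getLast_of_ne_nil (SimpleGraph.Walk.support_ne_nil _),
        SimpleGraph.Walk.getLast_support]
    rw [hL] at hnd hch hlast
    have hLne : L ≠ [] := by
      rintro rfl
      simp at hlast
    obtain ⟨M, c, rfl⟩ : ∃ M c, L = M ++ [c] := by
      rcases List.eq_nil_or_concat L with h | ⟨M, c, h⟩
      · exact absurd h hLne
      · exact ⟨M, c, by rw [h, List.concat_eq_append]⟩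
    have hc : c = Sum.inr true := by
      have e : Sum.inr false :: (M ++ [c]) = (Sum.inr false :: M) ++ [c] := by simp
      rw [e, List.getLast?_append_of_ne_nil _ (by simp)] at hlast
      simpa using hlast
    subst hc
    obtain ⟨M0, rfl⟩ := unmap M (by
      intro x hx
      rcases x with w | b
      · exact ⟨w, rfl⟩
      · exfalso
        rw [List.nodup_cons, List.nodup_append] at hnd
        rcases b with _ | _
        · exact hnd.1 (List.mem_append_left _ hx)
        · exact hnd.2.2.2 _ hx _ (by simp) rfl)
    have hM0 : M0 ≠ [] := by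
      rintro rfl
      simp only [List.map_nil, List.nil_append, List.isChain_cons_cons] at hch
      exact hch.1
    obtain ⟨a, M1, rfl⟩ := List.exists_cons_of_ne_nil hM0
    have hsup : ∀ x ∈ a :: M1, Sum.inl x ∈ (P i).support := by
      intro x hx
      rw [hL]
      exact List.mem_cons_of_mem _ (List.mem_append_left _ (List.mem_map_of_mem hx))
    have haZ : a ∈ Z := by
      simp only [List.map_cons, List.cons_append, List.isChain_cons_cons] at hch
      exact hch.1
    have hpa : Pa H (a :: M1) := by
      rw [List.nodup_cons, List.nodup_append] at hnd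
      refine ⟨(List.nodup_map_iff Sum.inl_injective).mp hnd.2.1, ?_⟩
      have e : (Sum.inr false : W ⊕ Bool) :: (List.map Sum.inl (a :: M1) ++ [Sum.inr true]) =
        [Sum.inr false] ++ (List.map Sum.inl (a :: M1) ++ [Sum.inr true]) := rfl
      rw [e, List.isChain_append, List.isChain_append] at hch
      have h2 := hch.2.1.1
      rw [List.isChain_map] at h2
      exact h2
    obtain ⟨y, hy⟩ : ∃ y, (a :: M1).getLast? = some y := by
      rw [List.getLast?_cons]; exact ⟨_, rfl⟩
    have hyZ : y ∈ Z' := by
      have e : (Sum.inr false : W ⊕ Bool) :: (List.map Sum.inl (a :: M1) ++ [Sum.inr true]) =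
        [Sum.inr false] ++ (List.map Sum.inl (a :: M1) ++ [Sum.inr true]) := rfl
      rw [e, List.isChain_append, List.isChain_append] at hch
      exact hch.2.1.2.2 (Sum.inl y) (by rw [List.getLast?_map, hy]; rfl) (Sum.inr true) (by simp)
    have hM1 : M1 ≠ [] := by
      rintro rfl
      simp only [List.getLast?_singleton, Option.some.injEq] at hy
      exact hd a haZ (hy ▸ hyZ)
    obtain ⟨a', b', I', h1, h2⟩ := trim (G := H) (Z := Z) (Z' := Z') M1 a [] (by simpa using hpa)
      haZ (by simp) ⟨y, by
        have : a :: M1 = [a] ++ M1 := rfl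
        rw [this, List.getLast?_append_of_ne_nil _ hM1] at hy
        exact hy, hyZ⟩ hd
    exact ⟨a', b', I', h1, fun x hx => hsup x (by simpa using h2 x hx)⟩
  choose a b I h1 h2 using key
  refine ⟨a, b, I, h1, ?_⟩
  intro i j hij x hx hx'
  rcases hPd i j hij (Sum.inl x) (h2 i x hx) (h2 j x hx') with h3 | h3
  · exact absurd h3 (by simp)
  · exact absurd h3 (by simp)

end Pool.Agent.U881.HB
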