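import Pool.Agent.U881.HB.Link1

/-!
# Two disjoint pentagons and four disjoint edges between them
-/

set_option autoImplicit false
set_option linter.unusedSectionVars false

namespace Pool.Agent.U881.HB

open Finset Pool.Agent.R145.Cir Pool.Agent.TH583.HB

/-- two disjoint pentagons and the edges between the `k`-th vertex of the first and the `τ k`-th
vertex of the second for `k = 0, 1, 2, 3` -/
def pent (τ : Equiv.Perm (Fin 4)) : SimpleGraph (Fin 5 ⊕ Fin 5) where
  Adj x y := match x, y with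
    | Sum.inl i, Sum.inl j => j = i + 1 ∨ i = j + 1
    | Sum.inr i, Sum.inr j => j = i + 1 ∨ i = j + 1
    | Sum.inl i, Sum.inr j => ∃ k : Fin 4, i = k.castSucc ∧ j = (τ k).castSucc
    | Sum.inr j, Sum.inl i => ∃ k : Fin 4, i = k.castSucc ∧ j = (τ k).castSucc
  symm := ⟨by
    rintro (i | i) (j | j) h
    · exact Or.symm h
    · exact h
    · exact h
    · exact Or.symm h⟩
  loopless := ⟨by
    have key : ∀ i : Fin 5, ¬ (i = i + 1 ∨ i = i + 1) := by decide
    rintro (i | i) h
    · exact key i h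
    · exact key i h⟩

variable {W : Type} {H : SimpleGraph W}

theorem conn_insert {S : Set W} {x y : W} (h : (H.induce S).Connected) (hx : x ∈ S)
    (hxy : H.Adj x y) : (H.induce (insert y S)).Connected := by
  have h1 := SimpleGraph.induce_union_connected h.preconnected
    (SimpleGraph.induce_pair_connected_of_adj hxy).preconnected ⟨x, hx, by simp⟩
  have e : S ∪ {x, y} = insert y S := by
    ext z
    simp only [Set.mem_union, Set.mem_insert_iff, Set.mem_singleton_iff]
    constructor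
    · rintro (h | rfl | h)
      · exact Or.inr h
      · exact Or.inr hx
      · exact Or.inl h
    · rintro (h | h)
      · exact Or.inr (Or.inr h)
      · exact Or.inl h
  rwa [e] at h1

theorem conn_list : ∀ (l : List W) (S : Set W) (x : W), x ∈ S → (x :: l).IsChain H.Adj →
    (H.induce S).Connected → (H.induce (S ∪ {y | y ∈ l})).Connected := by
  intro l
  induction l with
  | nil =>
    intro S x _ _ h
    have e : S ∪ {y | y ∈ ([] : List W)} = S := by
      ext z
      simp
    rw [e]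
    exact h
  | cons y l ih =>
    intro S x hx hc h
    rw [List.isChain_cons_cons] at hc
    have h1 := ih (insert y S) y (Set.mem_insert _ _) hc.2 (conn_insert h hx hc.1)
    have e : insert y S ∪ {z | z ∈ l} = S ∪ {z | z ∈ y :: l} := by
      ext z
      simp only [Set.mem_union, Set.mem_insert_iff, Set.mem_setOf_eq, List.mem_cons]
      tauto
    rw [e] at h1
    exact h1

/-- a segment of a sequence -/
def arc (z : ℕ → W) (lo hi : ℕ) : Set W := {x | ∃ n, lo ≤ n ∧ n < hi ∧ x = z n}

theorem arc_conn {z : ℕ → W} {lo : ℕ} : ∀ hi, lo < hi →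
    (∀ n, lo ≤ n → n + 1 < hi → H.Adj (z n) (z (n + 1))) → (H.induce (arc z lo hi)).Connected := by
  intro hi
  induction hi with
  | zero => intro h; omega
  | succ hi ih =>
    intro h hadj
    rcases Nat.lt_or_ge lo hi with h1 | h1
    · have h2 := ih h1 (fun n h3 h4 => hadj n h3 (by omega))
      have h3 : H.Adj (z (hi - 1)) (z hi) := by
        have := hadj (hi - 1) (by omega) (by omega)
        rwa [show hi - 1 + 1 = hi by omega] at this
      have h4 := conn_insert h2 (⟨hi - 1, by omega, by omega, rfl⟩ : z (hi - 1) ∈ arc z lo hi) h3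
      have e : insert (z hi) (arc z lo hi) = arc z lo (hi + 1) := by
        ext x
        simp only [arc, Set.mem_insert_iff, Set.mem_setOf_eq]
        constructor
        · rintro (rfl | ⟨n, n1, n2, n3⟩)
          · exact ⟨hi, by omega, by omega, rfl⟩
          · exact ⟨n, n1, by omega, n3⟩
        · rintro ⟨n, n1, n2, n3⟩
          rcases Nat.lt_or_ge n hi with h5 | h5
          · exact Or.inr ⟨n, n1, h5, n3⟩
          · have : n = hi := by omega
            exact Or.inl (this ▸ n3)
      rwa [e] at h4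
    · have e : arc z lo (hi + 1) = {z hi} := by
        ext x
        simp only [arc, Set.mem_setOf_eq, Set.mem_singleton_iff]
        constructor
        · rintro ⟨n, n1, n2, n3⟩
          have : n = hi := by omega
          exact this ▸ n3
        · rintro rfl
          exact ⟨hi, by omega, by omega, rfl⟩
      rw [e]
      exact SimpleGraph.Connected.mk (by
        rintro ⟨a, ha⟩ ⟨b, hb⟩
        obtain rfl : a = _ := ha
        obtain rfl : b = _ := hb
        exact SimpleGraph.Reachable.refl _)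

/-- five arcs from four increasing positions -/
theorem arcs {z : ℕ → W} {l m0 m1 m2 m3 : ℕ} (h0 : m0 < m1) (h1 : m1 < m2) (h2 : m2 < m3)
    (h3 : m3 + 1 < l) (hinj : ∀ i < l, ∀ j < l, z i = z j → i = j)
    (hadj : ∀ n, n + 1 < l → H.Adj (z n) (z (n + 1))) (hlast : H.Adj (z (l - 1)) (z 0)) :
    ∃ A : Fin 5 → Set W, (∀ i j, i ≠ j → Disjoint (A i) (A j)) ∧
      (∀ i, (H.induce (A i)).Connected) ∧ (∀ i, ∀ x ∈ A i, ∃ n < l, x = z n) ∧
      (∀ i, ∃ x ∈ A i, ∃ y ∈ A (i + 1), H.Adj x y) ∧
      z m0 ∈ A 0 ∧ z m1 ∈ A 1 ∧ z m2 ∈ A 2 ∧ z m3 ∈ A 3 := by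
  have hle : ∀ i : Fin 5, (![0, m0 + 1, m1 + 1, m2 + 1, m3 + 1] : Fin 5 → ℕ) i <
      (![m0 + 1, m1 + 1, m2 + 1, m3 + 1, l] : Fin 5 → ℕ) i ∧
      (![m0 + 1, m1 + 1, m2 + 1, m3 + 1, l] : Fin 5 → ℕ) i ≤ l := by
    intro i
    fin_cases i <;> simp <;> omega
  have hdisj : ∀ i j : Fin 5, i < j → (![m0 + 1, m1 + 1, m2 + 1, m3 + 1, l] : Fin 5 → ℕ) i ≤
      (![0, m0 + 1, m1 + 1, m2 + 1, m3 + 1] : Fin 5 → ℕ) j := by
    intro i j hij
    fin_cases i <;> fin_cases j <;> simp at hij ⊢ <;> omega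
  refine ⟨fun i => arc z ((![0, m0 + 1, m1 + 1, m2 + 1, m3 + 1] : Fin 5 → ℕ) i)
    ((![m0 + 1, m1 + 1, m2 + 1, m3 + 1, l] : Fin 5 → ℕ) i), ?_, ?_, ?_, ?_, ?_, ?_, ?_, ?_⟩
  · have main : ∀ i j : Fin 5, i < j →
        Disjoint (arc z ((![0, m0 + 1, m1 + 1, m2 + 1, m3 + 1] : Fin 5 → ℕ) i)
          ((![m0 + 1, m1 + 1, m2 + 1, m3 + 1, l] : Fin 5 → ℕ) i))
        (arc z ((![0, m0 + 1, m1 + 1, m2 + 1, m3 + 1] : Fin 5 → ℕ) j)
          ((![m0 + 1, m1 + 1, m2 + 1, m3 + 1, l] : Fin 5 → ℕ) j)) := by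
      intro i j hij
      rw [Set.disjoint_left]
      rintro x ⟨n, n1, n2, rfl⟩ ⟨n', n1', n2', e⟩
      have h4 := hdisj i j hij
      have h5 := (hle i).2
      have h6 := (hle j).2
      have := hinj n (by omega) n' (by omega) e
      omega
    intro i j hij
    rcases lt_or_gt_of_ne hij with h | h
    · exact main i j h
    · exact (main j i h).symm
  · intro i
    refine arc_conn _ (hle i).1 fun n _ h4 => hadj n ?_
    have := (hle i).2
    omega
  · rintro i x ⟨n, _, n2, rfl⟩
    have := (hle i).2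
    exact ⟨n, by omega, rfl⟩
  · intro i
    fin_cases i
    · exact ⟨z m0, ⟨m0, Nat.zero_le _, Nat.lt_succ_self _, rfl⟩, z (m0 + 1),
        ⟨m0 + 1, le_refl _, Nat.succ_lt_succ h0, rfl⟩, hadj m0 (by omega)⟩
    · exact ⟨z m1, ⟨m1, h0, Nat.lt_succ_self _, rfl⟩, z (m1 + 1),
        ⟨m1 + 1, le_refl _, Nat.succ_lt_succ h1, rfl⟩, hadj m1 (by omega)⟩
    · exact ⟨z m2, ⟨m2, h1, Nat.lt_succ_self _, rfl⟩, z (m2 + 1),
        ⟨m2 + 1, le_refl _, Nat.succ_lt_succ h2, rfl⟩, hadj m2 (by omega)⟩
    · exact ⟨z m3, ⟨m3, h2, Nat.lt_succ_self _, rfl⟩, z (m3 + 1),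
        ⟨m3 + 1, le_refl _, h3, rfl⟩, hadj m3 h3⟩
    · refine ⟨z (l - 1), ⟨l - 1, ?_, ?_, rfl⟩, z 0, ⟨0, le_refl _, Nat.succ_pos _, rfl⟩, hlast⟩
      · show m3 + 1 ≤ l - 1
        omega
      · show l - 1 < l
        omega
  · exact ⟨m0, Nat.zero_le _, Nat.lt_succ_self _, rfl⟩
  · exact ⟨m1, h0, Nat.lt_succ_self _, rfl⟩
  · exact ⟨m2, h1, Nat.lt_succ_self _, rfl⟩
  · exact ⟨m3, h2, Nat.lt_succ_self _, rfl⟩

theorem cyc5 {Z : List W} (hZ : Ci H Z) (h5 : 5 ≤ Z.length) {a : Fin 4 → W} (ha : ∀ i, a i ∈ Z)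
    (hinj : Function.Injective a) :
    ∃ (A : Fin 5 → Set W) (s : Equiv.Perm (Fin 4)), (∀ i j, i ≠ j → Disjoint (A i) (A j)) ∧
      (∀ i, (H.induce (A i)).Connected) ∧ (∀ i, ∀ x ∈ A i, x ∈ Z) ∧
      (∀ i, ∃ x ∈ A i, ∃ y ∈ A (i + 1), H.Adj x y) ∧ ∀ i, a i ∈ A (s i).castSucc := by
  classical
  set l := Z.length with hl
  have hpos : 0 < l := by omega
  -- the circuit as a periodic function
  have hmod : ∀ n, n % l < Z.length := fun n => Nat.mod_lt _ hpos
  set c : ℕ → W := fun n => Z[n % l]'(hmod n) with hc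
  have cmem : ∀ n, c n ∈ Z := fun n => List.getElem_mem _
  have cinj : ∀ i j, c i = c j → i % l = j % l := by
    intro i j h
    exact (List.Nodup.getElem_inj_iff hZ.1.1).1 h
  have cadj : ∀ n, H.Adj (c n) (c (n + 1)) := by
    intro n
    rcases Nat.lt_or_ge (n % l + 1) l with h | h
    · have e : (n + 1) % l = n % l + 1 := by
        rw [Nat.add_mod, Nat.mod_eq_of_lt (show 1 < l by omega), Nat.mod_eq_of_lt h]
      have h1 := List.isChain_iff_getElem.mp hZ.1.2 (n % l) (by omega)
      simp only [hc, e]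
      exact h1
    · have h0 : n % l = l - 1 := by have := Nat.mod_lt n hpos; omega
      have e : (n + 1) % l = 0 := by
        rw [Nat.add_mod, Nat.mod_eq_of_lt (show 1 < l by omega), h0,
          show l - 1 + 1 = l by omega, Nat.mod_self]
      have h1 := hZ.2.2 (c n) (by
        simp only [hc, h0]
        rw [Option.mem_def, List.getLast?_eq_getElem?]
        exact List.getElem?_eq_getElem _) (c (n + 1)) (by
        simp only [hc, e]
        rw [Option.mem_def, List.head?_eq_getElem?]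
        exact List.getElem?_eq_getElem _)
      exact h1
  have cper : ∀ n, c (n + l) = c n := by
    intro n
    simp only [hc, Nat.add_mod_right]
  have csurj : ∀ x ∈ Z, ∃ n < l, c n = x := by
    intro x hx
    obtain ⟨n, hn, rfl⟩ := List.mem_iff_getElem.1 hx
    exact ⟨n, hn, by simp only [hc, Nat.mod_eq_of_lt (show n < l from hn)]⟩
  -- an unmarked vertex
  obtain ⟨q, hq, hqa⟩ : ∃ q < l, ∀ i, a i ≠ c q := by
    by_contra hno
    push Not at hno
    have h1 : Z.toFinset ⊆ univ.image a := by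
      intro x hx
      obtain ⟨n, hn, rfl⟩ := csurj x (List.mem_toFinset.1 hx)
      obtain ⟨i, hi⟩ := hno n hn
      exact Finset.mem_image.2 ⟨i, Finset.mem_univ _, hi⟩
    have h2 := Finset.card_le_card h1
    rw [List.toFinset_card_of_nodup hZ.1.1] at h2
    have h3 : (univ.image a).card ≤ 4 := by
      refine Finset.card_image_le.trans ?_
      simp
    omega
  set z : ℕ → W := fun n => c (q + 1 + n) with hz
  have zinj : ∀ i < l, ∀ j < l, z i = z j → i = j := by
    intro i hi j hj h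
    have h1 := cinj _ _ h
    have h2 : (q + 1 + i) ≡ (q + 1 + j) [MOD l] := h1
    have h3 := Nat.ModEq.add_left_cancel' (q + 1) h2
    unfold Nat.ModEq at h3
    rwa [Nat.mod_eq_of_lt hi, Nat.mod_eq_of_lt hj] at h3
  have zlast : z (l - 1) = c q := by
    simp only [hz]
    rw [show q + 1 + (l - 1) = q + l by omega, cper]
  have hpos' : ∀ i, ∃ n, n + 1 < l ∧ z n = a i := by
    intro i
    obtain ⟨n, hn, hna⟩ := csurj (a i) (ha i)
    have hne : n ≠ q := by
      rintro rfl
      exact hqa i hna.symm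
    rcases lt_or_gt_of_ne hne with h | h
    · refine ⟨n + l - q - 1, by omega, ?_⟩
      simp only [hz]
      rw [show q + 1 + (n + l - q - 1) = n + l by omega, cper, hna]
    · refine ⟨n - q - 1, by omega, ?_⟩
      simp only [hz]
      rw [show q + 1 + (n - q - 1) = n by omega, hna]
  choose p hp1 hp2 using hpos'
  have pinj : Function.Injective p := by
    intro i j h
    apply hinj
    rw [← hp2 i, ← hp2 j, h]
  set σ := Tuple.sort p with hσ
  have hmono : Monotone (p ∘ σ) := Tuple.monotone_sort p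
  have hstrict : StrictMono (p ∘ σ) := hmono.strictMono_of_injective (pinj.comp σ.injective)
  obtain ⟨A, A1, A2, A3, A4, A5, A6, A7, A8⟩ := arcs (H := H) (z := z) (l := l)
    (m0 := p (σ 0)) (m1 := p (σ 1)) (m2 := p (σ 2)) (m3 := p (σ 3))
    (hstrict (by decide : (0 : Fin 4) < 1)) (hstrict (by decide : (1 : Fin 4) < 2))
    (hstrict (by decide : (2 : Fin 4) < 3)) (hp1 _) zinj (fun n _ => cadj _) (by
      have := cadj (q + 1 + (l - 1))
      rw [show q + 1 + (l - 1) + 1 = (q + 1 + 0) + l by omega, cper] at this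
      exact this)
  refine ⟨A, σ.symm, A1, A2, ?_, A4, ?_⟩
  · intro i x hx
    obtain ⟨n, _, rfl⟩ := A3 i x hx
    exact cmem _
  · intro i
    obtain ⟨k, rfl⟩ := σ.surjective i
    rw [Equiv.symm_apply_apply, ← hp2]
    fin_cases k
    · exact A5
    · exact A6
    · exact A7
    · exact A8

/-- two disjoint circuits of length at least five with four disjoint paths between them -/
theorem link_of {Z Z' : List W} (hZ : Ci H Z) (hZ' : Ci H Z') (h5 : 5 ≤ Z.length)
    (h5' : 5 ≤ Z'.length) (hd : ∀ x ∈ Z, x ∉ Z') {a b : Fin 4 → W} {I : Fin 4 → List W}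
    (hB : ∀ i, Br H Z Z' (a i) (b i) (I i))
    (hI : ∀ i j, i ≠ j → ∀ x ∈ [a i] ++ (I i ++ [b i]), x ∉ [a j] ++ (I j ++ [b j])) :
    ∃ τ, Minor (pent τ) H := by
  have ainj : Function.Injective a := by
    intro i j h
    by_contra hij
    exact hI i j hij (a i) (by simp) (by rw [h]; simp)
  have binj : Function.Injective b := by
    intro i j h
    by_contra hij
    exact hI i j hij (b i) (by simp) (by rw [h]; simp)
  obtain ⟨A, s, A1, A2, A3, A4, A5⟩ := cyc5 hZ h5 (fun i => (hB i).ha) ainj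
  obtain ⟨B, t, B1, B2, B3, B4, B5⟩ := cyc5 hZ' h5' (fun i => (hB i).hb) binj
  set F : Fin 5 → Set W := fun k => A k ∪ {x | ∃ i : Fin 4, (s i).castSucc = k ∧ x ∈ I i} with hF
  have hAB : ∀ i j, Disjoint (A i) (B j) := by
    intro i j
    rw [Set.disjoint_left]
    intro x hx hx'
    exact hd x (A3 i x hx) (B3 j x hx')
  have hFB : ∀ i j, Disjoint (F i) (B j) := by
    intro i j
    rw [Set.disjoint_left]
    rintro x (hx | ⟨k, _, hx⟩) hx'
    · exact Set.disjoint_left.1 (hAB i j) hx hx'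
    · exact (hB k).z' x hx (B3 j x hx')
  have hsinj : ∀ i j : Fin 4, (s i).castSucc = (s j).castSucc → i = j := fun i j h =>
    s.injective (Fin.castSucc_injective _ h)
  have hFF : ∀ i j, i ≠ j → Disjoint (F i) (F j) := by
    intro i j hij
    rw [Set.disjoint_left]
    rintro x (hx | ⟨k, hk, hx⟩) (hx' | ⟨k', hk', hx'⟩)
    · exact Set.disjoint_left.1 (A1 i j hij) hx hx'
    · exact (hB k').z x hx' (A3 i x hx)
    · exact (hB k).z x hx (A3 j x hx')
    · by_cases hkk : k = k'
      · subst hkk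
        exact hij (hk.symm.trans hk')
      · exact hI k k' hkk x (by simp [hx]) (by simp [hx'])
  have hchain : ∀ i, (a i :: I i).IsChain H.Adj ∧ ∃ x, (x = a i ∨ x ∈ I i) ∧ H.Adj x (b i) := by
    intro i
    have h1 := (hB i).pa.2
    have e : [a i] ++ (I i ++ [b i]) = (a i :: I i) ++ [b i] := by simp
    rw [e, List.isChain_append] at h1
    obtain ⟨h2, _, h3⟩ := h1
    refine ⟨h2, (a i :: I i).getLast (by simp), ?_, h3 _ (List.getLast?_eq_getLast_of_ne_nil _) _
      (by simp)⟩
    exact List.mem_cons.1 (List.getLast_mem _)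
  have hFc : ∀ k, (H.induce (F k)).Connected := by
    intro k
    by_cases hk : ∃ i : Fin 4, (s i).castSucc = k
    · obtain ⟨i, rfl⟩ := hk
      have h1 := conn_list (I i) (A (s i).castSucc) (a i) (A5 i) (hchain i).1 (A2 _)
      have e : A (s i).castSucc ∪ {y | y ∈ I i} = F (s i).castSucc := by
        ext x
        constructor
        · rintro (h | h)
          · exact Or.inl h
          · exact Or.inr ⟨i, rfl, h⟩
        · rintro (h | ⟨j, hj, h⟩)
          · exact Or.inl h
          · rw [hsinj j i hj] at h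
            exact Or.inr h
      rwa [e] at h1
    · have e : F k = A k := by
        ext x
        constructor
        · rintro (h | ⟨j, hj, _⟩)
          · exact h
          · exact absurd ⟨j, hj⟩ hk
        · exact fun h => Or.inl h
      rw [e]
      exact A2 k
  refine ⟨s.symm.trans t, fun x => match x with
    | Sum.inl k => F k
    | Sum.inr k => B k, ?_, ?_, ?_⟩
  · rintro (i | i) (j | j) hij
    · exact hFF i j (fun h => hij (by rw [h]))
    · exact hFB i j
    · exact (hFB j i).symm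
    · exact B1 i j (fun h => hij (by rw [h]))
  · rintro (k | k)
    · exact hFc k
    · exact B2 k
  · have key : ∀ k : Fin 4, ∃ x ∈ F k.castSucc, ∃ y ∈ B ((s.symm.trans t) k).castSucc,
        H.Adj x y := by
      intro k
      obtain ⟨i, rfl⟩ := s.surjective k
      obtain ⟨_, x, hx, hxb⟩ := hchain i
      refine ⟨x, ?_, b i, ?_, hxb⟩
      · rcases hx with rfl | hx
        · exact Or.inl (A5 i)
        · exact Or.inr ⟨i, rfl, hx⟩
      · have := B5 i
        simpa using this
    have hstep : ∀ k, ∃ x ∈ F k, ∃ y ∈ F (k + 1), H.Adj x y := by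
      intro k
      obtain ⟨x, hx, y, hy, hxy⟩ := A4 k
      exact ⟨x, Or.inl hx, y, Or.inl hy, hxy⟩
    rintro (i | i) (j | j) hij
    · rcases (hij : j = i + 1 ∨ i = j + 1) with rfl | rfl
      · exact hstep i
      · obtain ⟨x, hx, y, hy, hxy⟩ := hstep j
        exact ⟨y, hy, x, hx, hxy.symm⟩
    · obtain ⟨k, rfl, rfl⟩ := (hij : ∃ k : Fin 4, i = k.castSucc ∧
        j = ((s.symm.trans t) k).castSucc)
      exact key k
    · obtain ⟨k, rfl, rfl⟩ := (hij : ∃ k : Fin 4, j = k.castSucc ∧
        i = ((s.symm.trans t) k).castSucc)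
      obtain ⟨x, hx, y, hy, hxy⟩ := key k
      exact ⟨y, hy, x, hx, hxy.symm⟩
    · rcases (hij : j = i + 1 ∨ i = j + 1) with rfl | rfl
      · exact B4 i
      · obtain ⟨x, hx, y, hy, hxy⟩ := B4 j
        exact ⟨y, hy, x, hx, hxy.symm⟩

/-- a 3-connected graph without separations of order three with two disjoint odd circuits of length
at least five has a linked pair of pentagons as a minor -/
theorem link_minor [Fintype W] [DecidableEq W] (h3 : Conn3 H) (hs : ¬ Sep3 H)
    (hn : 6 ≤ Fintype.card W) (hm : ¬ Meet H) : ∃ τ, Minor (pent τ) H := by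
  obtain ⟨Z, Z', hZ, hZ', h5, h5', hd⟩ := not_meet hm
  obtain ⟨a, b, I, h1, h2⟩ := four_br h3 hs hn hZ hZ' h5 h5' hd
  exact link_of hZ hZ' h5 h5' hd h1 h2

end Pool.Agent.U881.HB
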