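import Pool.Agent.U881.HB.Link2

/-!
# Graphs without linked pentagons
-/

set_option autoImplicit false
set_option linter.unusedSectionVars false

namespace Pool.Agent.U881.HB

open Finset H76FC H76TW H76TX H76TY Pool.Agent.W315.LB Pool.Agent.TH583.HB

/-! ### the Petersen graph contains linked pentagons -/

/-- the first pentagon of the Petersen graph -/
def ga : Fin 5 → Finset (Fin 5) := ![{0, 1}, {2, 3}, {4, 0}, {1, 2}, {3, 4}]

/-- the second pentagon of the Petersen graph -/
def gb : Fin 5 → Finset (Fin 5) := ![{1, 3}, {2, 4}, {0, 3}, {1, 4}, {0, 2}]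

/-- the edges between them -/
def gt : Equiv.Perm (Fin 4) := ⟨![1, 3, 0, 2], ![2, 0, 3, 1], by decide, by decide⟩

theorem ga_card : ∀ i, (ga i).card = 2 := by decide
theorem gb_card : ∀ i, (gb i).card = 2 := by decide
theorem ga_inj : ∀ i j, i ≠ j → ga i ≠ ga j := by decide
theorem gb_inj : ∀ i j, i ≠ j → gb i ≠ gb j := by decide
theorem ga_gb : ∀ i j, ga i ≠ gb j := by decide
theorem ga_adj : ∀ i, Disjoint (ga i) (ga (i + 1)) := by decide
theorem gb_adj : ∀ i, Disjoint (gb i) (gb (i + 1)) := by decide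
theorem gab_adj : ∀ k : Fin 4, Disjoint (ga k.castSucc) (gb (gt k).castSucc) := by decide

theorem pent_of_pet {V : Type} {G : SimpleGraph V} (h : PetMinor G) : ∃ τ, Minor (pent τ) G := by
  obtain ⟨f, f1, f2, f3⟩ := h
  refine ⟨gt, fun x => match x with
    | Sum.inl i => f ⟨ga i, ga_card i⟩
    | Sum.inr i => f ⟨gb i, gb_card i⟩, ?_, ?_, ?_⟩
  · rintro (i | i) (j | j) hij
    · exact f1 _ _ (fun h => ga_inj i j (fun e => hij (by rw [e])) (congrArg Subtype.val h))
    · exact f1 _ _ (fun h => ga_gb i j (congrArg Subtype.val h))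
    · exact f1 _ _ (fun h => ga_gb j i (congrArg Subtype.val h).symm)
    · exact f1 _ _ (fun h => gb_inj i j (fun e => hij (by rw [e])) (congrArg Subtype.val h))
  · rintro (i | i)
    · exact f2 _
    · exact f2 _
  · rintro (i | i) (j | j) hij
    · rcases (hij : j = i + 1 ∨ i = j + 1) with rfl | rfl
      · exact f3 _ _ (ga_adj i)
      · exact f3 _ _ (ga_adj j).symm
    · obtain ⟨k, rfl, rfl⟩ := (hij : ∃ k : Fin 4, i = k.castSucc ∧ j = (gt k).castSucc)
      exact f3 _ _ (gab_adj k)
    · obtain ⟨k, rfl, rfl⟩ := (hij : ∃ k : Fin 4, j = k.castSucc ∧ i = (gt k).castSucc)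
      exact f3 _ _ (gab_adj k).symm
    · rcases (hij : j = i + 1 ∨ i = j + 1) with rfl | rfl
      · exact f3 _ _ (gb_adj i)
      · exact f3 _ _ (gb_adj j).symm

/-- no two disjoint pentagons with four disjoint edges between them as a minor -/
def NoLink (V : Type) (G : SimpleGraph V) : Prop := ∀ τ, ¬ Minor (pent τ) G

theorem settled_of_noLink {V : Type} {G : SimpleGraph V} (hG : NoLink V G) : Settled V G := by
  intro W _ _ H hB hm hP hs
  by_cases h13 : Fintype.card W ≤ 13
  · exact Or.inl (Or.inl (Or.inl ⟨h13, hP⟩))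
  · refine Or.inl (Or.inr (few_of_meet W H ?_))
    by_contra hno
    obtain ⟨τ, hτ⟩ := link_minor (conn3_of_brick hB) hs (by omega) hno
    exact hG τ (minor_trans hτ hm)

/-- the pieces: no linked pentagons, four hubs, or the earlier pieces -/
def Piece5 (V : Type) (G : SimpleGraph V) : Prop := NoLink V G ∨ FourHubs V G ∨ Piece V G

theorem sum_mono {K K' : (V : Type) → SimpleGraph V → Prop} (h : ∀ V G, K V G → K' V G)
    {V : Type} {G : SimpleGraph V} (hS : Sum3 K V G) : Sum3 K' V G := by
  induction hS with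
  | base V G hG => exact Sum3.base V G (h V G hG)
  | two V G A B hV hAB hX _ _ ih1 ih2 => exact Sum3.two V G A B hV hAB hX ih1 ih2
  | three V G A B hV hAB hX _ _ ih1 ih2 => exact Sum3.three V G A B hV hAB hX ih1 ih2

theorem piece5_4 (V : Type) (G : SimpleGraph V) (h : Piece5 V G) : Piece4 V G := by
  rcases h with h | h | h
  · refine Or.inr ?_
    unfold Piece
    exact Or.inr (Or.inr (Or.inr (Or.inr (Or.inr (Or.inr (Or.inr (Or.inr (Or.inr
      (settled_of_noLink h)))))))))
  · exact Or.inl h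
  · exact Or.inr h

theorem decomp_noLink (V E : Type) [Fintype V] [Fintype E] [DecidableEq E] (ends : E → Sym2 V)
    (hG : NoLink V (SimpleGraph.fromEdgeSet (Set.range ends))) : Decomp ends := by
  refine decomp_sum4 V E ends (fun h => ?_) (Sum3.base _ _ (piece5_4 _ _ (Or.inl hG)))
  obtain ⟨τ, hτ⟩ := pent_of_pet h
  exact hG τ hτ

theorem decomp_sum5 (V E : Type) [Fintype V] [Fintype E] [DecidableEq E] (ends : E → Sym2 V)
    (hP : ¬ PetMinor (SimpleGraph.fromEdgeSet (Set.range ends)))
    (hS : Sum3 Piece5 V (SimpleGraph.fromEdgeSet (Set.range ends))) : Decomp ends :=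
  decomp_sum4 V E ends hP (sum_mono piece5_4 hS)

/-- minimal counterexamples in minor-closed classes contain linked pentagons -/
theorem cover_link {V : Type} [Fintype V] [DecidableEq V] {r : ℕ} {p : V → V → ℕ} (hr : 1 ≤ r)
    (hR : RGraph r p) (hN : NoTight r p) (hB : Brick (gr p)) (hP : ¬ PetMinor (gr p))
    (hs : ¬ Sep3 (gr p)) (hL : NoLink V (gr p)) :
    Cover 1 r p ∨ ∃ M, PMof p M ∧ RGraph (r - 1) (minus p M) := by
  rcases settled_of_noLink hL V (gr p) hB (minor_refl _) hP hs with (hk | hk) | hk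
  · exact Or.inl (cover_known hR hk)
  · exact Or.inr (step hr hR hN hk)
  · exact Or.inl (Pool.Agent.TH100.LV.cover_of hR hk)

end Pool.Agent.U881.HB
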