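import Pool.Agent.U881.HB.Vk

/-!
# Smallest counterexamples among the `r`-graphs without Petersen minor
-/

set_option autoImplicit false

namespace Pool.Agent.U881.HB

open Finset H76FC H76TW H76TX H76TY Pool.Agent.W315.LB Pool.Agent.TH583.HB

/-- the Petersen graph -/
def petG : SimpleGraph {s : Finset (Fin 5) // s.card = 2} where
  Adj i j := Disjoint i.1 j.1
  symm := ⟨fun _ _ h => h.symm⟩
  loopless := ⟨fun i h => by
    have h1 := disjoint_self.1 h
    have h2 := i.2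
    rw [h1] at h2
    simp at h2⟩

theorem petG_iff {V : Type} (G : SimpleGraph V) : Minor petG G ↔ PetMinor G :=
  ⟨fun ⟨f, f1, f2, f3⟩ => ⟨f, f1, f2, fun a b h => f3 a b h⟩,
    fun ⟨f, f1, f2, f3⟩ => ⟨f, f1, f2, fun a b h => f3 a b h⟩⟩

theorem smallest_pet {V : Type} [Fintype V] [DecidableEq V] {r : ℕ} {p : V → V → ℕ}
    (hp : RGraph r p) (hFp : ¬ PetMinor (gr p)) (hno : ¬ Cover 1 r p)
    (hmin : ∀ (W : Type) [Fintype W] [DecidableEq W] (q : W → W → ℕ),
      Fintype.card W < Fintype.card V → RGraph r q → ¬ PetMinor (gr q) → Cover 1 r q) :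
    Brick (gr p) ∧ 14 ≤ Fintype.card V ∧ ¬ Sep3 (gr p) ∧ ∃ τ, Minor (pent τ) (gr p) := by
  obtain ⟨h1, h2, h3, h4⟩ := smallestK 1 petG (fun _ G h => (petG_iff G).2 h) hp
    (fun h => hFp ((petG_iff _).1 h)) hno
    (fun W _ _ q hW hq h => hmin W q hW hq (fun h' => h ((petG_iff _).2 h')))
  refine ⟨h2, h3, h4, ?_⟩
  by_contra hcon
  push Not at hcon
  exact hno (cover_sum4 (gr p) hFp (Sum3.base _ _ (piece5_4 _ _ (Or.inl hcon))) _ V rfl r p hp
    (minor_refl _))

end Pool.Agent.U881.HB
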