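import Mathlib

/-!
# Rooted minors of the sides of a separation of order three of a 3-connected graph
-/

set_option autoImplicit false

namespace Pool.Agent.U881.HB

open Finset

/-- deleting two vertices leaves a connected graph -/
def Conn3 {V : Type} (G : SimpleGraph V) : Prop :=
  ∀ u v, u ≠ v → (G.induce {x | x ≠ u ∧ x ≠ v}).Connected

theorem sep {V : Type} {G : SimpleGraph V} (h : Conn3 G) (R : Set V) (x y p z : V) (hxy : x ≠ y)
    (hp : p ∈ R) (hpx : p ≠ x) (hpy : p ≠ y) (hz : z ∉ R) (hzx : z ≠ x) (hzy : z ≠ y)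
    (hR : ∀ u ∈ R, ∀ v, G.Adj u v → v ≠ x → v ≠ y → v ∈ R) : False := by
  obtain ⟨w⟩ := (h x y hxy).preconnected ⟨p, hpx, hpy⟩ ⟨z, hzx, hzy⟩
  have key : ∀ (a b : {v : V | v ≠ x ∧ v ≠ y}) (_ : (G.induce {v | v ≠ x ∧ v ≠ y}).Walk a b),
      a.1 ∈ R → b.1 ∈ R := by
    intro a b w
    induction w with
    | nil => exact id
    | @cons a c b hac w ih =>
      intro ha
      exact ih (hR _ ha _ hac c.2.1 c.2.2)
  exact hz (key _ _ w hp)

/-- `S` is connected -/
def Cn {V : Type} (G : SimpleGraph V) (S : Finset V) : Prop := (G.induce (S : Set V)).Connected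

/-- an edge joins `A` and `B` -/
def Ad {V : Type} (G : SimpleGraph V) (A B : Finset V) : Prop := ∃ x ∈ A, ∃ y ∈ B, G.Adj x y

theorem Ad.symm {V : Type} {G : SimpleGraph V} {A B : Finset V} (h : Ad G A B) : Ad G B A := by
  obtain ⟨x, hx, y, hy, h⟩ := h
  exact ⟨y, hy, x, hx, h.symm⟩

theorem Ad.mono {V : Type} {G : SimpleGraph V} {A B A' B' : Finset V} (h : Ad G A B)
    (hA : A ⊆ A') (hB : B ⊆ B') : Ad G A' B' := by
  obtain ⟨x, hx, y, hy, h⟩ := h
  exact ⟨x, hA hx, y, hB hy, h⟩

theorem cn_singleton {V : Type} (G : SimpleGraph V) (v : V) : Cn G {v} := by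
  unfold Cn
  rw [Finset.coe_singleton]
  have : Nonempty ({v} : Set V) := ⟨⟨v, rfl⟩⟩
  refine ⟨?_⟩
  rintro ⟨x, hx⟩ ⟨y, hy⟩
  rw [Set.mem_singleton_iff] at hx hy
  subst hx; subst hy
  exact SimpleGraph.Reachable.refl _

theorem cn_union {V : Type} [DecidableEq V] {G : SimpleGraph V} {A B : Finset V} (hA : Cn G A)
    (hB : Cn G B) (h : Ad G A B) : Cn G (A ∪ B) := by
  obtain ⟨x, hx, y, hy, hxy⟩ := h
  unfold Cn at *
  rw [Finset.coe_union]
  exact SimpleGraph.connected_induce_union hA.preconnected hB.preconnected hx hy hxy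

theorem cn_insert {V : Type} [DecidableEq V] {G : SimpleGraph V} {A : Finset V} {w : V}
    (hA : Cn G A) (h : Ad G {w} A) : Cn G (insert w A) := by
  rw [Finset.insert_eq]
  exact cn_union (cn_singleton G w) hA h

theorem cn_nbr {V : Type} [DecidableEq V] {G : SimpleGraph V} {U : Finset V} {w : V}
    (hU : Cn G U) (hw : w ∈ U) (hne : (U.erase w).Nonempty) : Ad G {w} (U.erase w) := by
  obtain ⟨p, hp⟩ := hne
  obtain ⟨q⟩ := hU.preconnected ⟨w, hw⟩ ⟨p, Finset.mem_of_mem_erase hp⟩
  cases q with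
  | nil => exact absurd rfl (Finset.ne_of_mem_erase hp)
  | @cons _ c _ h q =>
    refine ⟨w, Finset.mem_singleton_self w, c.1, ?_, h⟩
    rw [Finset.mem_erase]
    exact ⟨fun h' => (h.ne (Subtype.ext h'.symm)), c.2⟩

theorem exists_erase {V : Type} [DecidableEq V] {G : SimpleGraph V} {U : Finset V}
    (hU : Cn G U) (h2 : 2 ≤ U.card) : ∃ w ∈ U, Cn G (U.erase w) := by
  have : Nontrivial (U : Set V) := by
    obtain ⟨a, ha, b, hb, hab⟩ := Finset.one_lt_card.1 (show 1 < U.card by omega)
    exact ⟨⟨a, ha⟩, ⟨b, hb⟩, fun h => hab (congrArg Subtype.val h)⟩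
  obtain ⟨v, hv⟩ := SimpleGraph.Connected.exists_connected_induce_compl_singleton_of_finite_nontrivial
    hU
  refine ⟨v.1, v.2, ?_⟩
  refine SimpleGraph.Connected.map (G := (G.induce (U : Set V)).induce {v}ᶜ)
    (H := G.induce ((U.erase v.1 : Finset V) : Set V))
    (f := ⟨fun x => ⟨x.1.1, ?_⟩, ?_⟩) ?_ hv
  · rw [Finset.mem_coe, Finset.mem_erase]
    exact ⟨fun h => x.2 (Subtype.ext h), x.1.2⟩
  · intro a b hab
    exact hab
  · rintro ⟨y, hy⟩
    rw [Finset.mem_coe, Finset.mem_erase] at hy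
    exact ⟨⟨⟨y, hy.2⟩, fun h => hy.1 (congrArg Subtype.val h)⟩, rfl⟩

/-- disjoint connected sets `S i ∋ s i` with `S i ⊆ P ∪ {s i}` and `U ⊆ P` such that `U` is adjacent to
the three sets `S i` -/
structure Conf {V : Type} (G : SimpleGraph V) (P : Finset V) (s : Fin 3 → V) (U : Finset V)
    (S : Fin 3 → Finset V) : Prop where
  mem : ∀ i, s i ∈ S i
  sub : ∀ i, ∀ x ∈ S i, x = s i ∨ x ∈ P
  subU : U ⊆ P
  neU : U.Nonempty
  disU : ∀ i, Disjoint U (S i)
  dis : ∀ i j, i ≠ j → Disjoint (S i) (S j)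
  cnU : Cn G U
  cn : ∀ i, Cn G (S i)
  ad : ∀ i, Ad G U (S i)

theorem conf_move {V : Type} [DecidableEq V] {G : SimpleGraph V} {P : Finset V} {s : Fin 3 → V}
    {U : Finset V} {S : Fin 3 → Finset V} (hC : Conf G P s U S) (w : V) (hwP : w ∈ P)
    (hwS : ∀ j, w ∉ S j) (i : Fin 3) (had : Ad G {w} (S i)) (U' : Finset V) (hU' : U' ⊆ U)
    (hne : U'.Nonempty) (hw : w ∉ U') (hcn : Cn G U') (had' : ∀ j, j ≠ i → Ad G U' (S j))
    (hadi : Ad G U' (insert w (S i))) :
    Conf G P s U' (Function.update S i (insert w (S i))) := by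
  refine ⟨?_, ?_, hU'.trans hC.subU, hne, ?_, ?_, hcn, ?_, ?_⟩
  · intro j
    by_cases hj : j = i
    · subst hj
      rw [Function.update_self]
      exact Finset.mem_insert_of_mem (hC.mem j)
    · rw [Function.update_of_ne hj]
      exact hC.mem j
  · intro j x hx
    by_cases hj : j = i
    · subst hj
      rw [Function.update_self, Finset.mem_insert] at hx
      rcases hx with rfl | hx
      · exact Or.inr hwP
      · exact hC.sub j x hx
    · rw [Function.update_of_ne hj] at hx
      exact hC.sub j x hx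
  · intro j
    by_cases hj : j = i
    · subst hj
      rw [Function.update_self, Finset.disjoint_insert_right]
      exact ⟨hw, Finset.disjoint_of_subset_left hU' (hC.disU j)⟩
    · rw [Function.update_of_ne hj]
      exact Finset.disjoint_of_subset_left hU' (hC.disU j)
  · intro j k hjk
    by_cases hj : j = i
    · subst hj
      rw [Function.update_self, Function.update_of_ne (Ne.symm hjk), Finset.disjoint_insert_left]
      exact ⟨hwS k, hC.dis j k hjk⟩
    · rw [Function.update_of_ne hj]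
      by_cases hk : k = i
      · subst hk
        rw [Function.update_self, Finset.disjoint_insert_right]
        exact ⟨hwS j, hC.dis j k hjk⟩
      · rw [Function.update_of_ne hk]
        exact hC.dis j k hjk
  · intro j
    by_cases hj : j = i
    · subst hj
      rw [Function.update_self]
      exact cn_insert (hC.cn j) had
    · rw [Function.update_of_ne hj]
      exact hC.cn j
  · intro j
    by_cases hj : j = i
    · subst hj
      rw [Function.update_self]
      exact hadi
    · rw [Function.update_of_ne hj]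
      exact had' j hj

theorem upd_sum {V : Type} [DecidableEq V] (S : Fin 3 → Finset V) (i : Fin 3) (T : Finset V) :
    ∑ j, (Function.update S i T j).card + (S i).card = ∑ j, (S j).card + T.card := by
  fin_cases i <;> simp [Fin.sum_univ_three, Function.update] <;> ring

theorem fin3_two (i : Fin 3) : ∃ j k : Fin 3, j ≠ k ∧ j ≠ i ∧ k ≠ i := by
  revert i; decide

theorem fin3_one (j k : Fin 3) : ∃ l : Fin 3, l ≠ j ∧ l ≠ k := by
  revert j k; decide

theorem fin3_all (j k l m : Fin 3) (h1 : j ≠ k) (h2 : l ≠ j) (h3 : l ≠ k) :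
    m = j ∨ m = k ∨ m = l := by
  revert j k l m; decide

theorem exists_conf {V : Type} [Fintype V] [DecidableEq V] {G : SimpleGraph V} (h3 : Conn3 G)
    (P : Finset V) (s : Fin 3 → V) (hs : Function.Injective s) (hsP : ∀ i, s i ∉ P)
    (hne : P.Nonempty) (hout : ∀ u ∈ P, ∀ v, G.Adj u v → v ∈ P ∨ ∃ i, v = s i) :
    ∃ U S, Conf G P s U S := by
  classical
  obtain ⟨u0, hu0⟩ := hne
  obtain ⟨U, hU, hmax⟩ := Finset.exists_max_image
    (P.powerset.filter (fun U => U.Nonempty ∧ Cn G U)) (fun U => U.card)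
    ⟨{u0}, by
      rw [Finset.mem_filter, Finset.mem_powerset]
      exact ⟨by simpa using hu0, Finset.singleton_nonempty _, cn_singleton G u0⟩⟩
  rw [Finset.mem_filter, Finset.mem_powerset] at hU
  obtain ⟨hUP, ⟨p, hp⟩, hUc⟩ := hU
  have hclosed : ∀ u ∈ U, ∀ v, G.Adj u v → v ∈ U ∨ ∃ i, v = s i := by
    intro u hu v huv
    rcases hout u (hUP hu) v huv with hv | hv
    · left
      by_contra hvU
      have h1 := hmax (insert v U) (by
        rw [Finset.mem_filter, Finset.mem_powerset]
        refine ⟨Finset.insert_subset hv hUP, ⟨v, Finset.mem_insert_self _ _⟩, ?_⟩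
        exact cn_insert hUc ⟨v, Finset.mem_singleton_self v, u, hu, huv.symm⟩)
      rw [Finset.card_insert_of_notMem hvU] at h1
      omega
    · exact Or.inr hv
  refine ⟨U, fun i => {s i}, ⟨?_, ?_, hUP, ⟨p, hp⟩, ?_, ?_, hUc, ?_, ?_⟩⟩
  · intro i; exact Finset.mem_singleton_self _
  · intro i x hx; exact Or.inl (Finset.mem_singleton.1 hx)
  · intro i
    rw [Finset.disjoint_singleton_right]
    exact fun h => hsP i (hUP h)
  · intro i j hij
    rw [Finset.disjoint_singleton]
    exact fun h => hij (hs h)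
  · intro i; exact cn_singleton G _
  · intro i
    by_contra hno
    obtain ⟨j, k, hjk, hji, hki⟩ := fin3_two i
    have hall : ∀ m : Fin 3, m = j ∨ m = k ∨ m = i := fun m =>
      fin3_all j k i m hjk (Ne.symm hji) (Ne.symm hki)
    refine sep h3 (U : Set V) (s j) (s k) p (s i) (fun h => hjk (hs h)) hp
      (fun h => hsP j (h ▸ hUP hp)) (fun h => hsP k (h ▸ hUP hp)) (fun h => hsP i (hUP h))
      (fun h => hji (hs h).symm) (fun h => hki (hs h).symm) ?_
    intro u hu v huv hvj hvk
    rcases hclosed u hu v huv with hv | ⟨m, rfl⟩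
    · exact hv
    · exfalso
      rcases hall m with rfl | rfl | rfl
      · exact hvj rfl
      · exact hvk rfl
      · exact hno ⟨u, hu, s m, Finset.mem_singleton_self _, huv⟩

theorem root {V : Type} [Fintype V] [DecidableEq V] {G : SimpleGraph V} (h3 : Conn3 G)
    (P : Finset V) (s : Fin 3 → V) (hs : Function.Injective s) (hsP : ∀ i, s i ∉ P)
    (h2 : 2 ≤ P.card) (hout : ∀ u ∈ P, ∀ v, G.Adj u v → v ∈ P ∨ ∃ i, v = s i) :
    ∃ U S, Conf G P s U S ∧ ∃ i j, i ≠ j ∧ Ad G (S i) (S j) := by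
  classical
  have hne : P.Nonempty := Finset.card_pos.1 (by omega)
  obtain ⟨U0, S0, hC0⟩ := exists_conf h3 P s hs hsP hne hout
  set μ : Finset V × (Fin 3 → Finset V) → ℕ := fun q =>
    (Fintype.card V + 1) * ∑ i, (q.2 i).card + (Fintype.card V - q.1.card) with hμ
  obtain ⟨⟨U, S⟩, hq, hmax⟩ := Finset.exists_max_image
    (univ.filter (fun q : Finset V × (Fin 3 → Finset V) => Conf G P s q.1 q.2)) μ
    ⟨(U0, S0), by rw [Finset.mem_filter]; exact ⟨Finset.mem_univ _, hC0⟩⟩
  rw [Finset.mem_filter] at hq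
  have hC : Conf G P s U S := hq.2
  have hmax' : ∀ U' S', Conf G P s U' S' → μ (U', S') ≤ μ (U, S) := by
    intro U' S' h
    exact hmax (U', S') (by rw [Finset.mem_filter]; exact ⟨Finset.mem_univ _, h⟩)
  clear hmax hq
  by_contra hno
  have hnoS : ∀ i j, i ≠ j → ¬ Ad G (S i) (S j) := fun i j hij h => hno ⟨U, S, hC, i, j, hij, h⟩
  have hbig : ∀ U' i w, w ∉ S i → ¬ Conf G P s U' (Function.update S i (insert w (S i))) := by
    intro U' i w hw h
    have h1 := hmax' _ _ h
    simp only [hμ] at h1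
    have h4 := upd_sum S i (insert w (S i))
    rw [Finset.card_insert_of_notMem hw] at h4
    have h5 : ∑ j, (Function.update S i (insert w (S i)) j).card = ∑ j, (S j).card + 1 := by omega
    rw [h5, mul_add, mul_one] at h1
    have h6 : Fintype.card V - U.card ≤ Fintype.card V := Nat.sub_le _ _
    omega
  -- (1)
  have h1 : ∀ w ∈ P, w ∉ U → (∀ i, w ∉ S i) → ∀ i, ¬ Ad G {w} (S i) := by
    intro w hwP hwU hwS i had
    exact hbig U i w (hwS i) (conf_move hC w hwP hwS i had U (Finset.Subset.refl _) hC.neU hwU hC.cnU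
      (fun j _ => hC.ad j) ((hC.ad i).mono (Finset.Subset.refl _) (Finset.subset_insert _ _)))
  -- (2)
  have h2' : ∀ w ∈ U, ¬ Cn G (U.erase w) := by
    intro w hw hcn
    have hneU : (U.erase w).Nonempty := by
      obtain ⟨⟨x, hx⟩⟩ := hcn.nonempty
      exact ⟨x, hx⟩
    have hwS : ∀ j, w ∉ S j := fun j h => Finset.disjoint_left.1 (hC.disU j) hw h
    have step : ∀ i, Ad G {w} (S i) → ∃ j, j ≠ i ∧ ¬ Ad G (U.erase w) (S j) := by
      intro i had
      by_contra hcon
      push Not at hcon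
      refine hbig (U.erase w) i w (hwS i) (conf_move hC w (hC.subU hw) hwS i had (U.erase w)
        (Finset.erase_subset _ _) hneU (Finset.notMem_erase _ _) hcn hcon ?_)
      exact (cn_nbr hC.cnU hw hneU).symm.mono (Finset.Subset.refl _) (by
        intro x hx
        rw [Finset.mem_singleton] at hx
        rw [hx]
        exact Finset.mem_insert_self _ _)
    have hback : ∀ j, ¬ Ad G (U.erase w) (S j) → Ad G {w} (S j) := by
      intro j hj
      obtain ⟨x, hx, y, hy, hxy⟩ := hC.ad j
      by_cases hxw : x = w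
      · subst hxw
        exact ⟨x, Finset.mem_singleton_self _, y, hy, hxy⟩
      · exact absurd ⟨x, Finset.mem_erase.2 ⟨hxw, hx⟩, y, hy, hxy⟩ hj
    have hnone : ∀ i, ¬ Ad G {w} (S i) := by
      intro i had
      obtain ⟨j, hji, hj⟩ := step i had
      obtain ⟨k, hkj, hk⟩ := step j (hback j hj)
      obtain ⟨l, hlj, hlk⟩ := fin3_one j k
      have hall : ∀ m : Fin 3, m = j ∨ m = k ∨ m = l := fun m =>
        fin3_all j k l m (Ne.symm hkj) hlj hlk
      set R : Set V := {x | x ∈ P ∧ x ≠ w ∧ x ∉ S j ∧ x ∉ S k} with hR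
      have hRno : ∀ x ∈ R, ∀ m, (m = j ∨ m = k) → ∀ y ∈ S m, ¬ G.Adj x y := by
        intro x hx m hm y hy hxy
        obtain ⟨hx1, hx2, hx3, hx4⟩ := hx
        by_cases hxU : x ∈ U
        · have h5 : Ad G (U.erase w) (S m) := ⟨x, Finset.mem_erase.2 ⟨hx2, hxU⟩, y, hy, hxy⟩
          rcases hm with rfl | rfl
          · exact hj h5
          · exact hk h5
        · by_cases hxl : x ∈ S l
          · have hlm : l ≠ m := by rcases hm with rfl | rfl; exacts [hlj, hlk]
            exact hnoS l m hlm ⟨x, hxl, y, hy, hxy⟩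
          · refine h1 x hx1 hxU ?_ m ⟨x, Finset.mem_singleton_self _, y, hy, hxy⟩
            intro i'
            rcases hall i' with rfl | rfl | rfl
            · exact hx3
            · exact hx4
            · exact hxl
      obtain ⟨p, hp⟩ := hneU
      have hpU := Finset.mem_of_mem_erase hp
      have hwP := hC.subU hw
      refine sep h3 R w (s l) p (s j) (fun h => hsP l (h ▸ hwP)) ?_ (Finset.ne_of_mem_erase hp)
        (fun h => hsP l (h ▸ hC.subU hpU)) (fun h => hsP j h.1) (fun h => hsP j (h ▸ hwP))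
        (fun h => hlj (hs h).symm) ?_
      · exact ⟨hC.subU hpU, Finset.ne_of_mem_erase hp,
          fun h => Finset.disjoint_left.1 (hC.disU j) hpU h,
          fun h => Finset.disjoint_left.1 (hC.disU k) hpU h⟩
      · intro u hu v huv hvw hvl
        rcases hout u hu.1 v huv with hv | ⟨m, rfl⟩
        · exact ⟨hv, hvw, fun h => hRno u hu j (Or.inl rfl) v h huv,
            fun h => hRno u hu k (Or.inr rfl) v h huv⟩
        · exfalso
          rcases hall m with rfl | rfl | rfl
          · exact hRno u hu m (Or.inl rfl) _ (hC.mem m) huv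
          · exact hRno u hu m (Or.inr rfl) _ (hC.mem m) huv
          · exact hvl rfl
    have hconf : Conf G P s (U.erase w) S := by
      refine ⟨hC.mem, hC.sub, (Finset.erase_subset _ _).trans hC.subU, hneU,
        fun i => Finset.disjoint_of_subset_left (Finset.erase_subset _ _) (hC.disU i), hC.dis, hcn,
        hC.cn, ?_⟩
      intro i
      by_contra h
      exact hnone i (hback i h)
    have h4 := hmax' _ _ hconf
    simp only [hμ] at h4
    have h5 := Finset.card_erase_add_one hw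
    have h6 : U.card ≤ Fintype.card V := Finset.card_le_univ U
    omega
  -- `U` is a single vertex
  have hU1 : U.card = 1 := by
    have h4 := Finset.card_pos.2 hC.neU
    by_contra h5
    obtain ⟨w, hw, hcn⟩ := exists_erase hC.cnU (by omega)
    exact h2' w hw hcn
  obtain ⟨u, rfl⟩ := Finset.card_eq_one.1 hU1
  have huP : u ∈ P := hC.subU (Finset.mem_singleton_self u)
  -- (3)
  obtain ⟨x0, hx0P, hx0u⟩ : ∃ x0 ∈ P, x0 ≠ u := by
    by_contra hcon
    push Not at hcon
    have : P ⊆ {u} := fun x hx => Finset.mem_singleton.2 (hcon x hx)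
    have h5 := Finset.card_le_card this
    rw [Finset.card_singleton] at h5
    omega
  obtain ⟨i, hi⟩ : ∃ i, ∀ j, j ≠ i → x0 ∉ S j := by
    by_cases hex : ∃ i, x0 ∈ S i
    · obtain ⟨i, hi⟩ := hex
      exact ⟨i, fun j hj h => Finset.disjoint_left.1 (hC.dis j i hj) h hi⟩
    · push Not at hex
      exact ⟨0, fun j _ => hex j⟩
  obtain ⟨j, _, _, hji, _⟩ := fin3_two i
  set R : Set V := {x | x ∈ P ∧ x ≠ u ∧ ∀ j, j ≠ i → x ∉ S j} with hR
  have hRno : ∀ x ∈ R, ∀ m, m ≠ i → ∀ y ∈ S m, ¬ G.Adj x y := by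
    intro x hx m hm y hy hxy
    obtain ⟨hx1, hx2, hx3⟩ := hx
    by_cases hxi : x ∈ S i
    · exact hnoS i m (Ne.symm hm) ⟨x, hxi, y, hy, hxy⟩
    · refine h1 x hx1 (by rw [Finset.mem_singleton]; exact hx2) ?_ m
        ⟨x, Finset.mem_singleton_self _, y, hy, hxy⟩
      intro i'
      by_cases hi' : i' = i
      · subst hi'; exact hxi
      · exact hx3 i' hi'
  refine sep h3 R u (s i) x0 (s j) (fun h => hsP i (h ▸ huP)) ⟨hx0P, hx0u, hi⟩ hx0u
    (fun h => hsP i (h ▸ hx0P)) (fun h => hsP j h.1) (fun h => hsP j (h ▸ huP))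
    (fun h => hji (hs h)) ?_
  intro x hx v hxv hvu hvi
  rcases hout x hx.1 v hxv with hv | ⟨m, rfl⟩
  · exact ⟨hv, hvu, fun j hj h => hRno x hx j hj v h hxv⟩
  · exfalso
    by_cases hm : m = i
    · subst hm; exact hvi rfl
    · exact hRno x hx m hm _ (hC.mem m) hxv

end Pool.Agent.U881.HB
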