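import Pool.Agent.U881.HB.StarD

/-!
# The Petersen graph minus a vertex in linked pentagons
-/

set_option autoImplicit false
set_option linter.unusedSectionVars false

namespace Pool.Agent.U881.HB

open Finset H76FC H76TW H76TX H76TY Pool.Agent.W315.LB Pool.Agent.TH583.HB

/-- the sets of the nine vertices -/
def inv9 : Fin 9 → Finset (Fin 5) :=
  ![{0, 2}, {0, 3}, {0, 4}, {1, 2}, {1, 3}, {1, 4}, {2, 3}, {2, 4}, {3, 4}]

theorem inv9_surj : ∀ s : Finset (Fin 5), s.card = 2 → s ≠ {0, 1} → ∃ i, inv9 i = s := by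
  decide +kernel

theorem inv9_ne : ∀ i j : Fin 9, Disjoint (inv9 i) (inv9 j) → i ≠ j := by decide +kernel

/-- models of the Petersen graph minus a vertex in linked pentagons -/
def mdl (a b c : Fin 4) : Fin 9 → (Fin 5 ⊕ Fin 5) × (Fin 5 ⊕ Fin 5) :=
  match a, b, c with
  | 0, 2, 1 => ![(.inl 0, .inl 0), (.inr 1, .inr 1), (.inr 3, .inr 3), (.inr 2, .inr 2), (.inl 3, .inl 4), (.inr 0, .inr 0), (.inr 4, .inr 4), (.inl 2, .inl 2), (.inl 1, .inl 1)]
  | 0, 2, 3 => ![(.inl 0, .inl 0), (.inr 1, .inr 1), (.inl 2, .inl 2), (.inl 3, .inl 3), (.inl 1, .inl 1), (.inr 0, .inr 0), (.inr 3, .inr 4), (.inr 2, .inr 2), (.inl 4, .inl 4)]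
  | 0, 3, 1 => ![(.inl 0, .inl 0), (.inr 1, .inr 1), (.inr 3, .inr 3), (.inr 2, .inr 2), (.inl 1, .inl 1), (.inr 0, .inr 0), (.inr 4, .inr 4), (.inl 2, .inl 2), (.inl 3, .inl 4)]
  | 1, 2, 0 => ![(.inl 2, .inl 2), (.inr 1, .inr 1), (.inr 3, .inr 3), (.inr 2, .inr 2), (.inl 3, .inl 4), (.inr 0, .inr 0), (.inr 4, .inr 4), (.inl 0, .inl 0), (.inl 1, .inl 1)]
  | 1, 3, 0 => ![(.inl 0, .inl 0), (.inr 2, .inr 2), (.inl 2, .inl 2), (.inl 3, .inl 3), (.inl 1, .inl 1), (.inr 1, .inr 1), (.inr 0, .inr 0), (.inr 3, .inr 3), (.inl 4, .inl 4)]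
  | 1, 3, 2 => ![(.inl 0, .inl 0), (.inr 0, .inr 0), (.inl 2, .inl 2), (.inl 3, .inl 3), (.inl 1, .inl 1), (.inr 1, .inr 1), (.inr 2, .inr 2), (.inr 3, .inr 4), (.inl 4, .inl 4)]
  | 2, 0, 1 => ![(.inl 0, .inl 0), (.inr 3, .inr 4), (.inl 2, .inl 2), (.inl 3, .inl 3), (.inl 1, .inl 1), (.inr 2, .inr 2), (.inr 1, .inr 1), (.inr 0, .inr 0), (.inl 4, .inl 4)]
  | 2, 0, 3 => ![(.inl 0, .inl 0), (.inr 1, .inr 1), (.inl 2, .inl 2), (.inl 3, .inl 3), (.inl 1, .inl 1), (.inr 2, .inr 2), (.inr 3, .inr 3), (.inr 0, .inr 0), (.inl 4, .inl 4)]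
  | 2, 1, 3 => ![(.inl 2, .inl 2), (.inr 2, .inr 2), (.inr 0, .inr 0), (.inr 1, .inr 1), (.inl 3, .inl 4), (.inr 3, .inr 3), (.inr 4, .inr 4), (.inl 0, .inl 0), (.inl 1, .inl 1)]
  | 3, 0, 2 => ![(.inl 0, .inl 0), (.inr 2, .inr 2), (.inr 0, .inr 0), (.inr 1, .inr 1), (.inl 1, .inl 1), (.inr 3, .inr 3), (.inr 4, .inr 4), (.inl 2, .inl 2), (.inl 3, .inl 4)]
  | 3, 1, 0 => ![(.inl 0, .inl 0), (.inr 2, .inr 2), (.inl 2, .inl 2), (.inl 3, .inl 3), (.inl 1, .inl 1), (.inr 3, .inr 4), (.inr 0, .inr 0), (.inr 1, .inr 1), (.inl 4, .inl 4)]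
  | 3, 1, 2 => ![(.inl 0, .inl 0), (.inr 2, .inr 2), (.inr 0, .inr 0), (.inr 1, .inr 1), (.inl 3, .inl 4), (.inr 3, .inr 3), (.inr 4, .inr 4), (.inl 2, .inl 2), (.inl 1, .inl 1)]
  | _, _, _ => fun _ => (.inl 0, .inl 0)

/-- adjacency in linked pentagons -/
def pa (t : Fin 4 → Fin 4) : Fin 5 ⊕ Fin 5 → Fin 5 ⊕ Fin 5 → Bool
  | .inl i, .inl j => j == i + 1 || i == j + 1
  | .inr i, .inr j => j == i + 1 || i == j + 1
  | .inl i, .inr j => (List.finRange 4).any fun k => i == k.castSucc && j == (t k).castSucc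
  | .inr j, .inl i => (List.finRange 4).any fun k => i == k.castSucc && j == (t k).castSucc

theorem pa_adj {τ : Equiv.Perm (Fin 4)} {x y : Fin 5 ⊕ Fin 5} (h : pa τ x y = true) :
    (pent τ).Adj x y := by
  rcases x with i | i <;> rcases y with j | j
  · simp only [pa, Bool.or_eq_true, beq_iff_eq] at h
    exact h
  · simp only [pa, List.any_eq_true, Bool.and_eq_true, beq_iff_eq, List.mem_finRange, true_and] at h
    exact h
  · simp only [pa, List.any_eq_true, Bool.and_eq_true, beq_iff_eq, List.mem_finRange, true_and] at h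
    exact h
  · simp only [pa, Bool.or_eq_true, beq_iff_eq] at h
    exact h

/-- the check of a model -/
def chk (t : Fin 4 → Fin 4) (m : Fin 9 → (Fin 5 ⊕ Fin 5) × (Fin 5 ⊕ Fin 5)) : Prop :=
  (∀ i j : Fin 9, i ≠ j → (m i).1 ≠ (m j).1 ∧ (m i).1 ≠ (m j).2 ∧ (m i).2 ≠ (m j).1 ∧
    (m i).2 ≠ (m j).2) ∧
  (∀ i, (m i).1 = (m i).2 ∨ pa t (m i).1 (m i).2 = true) ∧
  ∀ i j : Fin 9, Disjoint (inv9 i) (inv9 j) → pa t (m i).1 (m j).1 = true ∨
    pa t (m i).1 (m j).2 = true ∨ pa t (m i).2 (m j).1 = true ∨ pa t (m i).2 (m j).2 = true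

instance (t : Fin 4 → Fin 4) (m : Fin 9 → (Fin 5 ⊕ Fin 5) × (Fin 5 ⊕ Fin 5)) :
    Decidable (chk t m) := by
  unfold chk
  infer_instance

theorem chk_all : ∀ a b c d : Fin 4, [a, b, c, d].Nodup →
    ¬ ((({a, b} : Finset (Fin 4)) = {0, 1} ∨ ({a, b} : Finset (Fin 4)) = {2, 3}) ∨
      (({a, c} : Finset (Fin 4)) = {0, 2} ∨ ({a, c} : Finset (Fin 4)) = {1, 3})) →
    chk ![a, b, c, d] (mdl a b c) := by
  decide +kernel

theorem star_of_chk {τ : Equiv.Perm (Fin 4)} {m : Fin 9 → (Fin 5 ⊕ Fin 5) × (Fin 5 ⊕ Fin 5)}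
    (h : chk τ m) : Minor starG (pent τ) := by
  obtain ⟨h1, h2, h3⟩ := h
  choose idx hidx using fun s : {s : Finset (Fin 5) // s.card = 2 ∧ s ≠ {0, 1}} =>
    inv9_surj s.1 s.2.1 s.2.2
  have hinj : ∀ s t, s ≠ t → idx s ≠ idx t := by
    intro s t hst h
    apply hst
    apply Subtype.ext
    rw [← hidx s, ← hidx t, h]
  refine ⟨fun s => {(m (idx s)).1, (m (idx s)).2}, ?_, ?_, ?_⟩
  · intro s t hst
    obtain ⟨k1, k2, k3, k4⟩ := h1 _ _ (hinj s t hst)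
    rw [Set.disjoint_left]
    rintro x (rfl | rfl) (h | h)
    · exact k1 h
    · exact k2 h
    · exact k3 h
    · exact k4 h
  · intro s
    show ((pent τ).induce {(m (idx s)).1, (m (idx s)).2}).Connected
    rcases h2 (idx s) with h | h
    · rw [← h, Set.pair_eq_singleton]
      exact (conn _ _).1 _
    · exact SimpleGraph.induce_pair_connected_of_adj (pa_adj h)
  · intro s t hst
    have hd : Disjoint (inv9 (idx s)) (inv9 (idx t)) := by
      rw [hidx, hidx]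
      exact hst
    rcases h3 _ _ hd with h | h | h | h
    · exact ⟨_, Or.inl rfl, _, Or.inl rfl, pa_adj h⟩
    · exact ⟨_, Or.inl rfl, _, Or.inr rfl, pa_adj h⟩
    · exact ⟨_, Or.inr rfl, _, Or.inl rfl, pa_adj h⟩
    · exact ⟨_, Or.inr rfl, _, Or.inr rfl, pa_adj h⟩

theorem star_of_wild {τ : Equiv.Perm (Fin 4)} (h : ¬ Tame τ) : Minor starG (pent τ) := by
  have hn : [τ 0, τ 1, τ 2, τ 3].Nodup := by
    have : [τ 0, τ 1, τ 2, τ 3] = [(0 : Fin 4), 1, 2, 3].map τ := rfl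
    rw [this]
    exact List.Nodup.map τ.injective (by decide)
  have h1 := chk_all (τ 0) (τ 1) (τ 2) (τ 3) hn h
  have e : ![τ 0, τ 1, τ 2, τ 3] = τ := by
    funext k
    fin_cases k <;> rfl
  rw [e] at h1
  exact star_of_chk h1

theorem pet_to_star {V : Type} {G : SimpleGraph V} (h : PetMinor G) : Minor starG G := by
  obtain ⟨f, f1, f2, f3⟩ := h
  refine ⟨fun s => f ⟨s.1, s.2.1⟩, ?_, fun s => f2 _, fun s t hst => f3 _ _ hst⟩
  intro s t hst
  exact f1 _ _ (fun h => hst (Subtype.ext (Subtype.mk.inj h)))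

/-- a graph without the minor `P*` and without tame linked pentagons has no linked pentagons -/
theorem noLink_of {V : Type} {G : SimpleGraph V} (hS : ¬ Minor starG G)
    (hT : ∀ τ, Tame τ → ¬ Minor (pent τ) G) : NoLink V G := by
  intro τ hτ
  by_cases h : Tame τ
  · exact hT τ h hτ
  · exact hS (minor_trans (star_of_wild h) hτ)

end Pool.Agent.U881.HB
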