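import Pool.Agent.U881.HB.Star

/-!
# `r`-graphs without a minor `P*`
-/

set_option autoImplicit false
set_option linter.unusedSectionVars false

namespace Pool.Agent.U881.HB

open Finset H76FC H76TW H76TX H76TY Pool.Agent.W315.LB Pool.Agent.TH583.HB
open Pool.Agent.TH100.LV (EvenPerms TwoColour TwoMeeting cover_of)

theorem cover_star {V0 : Type} [Finite V0] (G0 : SimpleGraph V0) (hP0 : ¬ Minor starG G0)
    (hS : Sum3 Piece6 V0 G0) : ∀ (n : ℕ) (V : Type) [Fintype V] [DecidableEq V],
    Fintype.card V = n → ∀ (r : ℕ) (p : V → V → ℕ), RGraph r p → Minor (gr p) G0 →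
    Cover 1 r p := by
  intro n
  induction n using Nat.strong_induction_on with
  | _ n ih =>
  intro V _ _ hV r p hp hm
  refine main Pool.Agent.W209.LB.conn3 Pool.Agent.W427.LB.bicrit transport H76TW.bip H76TW.span
    tight2 connSide (fun W _ H => Fintype.card W ≤ n ∧ Minor H G0)
    (fun V _ _ r p hc hp => eight' V r p (by omega) hp) ?_ n V hV r p hp ?_
  · intro V' _ _ r' p' hr' hp' hnt hB hk
    obtain ⟨hcard, hm'⟩ := hk
    have hPs : ¬ Minor starG (gr p') := fun h => hP0 (minor_trans h hm')
    have hPet : ¬ PetMinor (gr p') := fun h => hPs (pet_to_star h)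
    have hsep : Sep3 (gr p') → Cover 1 r' p' := by
      intro hs
      refine cover_sep3 hr' hp' (conn3_of_brick hB) ?_ hs
      intro W _ _ q hW hq hmq
      exact ih _ (by omega) W rfl r' q hq (minor_trans hmq hm')
    by_cases h13 : Fintype.card V' ≤ 13
    · exact Or.inl (thirteen _ h13 V' rfl r' p' hp' hPet)
    rcases sum3_lift hS inferInstance V' (gr p') (conn3_of_brick hB) (by omega) hm' with
      hs | ⟨V'', hfin, G'', hG'' | hG'' | hG'', hm''⟩
    · exact Or.inl (hsep hs)
    · by_cases hs : Sep3 (gr p')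
      · exact Or.inl (hsep hs)
      · have hL : NoLink V' (gr p') :=
          noLink_of hPs (fun τ hτ h => hG'' τ hτ (minor_trans h hm''))
        rcases settled_of_noLink hL V' (gr p') hB (minor_refl _) hPet hs with (hk | hk) | hk
        · exact Or.inl (cover_known hp' hk)
        · exact Or.inr (step hr' hp' hnt hk)
        · exact Or.inl (cover_of hp' hk)
    · have := hfin
      rcases step_hubs hr' hp' hnt (conn3_of_brick hB) (by omega) (fourHubs_minor hG'' hm'') with
        h | h
      · exact Or.inr h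
      · exact absurd (petMinor_of_sub h) hPet
    · have := hfin
      rcases piece_kf hB (by omega) hPet hG'' hm'' with hs | (hk | hk) | hk
      · exact Or.inl (hsep hs)
      · exact Or.inl (cover_known hp' hk)
      · exact Or.inr (step hr' hp' hnt hk)
      · exact Or.inl (cover_of hp' hk)
  · intro W _ H _ hH
    have h1 := minor_of_odd hH
    exact ⟨(minor_card h1).trans hV.le, minor_trans h1 hm⟩

/-- perfect matchings that cover every edge once are the colour classes of a colouring -/
theorem colouring_of_cover {r n m : ℕ} {ends : Fin m → Sym2 (Fin n)} (h : MCover 1 r ends) :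
    ∃ c : Fin m → Fin r, ∀ e e', e ≠ e' → (∃ v, v ∈ ends e ∧ v ∈ ends e') → c e ≠ c e' := by
  obtain ⟨M, hM, hc⟩ := h
  have h1 : ∀ e, ∃ i, e ∈ M i := by
    intro e
    have h2 := hc e
    rw [Set.ncard_eq_one] at h2
    obtain ⟨i, hi⟩ := h2
    exact ⟨i, (Set.ext_iff.1 hi i).2 rfl⟩
  choose c hcM using h1
  refine ⟨fun e => Fin.cast (one_mul r) (c e), ?_⟩
  rintro e e' hne ⟨v, hv, hv'⟩ hcc
  have h3 : c e = c e' := Fin.cast_injective _ hcc
  obtain ⟨e0, _, hu⟩ := hM (c e) v
  have h4 := hu e ⟨hcM e, hv⟩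
  have h5 := hu e' ⟨h3 ▸ hcM e', hv'⟩
  exact hne (h4.trans h5.symm)

theorem gr_minor {n m : ℕ} {ends : Fin m → Sym2 (Fin n)} :
    Minor (gr (mult ends)) (SimpleGraph.fromEdgeSet (Set.range ends)) := by
  refine minor_sub id Function.injective_id ?_
  intro a b hab
  have hmul : ∀ a b : Fin n, mult ends a b ≠ 0 → ∃ e, ends e = s(a, b) := by
    intro a b huv
    unfold mult at huv
    obtain ⟨e, he⟩ := Finset.card_pos.1 (Nat.pos_of_ne_zero huv)
    exact ⟨e, (Finset.mem_filter.1 he).2⟩
  unfold gr at hab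
  rw [SimpleGraph.fromRel_adj] at hab
  rw [SimpleGraph.fromEdgeSet_adj]
  refine ⟨?_, hab.1⟩
  rcases hab.2 with h1 | h1
  · obtain ⟨e, he⟩ := hmul a b (by omega)
    exact ⟨e, he⟩
  · obtain ⟨e, he⟩ := hmul b a (by omega)
    exact ⟨e, by simp only [id]; rw [he, Sym2.eq_swap]⟩

/-- smallest counterexamples in a class with an excluded minor of the Petersen graph -/
theorem smallest {I : Type} (F : SimpleGraph I)
    (hF : ∀ (W : Type) (G : SimpleGraph W), PetMinor G → Minor F G)
    {V : Type} [Fintype V] [DecidableEq V] {r : ℕ} {p : V → V → ℕ} (hp : RGraph r p)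
    (hFp : ¬ Minor F (gr p)) (hno : ¬ Cover 1 r p)
    (hmin : ∀ (W : Type) [Fintype W] [DecidableEq W] (q : W → W → ℕ),
      Fintype.card W < Fintype.card V → RGraph r q → ¬ Minor F (gr q) → Cover 1 r q) :
    NoTight r p ∧ Brick (gr p) ∧ 14 ≤ Fintype.card V ∧ ¬ Sep3 (gr p) := by
  have hr : 1 ≤ r := by
    rcases Nat.eq_zero_or_pos r with h | h
    · subst h
      exact absurd (H76TX.cover_zero hp) hno
    · exact h
  have hc4 : ¬ Fintype.card V ≤ 4 := fun h => hno (eight' V r p (by omega) hp)
  have hVe : Even (Fintype.card V) := by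
    by_contra hodd
    have := hp.odd univ (by simpa using hodd)
    simp [H76FC.cut] at this
    omega
  have hc6 : 6 ≤ Fintype.card V := by
    obtain ⟨m, hm⟩ := hVe
    omega
  have hcon : (gr p).Connected := by
    by_contra hcon
    exact hno (disc' (fun V G => ¬ Minor F G)
      (fun A B H G i hi hadj h h' => h (minor_trans h' (minor_sub i hi hadj))) 1 r p hp
      hcon hFp (fun W _ _ q hW hq hnq => hmin W q hW hq hnq))
  have hnt : NoTight r p := by
    by_contra hnt
    apply hno
    unfold NoTight at hnt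
    push Not at hnt
    obtain ⟨X, hX, hc, hX1, hX2⟩ := hnt
    have hadd' : X.card + Xᶜ.card = Fintype.card V := Finset.card_add_card_compl X
    have hodd' : Odd Xᶜ.card := by
      rw [← hadd'] at hVe
      exact (Nat.even_add'.1 hVe).1 hX
    have hcardX : Fintype.card {v // v ∈ X} + Fintype.card {v // v ∉ X}
        = Fintype.card V := by
      rw [← Fintype.card_sum]
      exact Fintype.card_congr (Equiv.sumCompl (· ∈ X))
    have hcX : Fintype.card {v // v ∈ X} = X.card := by simp
    have hcX' : Fintype.card {v // v ∉ X} = Xᶜ.card := by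
      rw [hcX] at hcardX
      omega
    have hX3 : 3 ≤ X.card := by obtain ⟨c, hc'⟩ := hX; omega
    have hX3' : 3 ≤ Xᶜ.card := by obtain ⟨c, hc'⟩ := hodd'; omega
    set e : V ≃ {v // v ∈ X} ⊕ {v // v ∉ X} := (Equiv.sumCompl (· ∈ X)).symm with he
    set p' : {v // v ∈ X} ⊕ {v // v ∉ X} → {v // v ∈ X} ⊕ {v // v ∉ X} → ℕ :=
      fun a b => p (e.symm a) (e.symm b) with hp'
    have hpe : ∀ u v, p u v = p' (e u) (e v) := by intro u v; simp [hp']
    obtain ⟨h1, h2, h3'⟩ := transport V _ e p p' 1 r hpe
    have hRp' := h1 hp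
    have hgr : gr p' = (gr p).comap e.symm := gr_comap e p
    have hcon' : (gr p').Connected := by
      rw [hgr]
      exact (SimpleGraph.Iso.comap e.symm (gr p)).connected_iff.2 hcon
    have hnp' : ¬ Minor F (gr p') := by
      intro h
      refine hFp (minor_trans h (minor_sub e.symm e.symm.injective ?_))
      intro a b hab
      rw [hgr, SimpleGraph.comap_adj] at hab
      exact hab
    have hsum : ∑ u, ∑ v, p' (.inl u) (.inr v) = r := by
      rw [← hc]
      have hl : ∀ u : {v // v ∈ X}, e.symm (.inl u) = u.1 := fun u => rfl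
      have hr : ∀ u : {v // v ∉ X}, e.symm (.inr u) = u.1 := fun u => rfl
      simp only [hp', hl, hr, cut]
      rw [← Finset.sum_coe_sort X]
      apply Finset.sum_congr rfl
      intro u _
      exact (Finset.sum_subtype (Xᶜ) (fun x => by simp) (fun v => p u.1 v)).symm
    have hO1 : Odd (Fintype.card {v // v ∈ X}) := by rw [hcX]; exact hX
    have hO2 : Odd (Fintype.card {v // v ∉ X}) := by rw [hcX']; exact hodd'
    obtain ⟨hs1', hs2'⟩ := connSide _ _ r p' (by omega) hRp' hcon' hO1 hO2 hsum
    apply h2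
    refine tight2 _ _ 1 r p' hRp' hO1 hO2 hsum ?_ ?_
    · intro hR
      refine hmin _ _ ?_ hR (fun h => hnp' (minor_trans h (minor_of_odd
        ((contrOdd _ {v // v ∈ X} {v // v ∉ X} _ p' hRp'.symm).1 hO2 hs2' (oddMinor_self _)))))
      rw [Fintype.card_option, hcX]
      omega
    · intro hR
      refine hmin _ _ ?_ hR (fun h => hnp' (minor_trans h (minor_of_odd
        ((contrOdd _ {v // v ∈ X} {v // v ∉ X} _ p' hRp'.symm).2 hO1 hs1' (oddMinor_self _)))))
      rw [Fintype.card_option, hcX']
      omega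
  have hbrick : Brick (gr p) := by
    rcases Pool.Agent.W427.LB.bicrit V r p hc6 hr hp hnt hcon with ⟨Z, hZ1, hZ2⟩ | hM
    · exfalso
      apply hno
      obtain ⟨h1, h2⟩ := H76TW.span V 1 r p hp
      apply h2
      have h5 := H76TW.bip V r p univ Z h1 (Finset.subset_univ _)
        (by rw [Finset.card_univ]; exact hZ1) hZ2
      exact H76TW.col_congr h5 (one_mul _).symm (fun u v => (one_mul _).symm)
    · intro u v huv
      refine ⟨Pool.Agent.W209.LB.conn3 V r p hc6 hr hp hnt hcon u v huv, ?_⟩
      obtain ⟨M, hM1, hM2, hM3⟩ := hM u v huv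
      refine ⟨M, hM1, hM2, ?_⟩
      intro x hxu hxv
      refine Y13.adj_gr p x (M x) ?_ (hM3 x hxu hxv)
      intro h
      have h4 := hM3 x hxu hxv
      rw [← h, hp.loopless] at h4
      exact lt_irrefl 0 h4
  refine ⟨hnt, hbrick, ?_, ?_⟩
  · by_contra h
    exact hno (thirteen _ (by omega) V rfl r p hp (fun h' => hFp (hF V _ h')))
  · intro hs
    refine hno (cover_sep3 hr hp (conn3_of_brick hbrick) ?_ hs)
    intro W _ _ q hW hq hm
    exact hmin W q hW hq (fun h => hFp (minor_trans h hm))

end Pool.Agent.U881.HB
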