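import Pool.Agent.U881.HB.Link3

/-!
# The Petersen graph minus a vertex, tame permutations
-/

set_option autoImplicit false

namespace Pool.Agent.U881.HB

open Finset

/-- the Petersen graph minus a vertex: the 2-subsets of a 5-set other than `{0, 1}`, disjoint ones are
adjacent -/
def starG : SimpleGraph {s : Finset (Fin 5) // s.card = 2 ∧ s ≠ {0, 1}} where
  Adj i j := Disjoint i.1 j.1
  symm := ⟨fun _ _ h => h.symm⟩
  loopless := ⟨fun i h => by
    have h1 := disjoint_self.1 h
    have h2 := i.2.1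
    rw [h1] at h2
    simp at h2⟩

/-- the permutation maps the pair `{01, 23}` or the pair `{02, 13}` to itself -/
def Tame (τ : Equiv.Perm (Fin 4)) : Prop :=
  (({τ 0, τ 1} : Finset (Fin 4)) = {0, 1} ∨ ({τ 0, τ 1} : Finset (Fin 4)) = {2, 3}) ∨
  (({τ 0, τ 2} : Finset (Fin 4)) = {0, 2} ∨ ({τ 0, τ 2} : Finset (Fin 4)) = {1, 3})

/-- the pieces: no tame linked pentagons, four hubs, or the earlier pieces -/
def Piece6 (V : Type) (G : SimpleGraph V) : Prop :=
  (∀ τ, Tame τ → ¬ Minor (pent τ) G) ∨ FourHubs V G ∨ Piece V G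

end Pool.Agent.U881.HB
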