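import Pool.Agent.U881.HB.Vcut

/-!
# Sums of order at most three and minors
-/

set_option autoImplicit false

namespace Pool.Agent.U881.HB

open Finset H76FC H76TW H76TX H76TY Pool.Agent.W315.LB

/-- `G[A]` with all edges between vertices of `X` -/
def side {V : Type} (G : SimpleGraph V) (A X : Set V) : SimpleGraph A where
  Adj u v := u ≠ v ∧ (G.Adj u.1 v.1 ∨ (u.1 ∈ X ∧ v.1 ∈ X))
  symm := ⟨fun _ _ h => ⟨h.1.symm, h.2.imp (fun h => h.symm) (fun h => ⟨h.2, h.1⟩)⟩⟩
  loopless := ⟨fun _ h => h.1 rfl⟩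

/-- `G[A]` with all edges between vertices of `X` and one new vertex adjacent to the vertices of `X` -/
def sidePlus {V : Type} (G : SimpleGraph V) (A X : Set V) : SimpleGraph (Option A) where
  Adj u v := match u, v with
    | some u, some v => (side G A X).Adj u v
    | some u, none => u.1 ∈ X
    | none, some v => v.1 ∈ X
    | none, none => False
  symm := ⟨fun u v h => by
    cases u <;> cases v
    · exact h
    · exact h
    · exact h
    · exact SimpleGraph.Adj.symm (G := side G A X) h⟩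
  loopless := ⟨fun u h => by
    cases u
    · exact h
    · exact h.1 rfl⟩

/-- the graphs obtained from the class `K` by sums of order at most three: `G` is the union of `G[A]` and
`G[B]`, where `A` and `B` share at most two (three) vertices, and both sides, completed on the common
vertices (and with one new vertex adjacent to the common vertices), are in the class -/
inductive Sum3 (K : (V : Type) → SimpleGraph V → Prop) : (V : Type) → SimpleGraph V → Prop
  | base (V : Type) (G : SimpleGraph V) (h : K V G) : Sum3 K V G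
  | two (V : Type) (G : SimpleGraph V) (A B : Set V) (hV : A ∪ B = Set.univ)
      (hAB : ∀ a ∈ A, ∀ b ∈ B, G.Adj a b → a ∈ B ∨ b ∈ A) (hX : (A ∩ B).encard ≤ 2)
      (h1 : Sum3 K A (side G A (A ∩ B))) (h2 : Sum3 K B (side G B (A ∩ B))) : Sum3 K V G
  | three (V : Type) (G : SimpleGraph V) (A B : Set V) (hV : A ∪ B = Set.univ)
      (hAB : ∀ a ∈ A, ∀ b ∈ B, G.Adj a b → a ∈ B ∨ b ∈ A) (hX : (A ∩ B).encard ≤ 3)
      (h1 : Sum3 K (Option A) (sidePlus G A (A ∩ B)))
      (h2 : Sum3 K (Option B) (sidePlus G B (A ∩ B))) : Sum3 K V G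

section
variable {V : Type} {G : SimpleGraph V} {A B : Set V}

/-- the claim for walks in a connected set -/
theorem side_step (hV : A ∪ B = Set.univ)
    (hAB : ∀ a ∈ A, ∀ b ∈ B, G.Adj a b → a ∈ B ∨ b ∈ A) {F : Set V} {u0 : V} (hu0 : u0 ∈ F)
    (hu0A : u0 ∈ A) :
    ∀ (a b : F) (_ : (G.induce F).Walk a b),
      ((∀ h : a.1 ∈ A, ((side G A (A ∩ B)).induce {x : A | x.1 ∈ F}).Reachable
        ⟨⟨u0, hu0A⟩, hu0⟩ ⟨⟨a.1, h⟩, a.2⟩) ∧
        (a.1 ∉ A → ∃ (x : V) (hx : x ∈ A) (_ : x ∈ B) (hxF : x ∈ F),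
          ((side G A (A ∩ B)).induce {x : A | x.1 ∈ F}).Reachable
            ⟨⟨u0, hu0A⟩, hu0⟩ ⟨⟨x, hx⟩, hxF⟩)) →
      ((∀ h : b.1 ∈ A, ((side G A (A ∩ B)).induce {x : A | x.1 ∈ F}).Reachable
        ⟨⟨u0, hu0A⟩, hu0⟩ ⟨⟨b.1, h⟩, b.2⟩) ∧
        (b.1 ∉ A → ∃ (x : V) (hx : x ∈ A) (_ : x ∈ B) (hxF : x ∈ F),
          ((side G A (A ∩ B)).induce {x : A | x.1 ∈ F}).Reachable
            ⟨⟨u0, hu0A⟩, hu0⟩ ⟨⟨x, hx⟩, hxF⟩)) := by
  intro a b w
  induction w with
  | nil => exact id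
  | @cons a c b hac w ih =>
    intro ha
    apply ih
    have hadj : G.Adj a.1 c.1 := hac
    have hB : ∀ x, x ∉ A → x ∈ B := by
      intro x hx
      have : x ∈ A ∪ B := hV ▸ Set.mem_univ x
      exact this.resolve_left hx
    constructor
    · intro hc
      by_cases haA : a.1 ∈ A
      · refine (ha.1 haA).trans (SimpleGraph.Adj.reachable ?_)
        exact ⟨fun h => hadj.ne (congrArg (fun t : A => t.1) h), Or.inl hadj⟩
      · obtain ⟨x, hx, hxB, hxF, hr⟩ := ha.2 haA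
        have hcB : c.1 ∈ B := (hAB c.1 hc a.1 (hB _ haA) hadj.symm).resolve_right haA
        by_cases hxc : x = c.1
        · subst hxc
          exact hr
        · refine hr.trans (SimpleGraph.Adj.reachable ?_)
          exact ⟨fun h => hxc (congrArg (fun t : A => t.1) h), Or.inr ⟨⟨hx, hxB⟩, ⟨hc, hcB⟩⟩⟩
    · intro hc
      by_cases haA : a.1 ∈ A
      · have haB : a.1 ∈ B := (hAB a.1 haA c.1 (hB _ hc) hadj).resolve_right hc
        exact ⟨a.1, haA, haB, a.2, ha.1 haA⟩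
      · exact ha.2 haA

theorem side_all (hV : A ∪ B = Set.univ)
    (hAB : ∀ a ∈ A, ∀ b ∈ B, G.Adj a b → a ∈ B ∨ b ∈ A) {F : Set V}
    (hF : (G.induce F).Connected) {u0 : V} (hu0 : u0 ∈ F) (hu0A : u0 ∈ A) (b : F) :
    (∀ h : b.1 ∈ A, ((side G A (A ∩ B)).induce {x : A | x.1 ∈ F}).Reachable
        ⟨⟨u0, hu0A⟩, hu0⟩ ⟨⟨b.1, h⟩, b.2⟩) ∧
        (b.1 ∉ A → ∃ (x : V) (hx : x ∈ A) (_ : x ∈ B) (hxF : x ∈ F),
          ((side G A (A ∩ B)).induce {x : A | x.1 ∈ F}).Reachable
            ⟨⟨u0, hu0A⟩, hu0⟩ ⟨⟨x, hx⟩, hxF⟩) := by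
  obtain ⟨w⟩ := hF.preconnected ⟨u0, hu0⟩ b
  refine side_step hV hAB hu0 hu0A _ _ w ⟨fun _ => SimpleGraph.Reachable.refl _, fun h => ?_⟩
  exact absurd hu0A h

theorem side_conn (hV : A ∪ B = Set.univ)
    (hAB : ∀ a ∈ A, ∀ b ∈ B, G.Adj a b → a ∈ B ∨ b ∈ A) {F : Set V}
    (hF : (G.induce F).Connected) (hne : (F ∩ A).Nonempty) :
    ((side G A (A ∩ B)).induce {x : A | x.1 ∈ F}).Connected := by
  obtain ⟨u0, hu0, hu0A⟩ := hne
  rw [SimpleGraph.connected_iff_exists_forall_reachable]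
  refine ⟨⟨⟨u0, hu0A⟩, hu0⟩, ?_⟩
  rintro ⟨⟨y, hy⟩, hyF⟩
  exact (side_all hV hAB hF hu0 hu0A ⟨y, hyF⟩).1 hy

theorem side_meet (hV : A ∪ B = Set.univ)
    (hAB : ∀ a ∈ A, ∀ b ∈ B, G.Adj a b → a ∈ B ∨ b ∈ A) {F : Set V}
    (hF : (G.induce F).Connected) (hne : (F ∩ A).Nonempty) {y : V} (hy : y ∈ F) (hyA : y ∉ A) :
    ∃ x ∈ F, x ∈ A ∧ x ∈ B := by
  obtain ⟨u0, hu0, hu0A⟩ := hne
  obtain ⟨x, hx, hxB, hxF, _⟩ := (side_all hV hAB hF hu0 hu0A ⟨y, hy⟩).2 hyA
  exact ⟨x, hxF, hx, hxB⟩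

theorem side_adj (hV : A ∪ B = Set.univ)
    (hAB : ∀ a ∈ A, ∀ b ∈ B, G.Adj a b → a ∈ B ∨ b ∈ A) {F F' : Set V}
    (hF : (G.induce F).Connected) (hF' : (G.induce F').Connected) (hne : (F ∩ A).Nonempty)
    (hne' : (F' ∩ A).Nonempty) (hdis : Disjoint F F') {x y : V} (hx : x ∈ F) (hy : y ∈ F')
    (hxy : G.Adj x y) :
    ∃ a ∈ {x : A | x.1 ∈ F}, ∃ b ∈ {x : A | x.1 ∈ F'}, (side G A (A ∩ B)).Adj a b := by
  have hB : ∀ x, x ∉ A → x ∈ B := by
    intro x hx
    have : x ∈ A ∪ B := hV ▸ Set.mem_univ x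
    exact this.resolve_left hx
  have fin : ∀ a b : V, a ∈ F → b ∈ F' → (a ∈ A ∧ a ∈ B) → (b ∈ A ∧ b ∈ B) →
      ∃ a ∈ {x : A | x.1 ∈ F}, ∃ b ∈ {x : A | x.1 ∈ F'}, (side G A (A ∩ B)).Adj a b := by
    intro a b ha hb ha' hb'
    refine ⟨⟨a, ha'.1⟩, ha, ⟨b, hb'.1⟩, hb, ?_, Or.inr ⟨ha', hb'⟩⟩
    intro h
    have h2 : a = b := congrArg Subtype.val h
    subst h2
    exact Set.disjoint_left.1 hdis ha hb
  by_cases hxA : x ∈ A
  · by_cases hyA : y ∈ A
    · exact ⟨⟨x, hxA⟩, hx, ⟨y, hyA⟩, hy, fun h => hxy.ne (congrArg Subtype.val h), Or.inl hxy⟩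
    · obtain ⟨z, hz, hz'⟩ := side_meet hV hAB hF' hne' hy hyA
      exact fin x z hx hz ⟨hxA, (hAB x hxA y (hB _ hyA) hxy).resolve_right hyA⟩ hz'
  · obtain ⟨z, hz, hz'⟩ := side_meet hV hAB hF hne hx hxA
    by_cases hyA : y ∈ A
    · exact fin z y hz hy hz' ⟨hyA, (hAB y hyA x (hB _ hxA) hxy.symm).resolve_right hxA⟩
    · obtain ⟨z', hz1, hz2⟩ := side_meet hV hAB hF' hne' hy hyA
      exact fin z z' hz hz1 hz' hz2

theorem minor_side (hV : A ∪ B = Set.univ)
    (hAB : ∀ a ∈ A, ∀ b ∈ B, G.Adj a b → a ∈ B ∨ b ∈ A) {W : Type} {H : SimpleGraph W}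
    {f : W → Set V} (f1 : ∀ a b, a ≠ b → Disjoint (f a) (f b))
    (f2 : ∀ a, (G.induce (f a)).Connected)
    (f3 : ∀ a b, H.Adj a b → ∃ x ∈ f a, ∃ y ∈ f b, G.Adj x y)
    (hne : ∀ w, (f w ∩ A).Nonempty) : Minor H (side G A (A ∩ B)) := by
  refine ⟨fun w => {x : A | x.1 ∈ f w}, ?_, fun w => side_conn hV hAB (f2 w) (hne w), ?_⟩
  · intro a b hab
    rw [Set.disjoint_left]
    intro x hx hx'
    exact Set.disjoint_left.1 (f1 a b hab) hx hx'
  · intro a b hab
    obtain ⟨x, hx, y, hy, hxy⟩ := f3 a b hab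
    exact side_adj hV hAB (f2 a) (f2 b) (hne a) (hne b) (f1 a b hab.ne) hx hy hxy

theorem minor_sidePlus (hV : A ∪ B = Set.univ)
    (hAB : ∀ a ∈ A, ∀ b ∈ B, G.Adj a b → a ∈ B ∨ b ∈ A) {W : Type} {H : SimpleGraph W}
    {f : W → Set V} (f1 : ∀ a b, a ≠ b → Disjoint (f a) (f b))
    (f2 : ∀ a, (G.induce (f a)).Connected)
    (f3 : ∀ a b, H.Adj a b → ∃ x ∈ f a, ∃ y ∈ f b, G.Adj x y)
    (hne : ∀ w w', ¬ (f w ∩ A).Nonempty → ¬ (f w' ∩ A).Nonempty → w = w') :
    Minor H (sidePlus G A (A ∩ B)) := by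
  classical
  have hB : ∀ x, x ∉ A → x ∈ B := by
    intro x hx
    have : x ∈ A ∪ B := hV ▸ Set.mem_univ x
    exact this.resolve_left hx
  set g : W → Set (Option A) := fun w =>
    if (f w ∩ A).Nonempty then some '' {x : A | x.1 ∈ f w} else {none} with hg
  have g1 : ∀ w, (f w ∩ A).Nonempty → g w = some '' {x : A | x.1 ∈ f w} := fun w h => if_pos h
  have g0 : ∀ w, ¬ (f w ∩ A).Nonempty → g w = {none} := fun w h => if_neg h
  refine ⟨g, ?_, ?_, ?_⟩
  · intro a b hab
    by_cases ha : (f a ∩ A).Nonempty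
    · by_cases hb : (f b ∩ A).Nonempty
      · rw [g1 a ha, g1 b hb, Set.disjoint_image_iff (Option.some_injective _), Set.disjoint_left]
        intro x hx hx'
        exact Set.disjoint_left.1 (f1 a b hab) hx hx'
      · rw [g1 a ha, g0 b hb, Set.disjoint_singleton_right]
        rintro ⟨x, _, hx⟩
        cases hx
    · by_cases hb : (f b ∩ A).Nonempty
      · rw [g0 a ha, g1 b hb, Set.disjoint_singleton_left]
        rintro ⟨x, _, hx⟩
        cases hx
      · exact absurd (hne a b ha hb) hab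
  · intro a
    by_cases ha : (f a ∩ A).Nonempty
    · rw [g1 a ha]
      refine SimpleGraph.Connected.map (G := (side G A (A ∩ B)).induce {x : A | x.1 ∈ f a})
        (H := (sidePlus G A (A ∩ B)).induce (some '' {x : A | x.1 ∈ f a}))
        (f := ⟨fun x => ⟨some x.1, ⟨x.1, x.2, rfl⟩⟩, fun h => h⟩) ?_ (side_conn hV hAB (f2 a) ha)
      rintro ⟨y, x, hx, rfl⟩
      exact ⟨⟨x, hx⟩, rfl⟩
    · rw [g0 a ha]
      exact (conn _ _).1 _
  · have key : ∀ a b, H.Adj a b → ¬ (f a ∩ A).Nonempty → ∃ x ∈ g a, ∃ y ∈ g b,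
        (sidePlus G A (A ∩ B)).Adj x y := by
      intro a b hab ha
      obtain ⟨x, hx, y, hy, hxy⟩ := f3 a b hab
      have hb : (f b ∩ A).Nonempty := by
        by_contra hb
        exact hab.ne (hne a b ha hb)
      have hxA : x ∉ A := fun h => ha ⟨x, hx, h⟩
      have hz : ∃ z ∈ f b, z ∈ A ∧ z ∈ B := by
        by_cases hyA : y ∈ A
        · exact ⟨y, hy, hyA, (hAB y hyA x (hB _ hxA) hxy.symm).resolve_right hxA⟩
        · exact side_meet hV hAB (f2 b) hb hy hyA
      obtain ⟨z, hz, hzA, hzB⟩ := hz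
      rw [g0 a ha, g1 b hb]
      exact ⟨none, rfl, some ⟨z, hzA⟩, ⟨⟨z, hzA⟩, hz, rfl⟩, ⟨hzA, hzB⟩⟩
    intro a b hab
    by_cases ha : (f a ∩ A).Nonempty
    · by_cases hb : (f b ∩ A).Nonempty
      · obtain ⟨x, hx, y, hy, hxy⟩ := f3 a b hab
        obtain ⟨u, hu, v, hv, huv⟩ :=
          side_adj hV hAB (f2 a) (f2 b) ha hb (f1 a b hab.ne) hx hy hxy
        rw [g1 a ha, g1 b hb]
        exact ⟨some u, ⟨u, hu, rfl⟩, some v, ⟨v, hv, rfl⟩, huv⟩
      · obtain ⟨x, hx, y, hy, hxy⟩ := key b a hab.symm hb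
        exact ⟨y, hy, x, hx, hxy.symm⟩
    · exact key a b hab ha

end

/-- a separation of order three with at least two vertices on both sides -/
def Sep3 {W : Type} [Fintype W] [DecidableEq W] (H : SimpleGraph W) : Prop :=
  ∃ P Q S : Finset W, Disjoint P Q ∧ Disjoint P S ∧ Disjoint Q S ∧ P ∪ Q ∪ S = univ ∧
    S.card = 3 ∧ 2 ≤ P.card ∧ 2 ≤ Q.card ∧ ∀ u ∈ P, ∀ v ∈ Q, ¬ H.Adj u v

/-- two vertices separate nothing -/
theorem no_sep2 {W : Type} [Fintype W] [DecidableEq W] {H : SimpleGraph W} (h3 : Conn3 H)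
    (hn : 6 ≤ Fintype.card W) {P Q S : Finset W} (hPQ : Disjoint P Q) (hPS : Disjoint P S)
    (hQS : Disjoint Q S) (hU : P ∪ Q ∪ S = univ) (hS : S.card ≤ 2)
    (hpq : ∀ u ∈ P, ∀ v ∈ Q, ¬ H.Adj u v) : P = ∅ ∨ Q = ∅ := by
  have hcard : Fintype.card W = P.card + Q.card + S.card := by
    rw [← Finset.card_univ, ← hU, Finset.card_union_of_disjoint, Finset.card_union_of_disjoint hPQ]
    rw [Finset.disjoint_union_left]
    exact ⟨hPS, hQS⟩
  have main : ∀ P Q : Finset W, Disjoint P Q → Disjoint P S → Disjoint Q S → P ∪ Q ∪ S = univ →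
      (∀ u ∈ P, ∀ v ∈ Q, ¬ H.Adj u v) → P.card ≤ Q.card →
      Fintype.card W = P.card + Q.card + S.card → P.Nonempty → False := by
    intro P Q hPQ hPS hQS hU hpq hle hcard hP
    have hPp := Finset.card_pos.2 hP
    obtain ⟨T, hTQ, hT⟩ := Finset.exists_subset_card_eq (s := Q) (n := 2 - S.card) (by omega)
    have hST : Disjoint S T := by
      rw [Finset.disjoint_left]
      intro x hx hxT
      exact Finset.disjoint_left.1 hQS (hTQ hxT) hx
    have hc2 : (S ∪ T).card = 2 := by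
      rw [Finset.card_union_of_disjoint hST, hT]; omega
    obtain ⟨x, y, hxy, hxyS⟩ := Finset.card_eq_two.1 hc2
    obtain ⟨p, hp⟩ := hP
    have hQT : (Q \ T).Nonempty := by
      rw [← Finset.card_pos, Finset.card_sdiff_of_subset hTQ, hT]; omega
    obtain ⟨z, hz⟩ := hQT
    rw [Finset.mem_sdiff] at hz
    have hmem : ∀ w, w ∈ S ∪ T ↔ w = x ∨ w = y := by
      intro w; rw [hxyS]; simp
    have hpST : p ∉ S ∪ T := by
      rw [Finset.mem_union]
      rintro (h | h)
      · exact Finset.disjoint_left.1 hPS hp h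
      · exact Finset.disjoint_left.1 hPQ hp (hTQ h)
    have hzST : z ∉ S ∪ T := by
      rw [Finset.mem_union]
      rintro (h | h)
      · exact Finset.disjoint_left.1 hQS hz.1 h
      · exact hz.2 h
    rw [hmem] at hpST hzST
    push Not at hpST hzST
    refine sep h3 (P : Set W) x y p z hxy hp hpST.1 hpST.2
      (fun h => Finset.disjoint_left.1 hPQ h hz.1) hzST.1 hzST.2 ?_
    intro u hu v huv hvx hvy
    have hv : v ∈ P ∪ Q ∪ S := hU ▸ Finset.mem_univ v
    rw [Finset.mem_union, Finset.mem_union] at hv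
    rcases hv with (hv | hv) | hv
    · exact hv
    · exact absurd huv (hpq u hu v hv)
    · exfalso
      rcases (hmem v).1 (Finset.mem_union_left _ hv) with h | h
      · exact hvx h
      · exact hvy h
  by_contra hcon
  push Not at hcon
  obtain ⟨hP, hQ⟩ := hcon
  rcases le_total P.card Q.card with h | h
  · exact main P Q hPQ hPS hQS hU hpq h hcard hP
  · refine main Q P hPQ.symm hQS hPS (by rw [Finset.union_comm Q P]; exact hU)
      (fun u hu v hv h => hpq v hv u hu h.symm) h (by omega) hQ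

/-- a 3-connected minor of a sum is a minor of a graph of the base class, or it has a separation of
order three -/
theorem sum3_lift {K : (V : Type) → SimpleGraph V → Prop} {V : Type} {G : SimpleGraph V}
    (hG : Sum3 K V G) : Finite V → ∀ (W : Type) [Fintype W] [DecidableEq W] (H : SimpleGraph W),
    Conn3 H → 6 ≤ Fintype.card W → Minor H G →
    Sep3 H ∨ ∃ (V' : Type) (_ : Finite V') (G' : SimpleGraph V'), K V' G' ∧ Minor H G' := by
  classical
  -- the separation of the minor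
  have key : ∀ {V : Type} {G : SimpleGraph V} {A B : Set V} (_ : A ∪ B = Set.univ)
      (_ : ∀ a ∈ A, ∀ b ∈ B, G.Adj a b → a ∈ B ∨ b ∈ A) (k : ℕ) (_ : (A ∩ B).encard ≤ k)
      (W : Type) [Fintype W] [DecidableEq W] (H : SimpleGraph W) (f : W → Set V)
      (_ : ∀ a b, a ≠ b → Disjoint (f a) (f b)) (_ : ∀ a, (G.induce (f a)).Connected)
      (_ : ∀ a b, H.Adj a b → ∃ x ∈ f a, ∃ y ∈ f b, G.Adj x y),
      ∃ P Q S : Finset W, Disjoint P Q ∧ Disjoint P S ∧ Disjoint Q S ∧ P ∪ Q ∪ S = univ ∧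
        S.card ≤ k ∧ (∀ u ∈ P, ∀ v ∈ Q, ¬ H.Adj u v) ∧ (∀ w, w ∉ Q → (f w ∩ A).Nonempty) ∧
        (∀ w, w ∉ P → (f w ∩ B).Nonempty) := by
    intro V G A B hV hAB k hk W _ _ H f f1 f2 f3
    have hB : ∀ x, x ∉ A → x ∈ B := by
      intro x hx
      have : x ∈ A ∪ B := hV ▸ Set.mem_univ x
      exact this.resolve_left hx
    have hA : ∀ x, x ∉ B → x ∈ A := by
      intro x hx
      have : x ∈ A ∪ B := hV ▸ Set.mem_univ x
      exact this.resolve_right hx
    have hfne : ∀ w, (f w).Nonempty := by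
      intro w
      obtain ⟨⟨x, hx⟩⟩ := (f2 w).nonempty
      exact ⟨x, hx⟩
    refine ⟨univ.filter (fun w => ∀ x ∈ f w, x ∉ B), univ.filter (fun w => ∀ x ∈ f w, x ∉ A),
      univ.filter (fun w => (f w ∩ (A ∩ B)).Nonempty), ?_, ?_, ?_, ?_, ?_, ?_, ?_, ?_⟩
    · rw [Finset.disjoint_left]
      intro w hw hw'
      rw [Finset.mem_filter] at hw hw'
      obtain ⟨x, hx⟩ := hfne w
      exact hw.2 x hx (hB x (hw'.2 x hx))
    · rw [Finset.disjoint_left]
      intro w hw hw'
      rw [Finset.mem_filter] at hw hw'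
      obtain ⟨x, hx, hx'⟩ := hw'.2
      exact hw.2 x hx hx'.2
    · rw [Finset.disjoint_left]
      intro w hw hw'
      rw [Finset.mem_filter] at hw hw'
      obtain ⟨x, hx, hx'⟩ := hw'.2
      exact hw.2 x hx hx'.1
    · ext w
      simp only [Finset.mem_union, Finset.mem_filter, Finset.mem_univ, true_and, iff_true]
      by_cases h1 : ∀ x ∈ f w, x ∉ B
      · exact Or.inl (Or.inl h1)
      · by_cases h2 : ∀ x ∈ f w, x ∉ A
        · exact Or.inl (Or.inr h2)
        · right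
          push Not at h1 h2
          obtain ⟨x, hx, hxB⟩ := h1
          obtain ⟨y, hy, hyA⟩ := h2
          by_cases hxA : x ∈ A
          · exact ⟨x, hx, hxA, hxB⟩
          · obtain ⟨z, hz, hzA, hzB⟩ := side_meet hV hAB (f2 w) ⟨y, hy, hyA⟩ hx hxA
            exact ⟨z, hz, hzA, hzB⟩
    · have h1 : ∀ w : W, ∃ x : V, (f w ∩ (A ∩ B)).Nonempty → x ∈ f w ∩ (A ∩ B) := by
        intro w
        by_cases h : (f w ∩ (A ∩ B)).Nonempty
        · obtain ⟨x, hx⟩ := h
          exact ⟨x, fun _ => hx⟩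
        · obtain ⟨x, _⟩ := hfne w
          exact ⟨x, fun h' => absurd h' h⟩
      choose g hg using h1
      have h2 : ((univ.filter (fun w => (f w ∩ (A ∩ B)).Nonempty) : Finset W) : Set W).encard
          ≤ (A ∩ B).encard := by
        refine Set.encard_le_encard_of_injOn (f := g) ?_ ?_
        · intro w hw
          rw [Finset.mem_coe, Finset.mem_filter] at hw
          exact (hg w hw.2).2
        · intro w hw w' hw' hww
          rw [Finset.mem_coe, Finset.mem_filter] at hw hw'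
          by_contra hne
          have h3 := (hg w hw.2).1
          rw [hww] at h3
          exact Set.disjoint_left.1 (f1 w w' hne) h3 (hg w' hw'.2).1
      rw [Set.encard_coe_eq_coe_finsetCard] at h2
      exact_mod_cast h2.trans hk
    · intro u hu v hv huv
      rw [Finset.mem_filter] at hu hv
      obtain ⟨x, hx, y, hy, hxy⟩ := f3 u v huv
      rcases hAB x (hA x (hu.2 x hx)) y (hB y (hv.2 y hy)) hxy with h | h
      · exact hu.2 x hx h
      · exact hv.2 y hy h
    · intro w hw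
      rw [Finset.mem_filter] at hw
      push Not at hw
      obtain ⟨x, hx, hxA⟩ := hw (Finset.mem_univ _)
      exact ⟨x, hx, hxA⟩
    · intro w hw
      rw [Finset.mem_filter] at hw
      push Not at hw
      obtain ⟨x, hx, hxB⟩ := hw (Finset.mem_univ _)
      exact ⟨x, hx, hxB⟩
  induction hG with
  | base V G h =>
    intro hfin W _ _ H _ _ hm
    exact Or.inr ⟨V, hfin, G, h, hm⟩
  | two V G A B hV hAB hX h1 h2 ih1 ih2 =>
    intro hfin W _ _ H h3 hn hm
    obtain ⟨f, f1, f2, f3⟩ := hm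
    obtain ⟨P, Q, S, hPQ, hPS, hQS, hU, hS, hpq, hfA, hfB⟩ := key hV hAB 2 hX W H f f1 f2 f3
    have hV' : B ∪ A = Set.univ := by rw [Set.union_comm]; exact hV
    have hAB' : ∀ b ∈ B, ∀ a ∈ A, G.Adj b a → b ∈ A ∨ a ∈ B :=
      fun b hb a ha h => (hAB a ha b hb h.symm).symm
    rcases no_sep2 h3 hn hPQ hPS hQS hU hS hpq with h | h
    · have hm2 := minor_side hV' hAB' f1 f2 f3 (fun w => hfB w (by rw [h]; simp))
      rw [Set.inter_comm B A] at hm2
      exact ih2 inferInstance W H h3 hn hm2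
    · have hm1 := minor_side hV hAB f1 f2 f3 (fun w => hfA w (by rw [h]; simp))
      exact ih1 inferInstance W H h3 hn hm1
  | three V G A B hV hAB hX h1 h2 ih1 ih2 =>
    intro hfin W _ _ H h3 hn hm
    obtain ⟨f, f1, f2, f3⟩ := hm
    obtain ⟨P, Q, S, hPQ, hPS, hQS, hU, hS, hpq, hfA, hfB⟩ := key hV hAB 3 hX W H f f1 f2 f3
    have hV' : B ∪ A = Set.univ := by rw [Set.union_comm]; exact hV
    have hAB' : ∀ b ∈ B, ∀ a ∈ A, G.Adj b a → b ∈ A ∨ a ∈ B :=
      fun b hb a ha h => (hAB a ha b hb h.symm).symm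
    by_cases hS2 : S.card ≤ 2
    · have hlt : P.card ≤ 1 ∨ Q.card ≤ 1 := by
        rcases no_sep2 h3 hn hPQ hPS hQS hU hS2 hpq with h | h
        · left; rw [h]; simp
        · right; rw [h]; simp
      rcases hlt with h | h
      · have hm2 := minor_sidePlus hV' hAB' f1 f2 f3 (by
          intro w w' hw hw'
          by_contra hne
          have h1 : w ∈ P := by by_contra h'; exact hw (hfB w h')
          have h2 : w' ∈ P := by by_contra h'; exact hw' (hfB w' h')
          have := Finset.card_le_one.1 h w h1 w' h2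
          exact hne this)
        rw [Set.inter_comm B A] at hm2
        exact ih2 inferInstance W H h3 hn hm2
      · have hm1 := minor_sidePlus hV hAB f1 f2 f3 (by
          intro w w' hw hw'
          by_contra hne
          have h1 : w ∈ Q := by by_contra h'; exact hw (hfA w h')
          have h2 : w' ∈ Q := by by_contra h'; exact hw' (hfA w' h')
          have := Finset.card_le_one.1 h w h1 w' h2
          exact hne this)
        exact ih1 inferInstance W H h3 hn hm1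
    · by_cases hP1 : P.card ≤ 1
      · have hm2 := minor_sidePlus hV' hAB' f1 f2 f3 (by
          intro w w' hw hw'
          by_contra hne
          have h1 : w ∈ P := by by_contra h'; exact hw (hfB w h')
          have h2 : w' ∈ P := by by_contra h'; exact hw' (hfB w' h')
          have := Finset.card_le_one.1 hP1 w h1 w' h2
          exact hne this)
        rw [Set.inter_comm B A] at hm2
        exact ih2 inferInstance W H h3 hn hm2
      · by_cases hQ1 : Q.card ≤ 1
        · have hm1 := minor_sidePlus hV hAB f1 f2 f3 (by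
            intro w w' hw hw'
            by_contra hne
            have h1 : w ∈ Q := by by_contra h'; exact hw (hfA w h')
            have h2 : w' ∈ Q := by by_contra h'; exact hw' (hfA w' h')
            have := Finset.card_le_one.1 hQ1 w h1 w' h2
            exact hne this)
          exact ih1 inferInstance W H h3 hn hm1
        · exact Or.inl ⟨P, Q, S, hPQ, hPS, hQS, hU, by omega, by omega, by omega, hpq⟩

end Pool.Agent.U881.HB
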