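import Pool.Agent.H76R2.TW.BagL
import Pool.Agent.U881.HB.Base2

/-!
# Tree decompositions of adhesion at most three into bags with at most seven vertices
-/

set_option autoImplicit false

namespace Pool.Agent.U881.HB

open Finset H76TW

/-- `G` has a tree decomposition into bags with at most seven vertices in which two adjacent bags are
equal or share at most three vertices -/
def Sum7 {V : Type} (G : SimpleGraph V) : Prop :=
  ∃ (I : Type) (_ : Fintype I) (T : SimpleGraph I) (bag : I → Finset V), T.IsTree ∧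
    (∀ v : V, ∃ i, v ∈ bag i) ∧
    (∀ u v : V, G.Adj u v → ∃ i, u ∈ bag i ∧ v ∈ bag i) ∧
    (∀ (v : V) (i j : I) (q : T.Walk i j), q.IsPath → v ∈ bag i → v ∈ bag j →
      ∀ l ∈ q.support, v ∈ bag l) ∧
    (∀ i, (bag i).card ≤ 7) ∧
    ∀ i j, T.Adj i j → bag i = bag j ∨ ∀ S : Finset V, S ⊆ bag i → S ⊆ bag j → S.card ≤ 3

/-- a list of bags (the leaves first, the root last); `S` contains the common part of `B` and the later
bags and lies in one of them -/
def BagList7 {V : Type} [DecidableEq V] : List (Finset V) → Prop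
  | [] => True
  | B :: l => B.card ≤ 7 ∧ (∃ S : Finset V, S.card ≤ 3 ∧ (∀ C ∈ l, B ∩ C ⊆ S) ∧
      (S = ∅ ∨ ∃ C ∈ l, S ⊆ C)) ∧ BagList7 l

theorem bagList7 {V : Type} [DecidableEq V] (G : SimpleGraph V) (hG : Sum7 G) :
    ∃ l : List (Finset V), BagList7 l ∧ (∀ u v, G.Adj u v → ∃ C ∈ l, u ∈ C ∧ v ∈ C) ∧
      ∀ v, ∃ C ∈ l, v ∈ C := by
  classical
  obtain ⟨I, hI, T, bag, hT, hcov, hadj, hcon, hcard, hint⟩ := hG
  obtain ⟨o⟩ := hT.connected.nonempty
  have hpar : ∀ i, i ≠ o → ∃ j, T.Adj j i ∧ T.dist o j < T.dist o i ∧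
      ∀ (a : I) (p : T.Walk o a) (q : T.Walk a i), (p.append q).IsPath → a ≠ i →
        j ∈ q.support := by
    intro i hi
    obtain ⟨P, hP, hPl⟩ := hT.connected.exists_path_of_dist o i
    obtain ⟨j, P', h, hPe⟩ := bagl_concat P (Ne.symm hi)
    refine ⟨j, h, ?_, ?_⟩
    · have h1 : P.length = P'.length + 1 := by rw [hPe, SimpleGraph.Walk.length_concat]
      have h2 := SimpleGraph.dist_le P'
      omega
    · intro a p q hpq ha
      obtain ⟨x, q', h', hq⟩ := bagl_concat q ha
      have heq : P = p.append q :=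
        congrArg Subtype.val ((hT.isAcyclic.subsingleton_path o i).elim ⟨P, hP⟩ ⟨p.append q, hpq⟩)
      rw [hPe, hq, SimpleGraph.Walk.append_concat] at heq
      obtain ⟨hv, -⟩ := SimpleGraph.Walk.concat_inj heq
      subst hv
      rw [hq, SimpleGraph.Walk.support_concat]
      simp
  have key : ∀ (n : ℕ) (A : Finset I), A.card = n →
      (∀ i ∈ A, ∀ j, T.dist o j < T.dist o i → j ∈ A) →
      ∃ l : List (Finset V), BagList7 l ∧ (∀ C ∈ l, ∃ i ∈ A, C = bag i) ∧ ∀ i ∈ A, bag i ∈ l := by
    intro n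
    induction n with
    | zero =>
      intro A hA _
      rw [card_eq_zero] at hA
      subst hA
      exact ⟨[], trivial, by simp, by simp⟩
    | succ n ih =>
      intro A hA hdown
      have hne : A.Nonempty := by rw [← card_pos]; omega
      obtain ⟨i, hiA, hmax⟩ := exists_max_image A (fun x => T.dist o x) hne
      obtain ⟨l, hl1, hl2, hl3⟩ := ih (A.erase i) (by rw [card_erase_of_mem hiA, hA]; rfl) (by
        intro x hx y hy
        rw [mem_erase] at hx ⊢
        refine ⟨?_, hdown x hx.2 y hy⟩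
        rintro rfl
        have := hmax x hx.2
        omega)
      by_cases hio : i = o
      · have hemp : ∀ C, C ∉ l := by
          intro C hC
          obtain ⟨k, hk, -⟩ := hl2 C hC
          rw [mem_erase] at hk
          have h1 := hmax k hk.2
          rw [hio, SimpleGraph.dist_self] at h1
          have h2 : T.dist o k = 0 := by omega
          have h3 := (hT.connected.dist_eq_zero_iff).mp h2
          exact hk.1 (h3.symm.trans hio.symm)
        refine ⟨bag i :: l, ⟨hcard i, ⟨∅, by simp, fun C hC => absurd hC (hemp C), Or.inl rfl⟩, hl1⟩,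
          ?_, ?_⟩
        · intro C hC
          rw [List.mem_cons] at hC
          rcases hC with rfl | hC
          · exact ⟨i, hiA, rfl⟩
          · exact absurd hC (hemp C)
        · intro k hk
          rw [List.mem_cons]
          by_cases hki : k = i
          · left; rw [hki]
          · right; exact hl3 k (mem_erase.mpr ⟨hki, hk⟩)
      obtain ⟨j, hj1, hj2, hj3⟩ := hpar i hio
      have hjA : j ∈ A.erase i := mem_erase.mpr ⟨hj1.ne, hdown i hiA j hj2⟩
      by_cases hbe : bag i = bag j
      · refine ⟨l, hl1, ?_, ?_⟩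
        · intro C hC
          obtain ⟨k, hk, hk2⟩ := hl2 C hC
          exact ⟨k, mem_of_mem_erase hk, hk2⟩
        · intro k hk
          by_cases hki : k = i
          · rw [hki, hbe]; exact hl3 j hjA
          · exact hl3 k (mem_erase.mpr ⟨hki, hk⟩)
      · have h3 := (hint i j hj1.symm).resolve_left hbe
        refine ⟨bag i :: l, ⟨hcard i, ⟨bag i ∩ bag j, h3 _ inter_subset_left inter_subset_right, ?_,
          Or.inr ⟨bag j, hl3 j hjA, inter_subset_right⟩⟩, hl1⟩, ?_, ?_⟩
        · intro C hC v hv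
          obtain ⟨k, hk, rfl⟩ := hl2 C hC
          rw [mem_erase] at hk
          rw [mem_inter] at hv ⊢
          refine ⟨hv.1, ?_⟩
          obtain ⟨a, ha, ham⟩ := exists_min_image (univ.filter fun x => v ∈ bag x)
            (fun x => T.dist o x) ⟨i, by simpa using hv.1⟩
          have ha' : v ∈ bag a := by simpa using ha
          have ham' : ∀ x, v ∈ bag x → T.dist o a ≤ T.dist o x :=
            fun x hx => ham x (by simpa using hx)
          by_cases hai : a = i
          · exfalso
            subst hai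
            obtain ⟨p, q, hpl, hq, hpq⟩ :=
              order_path hT (fun x => v ∈ bag x) (hcon v) ham' ha' hv.2
            obtain ⟨P, hP, hPl⟩ := hT.connected.exists_path_of_dist o k
            have heq : P = p.append q :=
              congrArg Subtype.val
                ((hT.isAcyclic.subsingleton_path o k).elim ⟨P, hP⟩ ⟨p.append q, hpq⟩)
            have h5 := congrArg SimpleGraph.Walk.length heq
            rw [SimpleGraph.Walk.length_append] at h5
            have h6 := hmax k hk.2
            have h7 : q.length = 0 := by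
              have : T.dist o k ≤ T.dist o a := h6
              omega
            exact hk.1 (SimpleGraph.Walk.eq_of_length_eq_zero h7).symm
          · obtain ⟨p, q, hpl, hq, hpq⟩ :=
              order_path hT (fun x => v ∈ bag x) (hcon v) ham' ha' hv.1
            exact hcon v a i q hq ha' hv.1 j (hj3 a p q hpq hai)
        · intro C hC
          rw [List.mem_cons] at hC
          rcases hC with rfl | hC
          · exact ⟨i, hiA, rfl⟩
          · obtain ⟨k, hk, hk2⟩ := hl2 C hC
            exact ⟨k, mem_of_mem_erase hk, hk2⟩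
        · intro k hk
          rw [List.mem_cons]
          by_cases hki : k = i
          · left; rw [hki]
          · right; exact hl3 k (mem_erase.mpr ⟨hki, hk⟩)
  obtain ⟨l, hl1, -, hl3⟩ := key _ univ rfl (fun _ _ _ _ => mem_univ _)
  refine ⟨l, hl1, ?_, ?_⟩
  · intro u v huv
    obtain ⟨i, hi1, hi2⟩ := hadj u v huv
    exact ⟨bag i, hl3 i (mem_univ i), hi1, hi2⟩
  · intro v
    obtain ⟨i, hi⟩ := hcov v
    exact ⟨bag i, hl3 i (mem_univ i), hi⟩


/-- the same for lists of sets -/
def BL {V : Type} : List (Set V) → Prop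
  | [] => True
  | B :: l => B.encard ≤ 7 ∧ (∃ S : Set V, S.encard ≤ 3 ∧ (∀ C ∈ l, B ∩ C ⊆ S) ∧
      (S = ∅ ∨ ∃ C ∈ l, S ⊆ C)) ∧ BL l

theorem bl_of {V : Type} [DecidableEq V] : ∀ l : List (Finset V), BagList7 l →
    BL (l.map (fun C : Finset V => (C : Set V))) := by
  intro l
  induction l with
  | nil => exact fun _ => trivial
  | cons B l ih =>
    rintro ⟨h1, ⟨S, hS1, hS2, hS3⟩, h3⟩
    refine ⟨?_, ⟨(S : Set V), ?_, ?_, ?_⟩, ih h3⟩
    · rw [Set.encard_coe_eq_coe_finsetCard]
      exact_mod_cast h1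
    · rw [Set.encard_coe_eq_coe_finsetCard]
      exact_mod_cast hS1
    · intro C hC
      rw [List.mem_map] at hC
      obtain ⟨D, hD, rfl⟩ := hC
      rw [← Finset.coe_inter]
      exact Finset.coe_subset.2 (hS2 D hD)
    · rcases hS3 with rfl | ⟨C, hC, hSC⟩
      · left; simp
      · right
        exact ⟨_, List.mem_map.2 ⟨C, hC, rfl⟩, Finset.coe_subset.2 hSC⟩

/-- the part of `C` in `Option A` -/
def res {V : Type} (A C : Set V) : Set (Option A) := some '' (Subtype.val ⁻¹' C)

theorem mem_res {V : Type} {A C : Set V} {x : Option A} :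
    x ∈ res A C ↔ ∃ y : A, x = some y ∧ y.1 ∈ C := by
  unfold res
  constructor
  · rintro ⟨y, hy, rfl⟩
    exact ⟨y, rfl, hy⟩
  · rintro ⟨y, rfl, hy⟩
    exact ⟨y, hy, rfl⟩

theorem res_encard {V : Type} (A C : Set V) : (res A C).encard ≤ C.encard := by
  unfold res
  refine (Set.encard_image_le _ _).trans ?_
  exact Set.encard_preimage_val_le_encard_right A C

theorem bl_res {V : Type} (A : Set V) : ∀ l : List (Set V), BL l → BL (l.map (res A)) := by
  intro l
  induction l with
  | nil => exact fun _ => trivial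
  | cons B l ih =>
    rintro ⟨h1, ⟨S, hS1, hS2, hS3⟩, h3⟩
    refine ⟨(res_encard A B).trans h1, ⟨res A S, (res_encard A S).trans hS1, ?_, ?_⟩, ih h3⟩
    · intro C hC
      rw [List.mem_map] at hC
      obtain ⟨D, hD, rfl⟩ := hC
      rintro x ⟨hx1, hx2⟩
      rw [mem_res] at hx1 hx2 ⊢
      obtain ⟨y, rfl, hy⟩ := hx1
      obtain ⟨z, hz, hz'⟩ := hx2
      rw [Option.some.injEq] at hz
      subst hz
      exact ⟨y, rfl, hS2 D hD ⟨hy, hz'⟩⟩
    · rcases hS3 with rfl | ⟨C, hC, hSC⟩
      · left; simp [res]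
      · right
        refine ⟨_, List.mem_map.2 ⟨C, hC, rfl⟩, ?_⟩
        intro x hx
        rw [mem_res] at hx ⊢
        obtain ⟨y, rfl, hy⟩ := hx
        exact ⟨y, rfl, hSC hy⟩

theorem cover7_of {V : Type} [Finite V] (G : SimpleGraph V) (B : Set V) (hB : B.encard ≤ 7)
    (h : ∀ u v, G.Adj u v → u ∈ B ∨ v ∈ B) : Cover7 V G := by
  have hfin : B.Finite := Set.toFinite B
  refine ⟨hfin.toFinset, ?_, ?_⟩
  · have h1 := hfin.encard_eq_coe_toFinset_card
    rw [h1] at hB
    exact_mod_cast hB
  · intro u v huv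
    rw [hfin.mem_toFinset, hfin.mem_toFinset]
    exact h u v huv

theorem sum_of_bl (K : (V : Type) → SimpleGraph V → Prop)
    (hK : ∀ (V : Type) (G : SimpleGraph V), Finite V → Cover7 V G → K V G) :
    ∀ (n : ℕ) (V : Type) (G : SimpleGraph V) (l : List (Set V)) (I : Set V), Finite V →
      l.length = n → BL l → (∀ v, v ∈ I ∨ ∃ C ∈ l, v ∈ C) → (∀ v ∈ I, ∀ C ∈ l, v ∉ C) →
      (∀ u v, G.Adj u v → (∃ C ∈ l, u ∈ C ∧ v ∈ C) ∨ u ∈ I ∨ v ∈ I) →
      (∀ i ∈ I, (∀ v, ¬ G.Adj i v) ∨ ∃ C ∈ l, ∀ v, G.Adj i v → v ∈ C) → Sum3 K V G := by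
  intro n
  induction n with
  | zero =>
    intro V G l I hfin hl _ hcov _ hedge hI
    rw [List.length_eq_zero_iff] at hl
    subst hl
    refine Sum3.base V G (hK V G hfin (cover7_of G ∅ (by simp) ?_))
    intro u v huv
    have hu : u ∈ I := (hcov u).resolve_right (by simp)
    rcases hI u hu with h | ⟨C, hC, _⟩
    · exact absurd huv (h v)
    · simp at hC
  | succ n ih =>
    intro V G l I hfin hl hBL hcov hdis hedge hI
    rcases l with _ | ⟨B, l⟩
    · simp at hl
    obtain ⟨hB7, ⟨S, hS3, hSC, hS0⟩, hBL'⟩ := hBL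
    have hIno : ∀ i ∈ I, ∀ v, G.Adj i v → v ∉ I := by
      intro i hi v hiv hv
      rcases hI i hi with h | ⟨C, hC, h⟩
      · exact h v hiv
      · exact hdis v hv C hC (h v hiv)
    set A : Set V := B ∪ {i | i ∈ I ∧ ∀ v, G.Adj i v → v ∈ B} with hA
    set D : Set V := {v | ∃ C ∈ l, v ∈ C} ∪ {i | i ∈ I ∧ ¬ ∀ v, G.Adj i v → v ∈ B} with hD
    have hBI : ∀ v ∈ B, v ∉ I := fun v hv h => hdis v h B List.mem_cons_self hv
    have hlI : ∀ C ∈ l, ∀ v ∈ C, v ∉ I := fun C hC v hv h =>
      hdis v h C (List.mem_cons_of_mem _ hC) hv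
    have hAD : ∀ v ∈ A ∩ D, v ∈ B ∧ ∃ C ∈ l, v ∈ C := by
      rintro v ⟨h1 | h1, h2 | h2⟩
      · exact ⟨h1, h2⟩
      · exact absurd h2.1 (hBI v h1)
      · obtain ⟨C, hC, hv⟩ := h2
        exact absurd h1.1 (hlI C hC v hv)
      · exact absurd h1.2 h2.2
    have hADS : A ∩ D ⊆ S := by
      intro v hv
      obtain ⟨h1, C, hC, h2⟩ := hAD v hv
      exact hSC C hC ⟨h1, h2⟩
    have hADC : A ∩ D = ∅ ∨ ∃ C ∈ l, A ∩ D ⊆ C := by
      rcases hS0 with h | ⟨C, hC, h⟩
      · left
        rw [h] at hADS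
        exact Set.subset_empty_iff.1 hADS
      · exact Or.inr ⟨C, hC, hADS.trans h⟩
    refine Sum3.three V G A D ?_ ?_ ((Set.encard_le_encard hADS).trans hS3) ?_ ?_
    · rw [Set.eq_univ_iff_forall]
      intro v
      rcases hcov v with h | ⟨C, hC, h⟩
      · by_cases h' : ∀ w, G.Adj v w → w ∈ B
        · exact Or.inl (Or.inr ⟨h, h'⟩)
        · exact Or.inr (Or.inr ⟨h, h'⟩)
      · rcases List.mem_cons.1 hC with rfl | hC
        · exact Or.inl (Or.inl h)
        · exact Or.inr (Or.inl ⟨C, hC, h⟩)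
    · -- no edges between the two sides
      have hi : ∀ a ∈ I, ∀ b, G.Adj a b → a ∈ D ∨ b ∈ A := by
        intro a ha b hab
        by_cases h' : ∀ w, G.Adj a w → w ∈ B
        · exact Or.inr (Or.inl (h' b hab))
        · exact Or.inl (Or.inr ⟨ha, h'⟩)
      intro a ha b hb hab
      rcases hedge a b hab with ⟨C, hC, h1, h2⟩ | h | h
      · rcases List.mem_cons.1 hC with rfl | hC
        · exact Or.inr (Or.inl h2)
        · exact Or.inl (Or.inl ⟨C, hC, h1⟩)
      · exact hi a h b hab
      · by_cases h' : ∀ w, G.Adj b w → w ∈ B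
        · exact Or.inr (Or.inr ⟨h, h'⟩)
        · rcases hI b h with h1 | ⟨C, hC, h1⟩
          · exact absurd hab.symm (h1 a)
          · rcases List.mem_cons.1 hC with rfl | hC
            · exact absurd h1 h'
            · exact Or.inl (Or.inl ⟨C, hC, h1 a hab.symm⟩)
    · -- the side of `B`
      refine Sum3.base _ _ (hK _ _ inferInstance
        (cover7_of _ (res A B) ((res_encard A B).trans hB7) ?_))
      have hXB : ∀ u : A, u.1 ∈ A ∩ D → some u ∈ res A B := fun u hu =>
        mem_res.2 ⟨u, rfl, (hAD u.1 hu).1⟩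
      rintro (_ | u) (_ | v) huv
      · exact absurd huv id
      · exact Or.inr (hXB v huv)
      · exact Or.inl (hXB u huv)
      · obtain ⟨_, h | h⟩ := huv
        · by_cases hu : u.1 ∈ B
          · exact Or.inl (mem_res.2 ⟨u, rfl, hu⟩)
          · have hu' := u.2.resolve_left hu
            exact Or.inr (mem_res.2 ⟨v, rfl, hu'.2 v.1 h⟩)
        · exact Or.inl (hXB u h.1)
    · -- the other side
      refine ih _ _ (l.map (res D)) {x | x = none ∨ ∃ y : D, x = some y ∧ y.1 ∈ I} inferInstance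
        (by rw [List.length_map]; simpa using hl) (bl_res D l hBL') ?_ ?_ ?_ ?_
      · rintro (_ | y)
        · exact Or.inl (Or.inl rfl)
        · rcases y.2 with ⟨C, hC, h⟩ | h
          · exact Or.inr ⟨_, List.mem_map.2 ⟨C, hC, rfl⟩, mem_res.2 ⟨y, rfl, h⟩⟩
          · exact Or.inl (Or.inr ⟨y, rfl, h.1⟩)
      · intro x hx C' hC' hxC
        obtain ⟨C, hC, rfl⟩ := List.mem_map.1 hC'
        obtain ⟨y, rfl, hy⟩ := mem_res.1 hxC
        rcases hx with h | ⟨z, hz, hzI⟩
        · cases h
        · rw [Option.some.injEq] at hz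
          subst hz
          exact hlI C hC _ hy hzI
      · rintro (_ | u) (_ | v) huv
        · exact absurd huv id
        · exact Or.inr (Or.inl (Or.inl rfl))
        · exact Or.inr (Or.inr (Or.inl rfl))
        · have hXX : u.1 ∈ A ∩ D → v.1 ∈ A ∩ D → ∃ C' ∈ l.map (res D), some u ∈ C' ∧ some v ∈ C' := by
            intro h1 h2
            rcases hADC with h | ⟨C, hC, h⟩
            · rw [h] at h1; exact absurd h1 (Set.notMem_empty _)
            · exact ⟨_, List.mem_map.2 ⟨C, hC, rfl⟩, mem_res.2 ⟨u, rfl, h h1⟩, mem_res.2 ⟨v, rfl, h h2⟩⟩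
          obtain ⟨_, h | h⟩ := huv
          · rcases hedge _ _ h with ⟨C, hC, h1, h2⟩ | h1 | h1
            · left
              rcases List.mem_cons.1 hC with rfl | hC
              · exact hXX ⟨Or.inl h1, u.2⟩ ⟨Or.inl h2, v.2⟩
              · exact ⟨_, List.mem_map.2 ⟨C, hC, rfl⟩, mem_res.2 ⟨u, rfl, h1⟩, mem_res.2 ⟨v, rfl, h2⟩⟩
            · exact Or.inr (Or.inl (Or.inr ⟨u, rfl, h1⟩))
            · exact Or.inr (Or.inr (Or.inr ⟨v, rfl, h1⟩))
          · exact Or.inl (hXX h.1 h.2)
      · rintro x (rfl | ⟨y, rfl, hy⟩)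
        · rcases hADC with h | ⟨C, hC, h⟩
          · left
            rintro (_ | v) hv
            · exact hv
            · have hv' : v.1 ∈ A ∩ D := hv
              rw [h] at hv'
              exact hv'
          · right
            refine ⟨_, List.mem_map.2 ⟨C, hC, rfl⟩, ?_⟩
            rintro (_ | v) hv
            · exact absurd hv id
            · exact mem_res.2 ⟨v, rfl, h hv⟩
        · right
          have hyX : y.1 ∉ A ∩ D := fun h => hBI _ (hAD _ h).1 hy
          have hyD : ¬ ∀ v, G.Adj y.1 v → v ∈ B := by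
            rcases y.2 with ⟨C, hC, h⟩ | h
            · exact absurd hy (hlI C hC _ h)
            · exact h.2
          rcases hI y.1 hy with h | ⟨C, hC, h⟩
          · exact absurd (fun v hv => absurd hv (h v)) hyD
          · rcases List.mem_cons.1 hC with rfl | hC
            · exact absurd h hyD
            · refine ⟨_, List.mem_map.2 ⟨C, hC, rfl⟩, ?_⟩
              rintro (_ | v) hv
              · exact absurd hv hyX
              · obtain ⟨_, hv | hv⟩ := hv
                · exact mem_res.2 ⟨v, rfl, h _ hv⟩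
                · exact absurd hv.1 hyX

theorem sum_of_sum7 (K : (V : Type) → SimpleGraph V → Prop)
    (hK : ∀ (V : Type) (G : SimpleGraph V), Finite V → Cover7 V G → K V G) (V : Type) [Finite V]
    (G : SimpleGraph V) (hG : Sum7 G) : Sum3 K V G := by
  classical
  obtain ⟨l, h1, h2, h3⟩ := bagList7 G hG
  refine sum_of_bl K hK _ V G (l.map (fun C : Finset V => (C : Set V))) ∅ inferInstance rfl (bl_of l h1) ?_ ?_ ?_ ?_
  · intro v
    obtain ⟨C, hC, hv⟩ := h3 v
    exact Or.inr ⟨_, List.mem_map.2 ⟨C, hC, rfl⟩, hv⟩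
  · intro v hv
    exact absurd hv (Set.notMem_empty _)
  · intro u v huv
    obtain ⟨C, hC, hu, hv⟩ := h2 u v huv
    exact Or.inl ⟨_, List.mem_map.2 ⟨C, hC, rfl⟩, hu, hv⟩
  · intro i hi
    exact absurd hi (Set.notMem_empty _)

end Pool.Agent.U881.HB
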