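import Pool.Agent.U881.HB.Root
import Pool.Agent.U881.HB.ClosB
import Pool.Agent.W315.LB.Final

/-!
# Vertex cuts of order three: both closures are minors
-/

set_option autoImplicit false
set_option linter.unusedSectionVars false

namespace Pool.Agent.U881.HB

open Finset H76FC H76TW H76TX H76TY Pool.Agent.W315.LB

/-- `H` is a minor of `G` -/
def Minor {W V : Type} (H : SimpleGraph W) (G : SimpleGraph V) : Prop :=
  ∃ f : W → Set V, (∀ a b, a ≠ b → Disjoint (f a) (f b)) ∧ (∀ a, (G.induce (f a)).Connected) ∧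
    ∀ a b, H.Adj a b → ∃ x ∈ f a, ∃ y ∈ f b, G.Adj x y

theorem minor_trans {W A B : Type} {K : SimpleGraph W} {H : SimpleGraph A} {G : SimpleGraph B}
    (h : Minor K H) (h' : Minor H G) : Minor K G := by
  obtain ⟨g, g1, g2, g3⟩ := h'
  obtain ⟨f, f1, f2, f3⟩ := h
  refine ⟨fun w => {b | ∃ x ∈ f w, b ∈ g x}, ?_, ?_, ?_⟩
  · intro p q hpq
    rw [Set.disjoint_left]
    rintro b ⟨x, hx, hbx⟩ ⟨y, hy, hby⟩
    by_cases hxy : x = y
    · subst hxy
      exact Set.disjoint_left.1 (f1 p q hpq) hx hy
    · exact Set.disjoint_left.1 (g1 x y hxy) hbx hby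
  · intro w
    exact y12_conn H G g g2 g3 (f w) (f2 w)
  · intro a b hab
    obtain ⟨x, hx, y, hy, hxy⟩ := f3 a b hab
    obtain ⟨u, hu, v, hv, huv⟩ := g3 x y hxy
    exact ⟨u, ⟨x, hx, hu⟩, v, ⟨y, hy, hv⟩, huv⟩

theorem minor_sub {A B : Type} {H : SimpleGraph A} {G : SimpleGraph B} (i : A → B)
    (hi : Function.Injective i) (hadj : ∀ x y, H.Adj x y → G.Adj (i x) (i y)) : Minor H G := by
  refine ⟨fun x => {i x}, ?_, ?_, ?_⟩
  · intro x y hxy
    rw [Set.disjoint_singleton]
    exact fun h => hxy (hi h)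
  · intro x
    exact (conn B G).1 _
  · intro x y hxy
    exact ⟨i x, rfl, i y, rfl, hadj x y hxy⟩

theorem minor_refl {V : Type} (G : SimpleGraph V) : Minor G G :=
  minor_sub id Function.injective_id fun _ _ h => h

theorem minor_of_odd {W V : Type} {H : SimpleGraph W} {G : SimpleGraph V} (h : OddMinor H G) :
    Minor H G := by
  obtain ⟨f, h1, _, h3, h4⟩ := h
  refine ⟨fun x => (f x : Set V), ?_, h3, ?_⟩
  · intro x y hxy
    exact Finset.disjoint_coe.2 (h1 x y hxy)
  · intro x y hxy
    obtain ⟨a, ha, b, hb, hab⟩ := h4 x y hxy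
    exact ⟨a, ha, b, hb, hab⟩

theorem pet_minor {W V : Type} {H : SimpleGraph W} {G : SimpleGraph V} (h : Minor H G)
    (hH : PetMinor H) : PetMinor G := by
  obtain ⟨f, h1, h3, h4⟩ := h
  exact y12_trans H G f h1 h3 h4 hH

section
variable {V : Type} [Fintype V] [DecidableEq V]

/-- branch sets: `T i` for `s i`, single vertices for the others -/
def gof (s : Fin 3 → V) (T : Fin 3 → Finset V) (x : V) : Finset V :=
  if x = s 0 then T 0 else if x = s 1 then T 1 else if x = s 2 then T 2 else {x}

theorem gof_s {s : Fin 3 → V} (hs : Function.Injective s) (T : Fin 3 → Finset V) (i : Fin 3) :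
    gof s T (s i) = T i := by
  have h10 : s 1 ≠ s 0 := fun h => absurd (hs h) (by decide)
  have h20 : s 2 ≠ s 0 := fun h => absurd (hs h) (by decide)
  have h21 : s 2 ≠ s 1 := fun h => absurd (hs h) (by decide)
  unfold gof
  fin_cases i
  · exact if_pos rfl
  · show (if s 1 = s 0 then T 0 else if s 1 = s 1 then T 1 else if s 1 = s 2 then T 2 else {s 1}) = T 1
    rw [if_neg h10, if_pos rfl]
  · show (if s 2 = s 0 then T 0 else if s 2 = s 1 then T 1 else if s 2 = s 2 then T 2 else {s 2}) = T 2
    rw [if_neg h20, if_neg h21, if_pos rfl]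

theorem gof_n (s : Fin 3 → V) (T : Fin 3 → Finset V) (x : V) (hx : ∀ i, x ≠ s i) :
    gof s T x = {x} := by
  unfold gof
  rw [if_neg (hx 0), if_neg (hx 1), if_neg (hx 2)]

theorem mem_gof {s : Fin 3 → V} (hs : Function.Injective s) {T : Fin 3 → Finset V}
    (hT : ∀ i, s i ∈ T i) (x : V) : x ∈ gof s T x := by
  by_cases h : ∃ i, x = s i
  · obtain ⟨i, rfl⟩ := h
    rw [gof_s hs]
    exact hT i
  · push Not at h
    rw [gof_n s T x h]
    exact Finset.mem_singleton_self x

theorem minor_of {G : SimpleGraph V} (X : Finset V) (q : V → V → ℕ) (g : V → Finset V)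
    (hdis : ∀ x ∈ X, ∀ y ∈ X, x ≠ y → Disjoint (g x) (g y)) (hcn : ∀ x ∈ X, Cn G (g x))
    (had : ∀ x ∈ X, ∀ y ∈ X, x ≠ y → q x y ≠ 0 → Ad G (g x) (g y)) :
    Minor (gr (fun u v : {x // x ∈ X} => q u.1 v.1)) G := by
  refine ⟨fun x => (g x.1 : Set V), ?_, fun x => hcn x.1 x.2, ?_⟩
  · intro x y hxy
    exact Finset.disjoint_coe.2 (hdis x.1 x.2 y.1 y.2 fun h => hxy (Subtype.ext h))
  · intro x y hxy
    have hne : x.1 ≠ y.1 := fun h => hxy.ne (Subtype.ext h)
    rcases Y13.gr_adj _ x y hxy with h | h
    · exact had x.1 x.2 y.1 y.2 hne h.ne'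
    · exact (had y.1 y.2 x.1 x.2 hne.symm h.ne').symm

/-- the three sets of a side can be made pairwise adjacent -/
theorem tri_sets {G : SimpleGraph V} (h3 : Conn3 G)
    (P : Finset V) (s : Fin 3 → V) (hs : Function.Injective s) (hsP : ∀ i, s i ∉ P)
    (h2 : 2 ≤ P.card) (hout : ∀ u ∈ P, ∀ v, G.Adj u v → v ∈ P ∨ ∃ i, v = s i) :
    ∃ T : Fin 3 → Finset V, (∀ i, s i ∈ T i) ∧ (∀ i, ∀ x ∈ T i, x = s i ∨ x ∈ P) ∧
      (∀ i j, i ≠ j → Disjoint (T i) (T j)) ∧ (∀ i, Cn G (T i)) ∧
      ∀ i j, i ≠ j → Ad G (T i) (T j) := by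
  obtain ⟨U, S, hC, i, j, hij, had⟩ := root h3 P s hs hsP h2 hout
  obtain ⟨k, hki, hkj⟩ := fin3_one i j
  have hall : ∀ m : Fin 3, m = i ∨ m = j ∨ m = k := fun m => fin3_all i j k m hij hki hkj
  have hsub : ∀ m, S m ⊆ Function.update S k (S k ∪ U) m := by
    intro m
    by_cases hm : m = k
    · subst hm; rw [Function.update_self]; exact Finset.subset_union_left
    · rw [Function.update_of_ne hm]
  refine ⟨Function.update S k (S k ∪ U), ?_, ?_, ?_, ?_, ?_⟩
  · intro m; exact hsub m (hC.mem m)
  · intro m x hx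
    by_cases hm : m = k
    · subst hm
      rw [Function.update_self, Finset.mem_union] at hx
      rcases hx with hx | hx
      · exact hC.sub m x hx
      · exact Or.inr (hC.subU hx)
    · rw [Function.update_of_ne hm] at hx
      exact hC.sub m x hx
  · intro m n hmn
    by_cases hm : m = k
    · subst hm
      rw [Function.update_self, Function.update_of_ne (Ne.symm hmn), Finset.disjoint_union_left]
      exact ⟨hC.dis _ _ hmn, hC.disU n⟩
    · rw [Function.update_of_ne hm]
      by_cases hn : n = k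
      · subst hn
        rw [Function.update_self, Finset.disjoint_union_right]
        exact ⟨hC.dis _ _ hmn, (hC.disU m).symm⟩
      · rw [Function.update_of_ne hn]
        exact hC.dis _ _ hmn
  · intro m
    by_cases hm : m = k
    · subst hm
      rw [Function.update_self]
      exact cn_union (hC.cn m) hC.cnU (hC.ad m).symm
    · rw [Function.update_of_ne hm]
      exact hC.cn m
  · have hk : ∀ n, n ≠ k → Ad G (Function.update S k (S k ∪ U) k) (Function.update S k (S k ∪ U) n) := by
      intro n hn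
      rw [Function.update_self, Function.update_of_ne hn]
      exact (hC.ad n).mono Finset.subset_union_right (Finset.Subset.refl _)
    intro m n hmn
    by_cases hm : m = k
    · subst hm; exact hk n (Ne.symm hmn)
    · by_cases hn : n = k
      · subst hn; exact (hk m hm).symm
      · have h4 : (m = i ∧ n = j) ∨ (m = j ∧ n = i) := by
          rcases hall m with h5 | h5 | h5 <;> rcases hall n with h6 | h6 | h6 <;>
            first
              | exact absurd h5 hm
              | exact absurd h6 hn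
              | exact absurd (h5.trans h6.symm) hmn
              | exact Or.inl ⟨h5, h6⟩
              | exact Or.inr ⟨h5, h6⟩
        rcases h4 with ⟨rfl, rfl⟩ | ⟨rfl, rfl⟩
        · exact had.mono (hsub _) (hsub _)
        · exact had.symm.mono (hsub _) (hsub _)

/-- an `r`-graph with a vertex cut of order three is the union of `r` perfect matchings if this holds
for all smaller `r`-graphs which are minors -/
theorem vcut_class {r : ℕ} {p : V → V → ℕ} (hp0 : RGraph r p) (h3 : Conn3 (gr p))
    (hbelow : ∀ (W : Type) [Fintype W] [DecidableEq W] (q : W → W → ℕ),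
      Fintype.card W < Fintype.card V → RGraph r q → Minor (gr q) (gr p) → Cover 1 r q)
    {P Q S : Finset V} (hPQ : Disjoint P Q) (hPS : Disjoint P S) (hQS : Disjoint Q S)
    (hU : P ∪ Q ∪ S = univ) (hS : S.card = 3) (ho : Odd P.card) (he : Even Q.card)
    (hP : 2 ≤ P.card) (hQ : 2 ≤ Q.card) (hpq : ∀ u ∈ P, ∀ v ∈ Q, p u v = 0) :
    Cover 1 r p := by
  obtain ⟨a, b, c, hab, hac, hbc, rfl⟩ := Finset.card_eq_three.1 hS
  have hp := (span V 1 r p hp0).1
  have hcard : Fintype.card V = P.card + Q.card + 3 := by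
    rw [← Finset.card_univ, ← hU, Finset.card_union_of_disjoint, Finset.card_union_of_disjoint hPQ,
      hS]
    rw [Finset.disjoint_union_left]
    exact ⟨hPS, hQS⟩
  have hN : ∀ x ∈ P, ∀ y, p x y ≠ 0 → y ∈ P ∪ {a, b, c} := by
    intro x hx y hy
    have h1 : y ∈ P ∪ Q ∪ {a, b, c} := hU ▸ Finset.mem_univ y
    have h2 : y ∉ Q := fun h => hy (hpq x hx y h)
    rw [Finset.mem_union, Finset.mem_union] at h1
    rw [Finset.mem_union]
    tauto
  have hN' : ∀ x ∈ Q, ∀ y, p x y ≠ 0 → y ∈ Q ∪ {a, b, c} := by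
    intro x hx y hy
    have h1 : y ∈ P ∪ Q ∪ {a, b, c} := hU ▸ Finset.mem_univ y
    have h2 : y ∉ P := fun h => hy (by rw [hp0.symm]; exact hpq y h x hx)
    rw [Finset.mem_union, Finset.mem_union] at h1
    rw [Finset.mem_union]
    tauto
  set s : Fin 3 → V := ![a, b, c] with hsdef
  have hs0 : s 0 = a := rfl
  have hs1 : s 1 = b := rfl
  have hs2 : s 2 = c := rfl
  have hs : Function.Injective s := by
    intro i j hij
    fin_cases i <;> fin_cases j <;> simp [hsdef] at hij <;>
      first
        | rfl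
        | exact absurd hij hab
        | exact absurd hij hac
        | exact absurd hij hbc
        | exact absurd hij.symm hab
        | exact absurd hij.symm hac
        | exact absurd hij.symm hbc
  have hsmem : ∀ x : V, x ∈ ({a, b, c} : Finset V) ↔ ∃ i, x = s i := by
    intro x
    simp only [Finset.mem_insert, Finset.mem_singleton]
    constructor
    · rintro (h | h | h)
      · exact ⟨0, h⟩
      · exact ⟨1, h⟩
      · exact ⟨2, h⟩
    · rintro ⟨i, hi⟩
      fin_cases i
      · exact Or.inl hi
      · exact Or.inr (Or.inl hi)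
      · exact Or.inr (Or.inr hi)
  have hsP : ∀ i, s i ∉ P := fun i h => Finset.disjoint_left.1 hPS h ((hsmem _).2 ⟨i, rfl⟩)
  have hsQ : ∀ i, s i ∉ Q := fun i h => Finset.disjoint_left.1 hQS h ((hsmem _).2 ⟨i, rfl⟩)
  have hne0 : ∀ u v, (gr p).Adj u v → p u v ≠ 0 := by
    intro u v huv
    rcases Y13.gr_adj p u v huv with h | h
    · exact h.ne'
    · rw [hp0.symm]; exact h.ne'
  have hadj : ∀ u v, u ≠ v → p u v ≠ 0 → (gr p).Adj u v := fun u v huv h =>
    Y13.adj_gr p u v huv (Nat.pos_of_ne_zero h)
  have houtP : ∀ u ∈ P, ∀ v, (gr p).Adj u v → v ∈ P ∨ ∃ i, v = s i := by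
    intro u hu v huv
    rcases Finset.mem_union.1 (hN u hu v (hne0 u v huv)) with h | h
    · exact Or.inl h
    · exact Or.inr ((hsmem v).1 h)
  have houtQ : ∀ u ∈ Q, ∀ v, (gr p).Adj u v → v ∈ Q ∨ ∃ i, v = s i := by
    intro u hu v huv
    rcases Finset.mem_union.1 (hN' u hu v (hne0 u v huv)) with h | h
    · exact Or.inl h
    · exact Or.inr ((hsmem v).1 h)
  have hsplit := split_D hp hab hbc hac.symm hU hPQ hPS hQS hN ho he
  have hp' : RG r (fun u v => (if u ∈ P ∨ v ∈ P then p u v else 0)
      + (if u ∈ P ∨ v ∈ P then 0 else p u v)) (P ∪ Q ∪ {a, b, c}) := by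
    refine rg_congr hp hU.symm ?_
    intro u v; split_ifs <;> simp
  obtain ⟨t, na, nb, nc, hNum⟩ := num V r _ _ P Q a b c hsplit hp'
  have h1 := closA V r t na nb nc _ _ P Q a b c hsplit hp' hNum
  -- the minor on the side of `P`
  obtain ⟨T, hT1, hT2, hT3, hT4, hT5⟩ := tri_sets h3 Q s hs hsQ hQ houtQ
  have m1 : Minor (gr (fun u v : {x // x ∈ P ∪ {a, b, c}} =>
      (if u.1 ∈ P ∨ v.1 ∈ P then p u.1 v.1 else 0) + tri a b c na nb nc u.1 v.1)) (gr p) := by
    refine minor_of (P ∪ {a, b, c}) (fun u v =>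
      (if u ∈ P ∨ v ∈ P then p u v else 0) + tri a b c na nb nc u v) (gof s T) ?_ ?_ ?_
    · have key : ∀ x ∈ P, ∀ i, Disjoint (gof s T x) (T i) := by
        intro x hx i
        rw [gof_n s T x (fun j h => hsP j (h ▸ hx)), Finset.disjoint_singleton_left]
        intro h
        rcases hT2 i x h with h | h
        · exact hsP i (h ▸ hx)
        · exact Finset.disjoint_left.1 hPQ hx h
      intro x hx y hy hxy
      rw [Finset.mem_union, hsmem] at hx hy
      rcases hx with hx | ⟨i, rfl⟩
      · rcases hy with hy | ⟨j, rfl⟩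
        · rw [gof_n s T x (fun j h => hsP j (h ▸ hx)), gof_n s T y (fun j h => hsP j (h ▸ hy)),
            Finset.disjoint_singleton]
          exact hxy
        · rw [gof_s hs]
          exact key x hx j
      · rcases hy with hy | ⟨j, rfl⟩
        · rw [gof_s hs]
          exact (key y hy i).symm
        · rw [gof_s hs, gof_s hs]
          exact hT3 i j (fun h => hxy (by rw [h]))
    · intro x hx
      rw [Finset.mem_union, hsmem] at hx
      rcases hx with hx | ⟨i, rfl⟩
      · rw [gof_n s T x (fun j h => hsP j (h ▸ hx))]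
        exact cn_singleton _ x
      · rw [gof_s hs]
        exact hT4 i
    · intro x hx y hy hxy hq
      by_cases hpxy : (if x ∈ P ∨ y ∈ P then p x y else 0) ≠ 0
      · have hp1 : p x y ≠ 0 := by
          intro h; apply hpxy; rw [h]; simp
        exact ⟨x, mem_gof hs hT1 x, y, mem_gof hs hT1 y, hadj x y hxy hp1⟩
      · push Not at hpxy
        have htri : tri a b c na nb nc x y ≠ 0 := by
          intro h
          apply hq
          show (if x ∈ P ∨ y ∈ P then p x y else 0) + tri a b c na nb nc x y = 0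
          rw [hpxy, h]
        refine tri_K (K := fun u v => Ad (gr p) (gof s T u) (gof s T v)) (fun u v h => h.symm)
          (fun _ => ?_) (fun _ => ?_) (fun _ => ?_) htri
        · show Ad (gr p) (gof s T (s 1)) (gof s T (s 2))
          rw [gof_s hs, gof_s hs]
          exact hT5 _ _ (by decide)
        · show Ad (gr p) (gof s T (s 2)) (gof s T (s 0))
          rw [gof_s hs, gof_s hs]
          exact hT5 _ _ (by decide)
        · show Ad (gr p) (gof s T (s 0)) (gof s T (s 1))
          rw [gof_s hs, gof_s hs]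
          exact hT5 _ _ (by decide)
  -- the minor on the side of `Q`
  obtain ⟨U, S, hC, i0, j0, hij, had0⟩ := root h3 P s hs hsP hP houtP
  obtain ⟨z, hz⟩ : P.Nonempty := Finset.card_pos.1 (by omega)
  obtain ⟨ya, yb, yc, hy, hya, hyb, hyc⟩ : ∃ ya yb yc : ℕ, ya + yb + yc = t ∧
      (ya ≠ 0 → Ad (gr p) (S 1) (S 2)) ∧ (yb ≠ 0 → Ad (gr p) (S 2) (S 0)) ∧
      (yc ≠ 0 → Ad (gr p) (S 0) (S 1)) := by
    have h4 : Ad (gr p) (S 1) (S 2) ∨ Ad (gr p) (S 2) (S 0) ∨ Ad (gr p) (S 0) (S 1) := by
      fin_cases i0 <;> fin_cases j0 <;>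
        first
          | exact absurd rfl hij
          | exact Or.inl had0
          | exact Or.inl had0.symm
          | exact Or.inr (Or.inl had0)
          | exact Or.inr (Or.inl had0.symm)
          | exact Or.inr (Or.inr had0)
          | exact Or.inr (Or.inr had0.symm)
    rcases h4 with h | h | h
    · exact ⟨t, 0, 0, by omega, fun _ => h, fun h => absurd rfl h, fun h => absurd rfl h⟩
    · exact ⟨0, t, 0, by omega, fun h => absurd rfl h, fun _ => h, fun h => absurd rfl h⟩
    · exact ⟨0, 0, t, by omega, fun h => absurd rfl h, fun h => absurd rfl h, fun _ => h⟩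
  have h2 := closBall V r t na nb nc _ _ P Q a b c z hsplit hp' hNum hz ya yb yc hy
  have hzs : ∀ i, z ≠ s i := fun i h => hsP i (h ▸ hz)
  have hzQ : z ∉ Q := fun h => Finset.disjoint_left.1 hPQ hz h
  have m2 : Minor (gr (fun u v : {x // x ∈ insert z (Q ∪ {a, b, c})} =>
      (if u.1 ∈ P ∨ v.1 ∈ P then 0 else p u.1 v.1) + (tri a b c ya yb yc u.1 v.1
        + star z a b c (na + ya) (nb + yb) (nc + yc) u.1 v.1))) (gr p) := by
    set g : V → Finset V := fun x => if x = z then U else gof s S x with hg
    have gz : g z = U := by simp [hg]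
    have gs : ∀ i, g (s i) = S i := fun i => by
      simp only [hg]; rw [if_neg (hzs i).symm, gof_s hs]
    have gQ : ∀ x ∈ Q, g x = {x} := fun x hx => by
      have hxz : x ≠ z := fun h => hzQ (h ▸ hx)
      simp only [hg]
      rw [if_neg hxz, gof_n s S x (fun j h => hsQ j (h ▸ hx))]
    refine minor_of (insert z (Q ∪ {a, b, c})) (fun u v =>
      (if u ∈ P ∨ v ∈ P then 0 else p u v) + (tri a b c ya yb yc u v
        + star z a b c (na + ya) (nb + yb) (nc + yc) u v)) g ?_ ?_ ?_
    · have k1 : ∀ x ∈ Q, ∀ i, Disjoint ({x} : Finset V) (S i) := by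
        intro x hx i
        rw [Finset.disjoint_singleton_left]
        intro h
        rcases hC.sub i x h with h | h
        · exact hsQ i (h ▸ hx)
        · exact Finset.disjoint_left.1 hPQ h hx
      have k2 : ∀ x ∈ Q, Disjoint ({x} : Finset V) U := by
        intro x hx
        rw [Finset.disjoint_singleton_left]
        intro h
        exact Finset.disjoint_left.1 hPQ (hC.subU h) hx
      intro x hx y hy hxy
      rw [Finset.mem_insert, Finset.mem_union, hsmem] at hx hy
      rcases hx with rfl | hx | ⟨i, rfl⟩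
      · rcases hy with rfl | hy | ⟨j, rfl⟩
        · exact absurd rfl hxy
        · rw [gz, gQ y hy]; exact (k2 y hy).symm
        · rw [gz, gs]; exact hC.disU j
      · rcases hy with rfl | hy | ⟨j, rfl⟩
        · rw [gz, gQ x hx]; exact k2 x hx
        · rw [gQ x hx, gQ y hy, Finset.disjoint_singleton]; exact hxy
        · rw [gQ x hx, gs]; exact k1 x hx j
      · rcases hy with rfl | hy | ⟨j, rfl⟩
        · rw [gz, gs]; exact (hC.disU i).symm
        · rw [gQ y hy, gs]; exact (k1 y hy i).symm
        · rw [gs, gs]; exact hC.dis i j (fun h => hxy (by rw [h]))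
    · intro x hx
      rw [Finset.mem_insert, Finset.mem_union, hsmem] at hx
      rcases hx with rfl | hx | ⟨i, rfl⟩
      · rw [gz]; exact hC.cnU
      · rw [gQ x hx]; exact cn_singleton _ x
      · rw [gs]; exact hC.cn i
    · intro x hx y hy hxy hq
      by_cases hpxy : (if x ∈ P ∨ y ∈ P then 0 else p x y) ≠ 0
      · have hP' : ¬ (x ∈ P ∨ y ∈ P) := by
          intro h; apply hpxy; rw [if_pos h]
        rw [if_neg hP'] at hpxy
        push Not at hP'
        have hm : ∀ w, w ∉ P → w ∈ g w := by
          intro w hw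
          have hwz : w ≠ z := fun h => hw (h ▸ hz)
          simp only [hg]
          rw [if_neg hwz]
          exact mem_gof hs hC.mem w
        exact ⟨x, hm x hP'.1, y, hm y hP'.2, hadj x y hxy hpxy⟩
      · push Not at hpxy
        by_cases htri : tri a b c ya yb yc x y ≠ 0
        · refine tri_K (K := fun u v => Ad (gr p) (g u) (g v)) (fun u v h => h.symm)
            (fun h => ?_) (fun h => ?_) (fun h => ?_) htri
          · show Ad (gr p) (g (s 1)) (g (s 2))
            rw [gs, gs]; exact hya h
          · show Ad (gr p) (g (s 2)) (g (s 0))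
            rw [gs, gs]; exact hyb h
          · show Ad (gr p) (g (s 0)) (g (s 1))
            rw [gs, gs]; exact hyc h
        · push Not at htri
          have hstar : star z a b c (na + ya) (nb + yb) (nc + yc) x y ≠ 0 := by
            intro h
            apply hq
            show (if x ∈ P ∨ y ∈ P then 0 else p x y) + (tri a b c ya yb yc x y
              + star z a b c (na + ya) (nb + yb) (nc + yc) x y) = 0
            rw [hpxy, htri, h]
          refine star_K (K := fun u v => Ad (gr p) (g u) (g v)) (fun u v h => h.symm)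
            (fun _ => ?_) (fun _ => ?_) (fun _ => ?_) hstar
          · show Ad (gr p) (g z) (g (s 0))
            rw [gz, gs]; exact hC.ad 0
          · show Ad (gr p) (g z) (g (s 1))
            rw [gz, gs]; exact hC.ad 1
          · show Ad (gr p) (g z) (g (s 2))
            rw [gz, gs]; exact hC.ad 2
  have e1 := Finset.card_union_le P ({a, b, c} : Finset V)
  have e2 := Finset.card_insert_le z (Q ∪ ({a, b, c} : Finset V))
  have e3 := Finset.card_union_le Q ({a, b, c} : Finset V)
  have hP3 : 3 ≤ P.card := by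
    obtain ⟨k, hk⟩ := ho
    omega
  have c1 := col_of_cover (k := 1) restr h1 fun h => hbelow _ _ (by
    rw [Fintype.card_coe]; omega) h m1
  have c2 := col_of_cover (k := 1) restr h2 fun h => hbelow _ _ (by
    rw [Fintype.card_coe]; omega) h m2
  have d1 : Col (1 * r) (fun u v => 1 * (if u ∈ P ∨ v ∈ P then p u v else 0)) :=
    del_fold del (q := tri a b c na nb nc) hsplit.symmA (tri_symm _ _ _ _ _ _) c1
  have d2 : Col (1 * r) (fun u v => 1 * (if u ∈ P ∨ v ∈ P then 0 else p u v)) := by
    refine del_fold del (q := fun x y => tri a b c ya yb yc x y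
      + star z a b c (na + ya) (nb + yb) (nc + yc) x y) hsplit.symmB ?_ c2
    intro u v
    rw [tri_symm, star_symm]
  have h5 := assemble glue3 hsplit hp' d1 d2
  refine (span V 1 r p hp0).2 (col_congr h5 rfl ?_)
  intro u v
  congr 1
  split_ifs <;> simp

end

end Pool.Agent.U881.HB
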