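import Pool.Agent.U881.HB.Star2
import Pool.Agent.H76R2.TW.VFinal

/-!
# Separations of order three and `k`-fold covers
-/

set_option autoImplicit false
set_option linter.unusedSectionVars false

namespace Pool.Agent.U881.HB

open Finset H76FC H76TW H76TX H76TY Pool.Agent.W315.LB Pool.Agent.TH583.HB

/-- repeating the perfect matchings -/
theorem cmul (k : ℕ) {V : Type} [Fintype V] [DecidableEq V] {r : ℕ} {p : V → V → ℕ}
    (h : Cover 1 r p) : Cover k r p :=
  H76TW.cover_mul reindex h

section
variable {V : Type} [Fintype V] [DecidableEq V]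

theorem vcut_classK (k : ℕ) {r : ℕ} {p : V → V → ℕ} (hp0 : RGraph r p) (h3 : Conn3 (gr p))
    (hbelow : ∀ (W : Type) [Fintype W] [DecidableEq W] (q : W → W → ℕ),
      Fintype.card W < Fintype.card V → RGraph r q → Minor (gr q) (gr p) → Cover k r q)
    {P Q S : Finset V} (hPQ : Disjoint P Q) (hPS : Disjoint P S) (hQS : Disjoint Q S)
    (hU : P ∪ Q ∪ S = univ) (hS : S.card = 3) (ho : Odd P.card) (he : Even Q.card)
    (hP : 2 ≤ P.card) (hQ : 2 ≤ Q.card) (hpq : ∀ u ∈ P, ∀ v ∈ Q, p u v = 0) :
    Cover k r p := by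
  obtain ⟨a, b, c, hab, hac, hbc, rfl⟩ := Finset.card_eq_three.1 hS
  have hp := (span V k r p hp0).1
  have hcard : Fintype.card V = P.card + Q.card + 3 := by
    rw [← Finset.card_univ, ← hU, Finset.card_union_of_disjoint, Finset.card_union_of_disjoint hPQ,
      hS]
    rw [Finset.disjoint_union_left]
    exact ⟨hPS, hQS⟩
  have hN : ∀ x ∈ P, ∀ y, p x y ≠ 0 → y ∈ P ∪ {a, b, c} := by
    intro x hx y hy
    have h1 : y ∈ P ∪ Q ∪ {a, b, c} := hU ▸ Finset.mem_univ y
    have h2 : y ∉ Q := fun h => hy (hpq x hx y h)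
    rw [Finset.mem_union, Finset.mem_union] at h1
    rw [Finset.mem_union]
    tauto
  have hN' : ∀ x ∈ Q, ∀ y, p x y ≠ 0 → y ∈ Q ∪ {a, b, c} := by
    intro x hx y hy
    have h1 : y ∈ P ∪ Q ∪ {a, b, c} := hU ▸ Finset.mem_univ y
    have h2 : y ∉ P := fun h => hy (by rw [hp0.symm]; exact hpq y h x hx)
    rw [Finset.mem_union, Finset.mem_union] at h1
    rw [Finset.mem_union]
    tauto
  set s : Fin 3 → V := ![a, b, c] with hsdef
  have hs0 : s 0 = a := rfl
  have hs1 : s 1 = b := rfl
  have hs2 : s 2 = c := rfl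
  have hs : Function.Injective s := by
    intro i j hij
    fin_cases i <;> fin_cases j <;> simp [hsdef] at hij <;>
      first
        | rfl
        | exact absurd hij hab
        | exact absurd hij hac
        | exact absurd hij hbc
        | exact absurd hij.symm hab
        | exact absurd hij.symm hac
        | exact absurd hij.symm hbc
  have hsmem : ∀ x : V, x ∈ ({a, b, c} : Finset V) ↔ ∃ i, x = s i := by
    intro x
    simp only [Finset.mem_insert, Finset.mem_singleton]
    constructor
    · rintro (h | h | h)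
      · exact ⟨0, h⟩
      · exact ⟨1, h⟩
      · exact ⟨2, h⟩
    · rintro ⟨i, hi⟩
      fin_cases i
      · exact Or.inl hi
      · exact Or.inr (Or.inl hi)
      · exact Or.inr (Or.inr hi)
  have hsP : ∀ i, s i ∉ P := fun i h => Finset.disjoint_left.1 hPS h ((hsmem _).2 ⟨i, rfl⟩)
  have hsQ : ∀ i, s i ∉ Q := fun i h => Finset.disjoint_left.1 hQS h ((hsmem _).2 ⟨i, rfl⟩)
  have hne0 : ∀ u v, (gr p).Adj u v → p u v ≠ 0 := by
    intro u v huv
    rcases Y13.gr_adj p u v huv with h | h
    · exact h.ne'
    · rw [hp0.symm]; exact h.ne'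
  have hadj : ∀ u v, u ≠ v → p u v ≠ 0 → (gr p).Adj u v := fun u v huv h =>
    Y13.adj_gr p u v huv (Nat.pos_of_ne_zero h)
  have houtP : ∀ u ∈ P, ∀ v, (gr p).Adj u v → v ∈ P ∨ ∃ i, v = s i := by
    intro u hu v huv
    rcases Finset.mem_union.1 (hN u hu v (hne0 u v huv)) with h | h
    · exact Or.inl h
    · exact Or.inr ((hsmem v).1 h)
  have houtQ : ∀ u ∈ Q, ∀ v, (gr p).Adj u v → v ∈ Q ∨ ∃ i, v = s i := by
    intro u hu v huv
    rcases Finset.mem_union.1 (hN' u hu v (hne0 u v huv)) with h | h
    · exact Or.inl h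
    · exact Or.inr ((hsmem v).1 h)
  have hsplit := split_D hp hab hbc hac.symm hU hPQ hPS hQS hN ho he
  have hp' : RG r (fun u v => (if u ∈ P ∨ v ∈ P then p u v else 0)
      + (if u ∈ P ∨ v ∈ P then 0 else p u v)) (P ∪ Q ∪ {a, b, c}) := by
    refine rg_congr hp hU.symm ?_
    intro u v; split_ifs <;> simp
  obtain ⟨t, na, nb, nc, hNum⟩ := num V r _ _ P Q a b c hsplit hp'
  have h1 := closA V r t na nb nc _ _ P Q a b c hsplit hp' hNum
  -- the minor on the side of `P`
  obtain ⟨T, hT1, hT2, hT3, hT4, hT5⟩ := tri_sets h3 Q s hs hsQ hQ houtQ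
  have m1 : Minor (gr (fun u v : {x // x ∈ P ∪ {a, b, c}} =>
      (if u.1 ∈ P ∨ v.1 ∈ P then p u.1 v.1 else 0) + tri a b c na nb nc u.1 v.1)) (gr p) := by
    refine minor_of (P ∪ {a, b, c}) (fun u v =>
      (if u ∈ P ∨ v ∈ P then p u v else 0) + tri a b c na nb nc u v) (gof s T) ?_ ?_ ?_
    · have key : ∀ x ∈ P, ∀ i, Disjoint (gof s T x) (T i) := by
        intro x hx i
        rw [gof_n s T x (fun j h => hsP j (h ▸ hx)), Finset.disjoint_singleton_left]
        intro h
        rcases hT2 i x h with h | h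
        · exact hsP i (h ▸ hx)
        · exact Finset.disjoint_left.1 hPQ hx h
      intro x hx y hy hxy
      rw [Finset.mem_union, hsmem] at hx hy
      rcases hx with hx | ⟨i, rfl⟩
      · rcases hy with hy | ⟨j, rfl⟩
        · rw [gof_n s T x (fun j h => hsP j (h ▸ hx)), gof_n s T y (fun j h => hsP j (h ▸ hy)),
            Finset.disjoint_singleton]
          exact hxy
        · rw [gof_s hs]
          exact key x hx j
      · rcases hy with hy | ⟨j, rfl⟩
        · rw [gof_s hs]
          exact (key y hy i).symm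
        · rw [gof_s hs, gof_s hs]
          exact hT3 i j (fun h => hxy (by rw [h]))
    · intro x hx
      rw [Finset.mem_union, hsmem] at hx
      rcases hx with hx | ⟨i, rfl⟩
      · rw [gof_n s T x (fun j h => hsP j (h ▸ hx))]
        exact cn_singleton _ x
      · rw [gof_s hs]
        exact hT4 i
    · intro x hx y hy hxy hq
      by_cases hpxy : (if x ∈ P ∨ y ∈ P then p x y else 0) ≠ 0
      · have hp1 : p x y ≠ 0 := by
          intro h; apply hpxy; rw [h]; simp
        exact ⟨x, mem_gof hs hT1 x, y, mem_gof hs hT1 y, hadj x y hxy hp1⟩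
      · push Not at hpxy
        have htri : tri a b c na nb nc x y ≠ 0 := by
          intro h
          apply hq
          show (if x ∈ P ∨ y ∈ P then p x y else 0) + tri a b c na nb nc x y = 0
          rw [hpxy, h]
        refine tri_K (K := fun u v => Ad (gr p) (gof s T u) (gof s T v)) (fun u v h => h.symm)
          (fun _ => ?_) (fun _ => ?_) (fun _ => ?_) htri
        · show Ad (gr p) (gof s T (s 1)) (gof s T (s 2))
          rw [gof_s hs, gof_s hs]
          exact hT5 _ _ (by decide)
        · show Ad (gr p) (gof s T (s 2)) (gof s T (s 0))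
          rw [gof_s hs, gof_s hs]
          exact hT5 _ _ (by decide)
        · show Ad (gr p) (gof s T (s 0)) (gof s T (s 1))
          rw [gof_s hs, gof_s hs]
          exact hT5 _ _ (by decide)
  -- the minor on the side of `Q`
  obtain ⟨U, S, hC, i0, j0, hij, had0⟩ := root h3 P s hs hsP hP houtP
  obtain ⟨z, hz⟩ : P.Nonempty := Finset.card_pos.1 (by omega)
  obtain ⟨ya, yb, yc, hy, hya, hyb, hyc⟩ : ∃ ya yb yc : ℕ, ya + yb + yc = t ∧
      (ya ≠ 0 → Ad (gr p) (S 1) (S 2)) ∧ (yb ≠ 0 → Ad (gr p) (S 2) (S 0)) ∧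
      (yc ≠ 0 → Ad (gr p) (S 0) (S 1)) := by
    have h4 : Ad (gr p) (S 1) (S 2) ∨ Ad (gr p) (S 2) (S 0) ∨ Ad (gr p) (S 0) (S 1) := by
      fin_cases i0 <;> fin_cases j0 <;>
        first
          | exact absurd rfl hij
          | exact Or.inl had0
          | exact Or.inl had0.symm
          | exact Or.inr (Or.inl had0)
          | exact Or.inr (Or.inl had0.symm)
          | exact Or.inr (Or.inr had0)
          | exact Or.inr (Or.inr had0.symm)
    rcases h4 with h | h | h
    · exact ⟨t, 0, 0, by omega, fun _ => h, fun h => absurd rfl h, fun h => absurd rfl h⟩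
    · exact ⟨0, t, 0, by omega, fun h => absurd rfl h, fun _ => h, fun h => absurd rfl h⟩
    · exact ⟨0, 0, t, by omega, fun h => absurd rfl h, fun h => absurd rfl h, fun _ => h⟩
  have h2 := closBall V r t na nb nc _ _ P Q a b c z hsplit hp' hNum hz ya yb yc hy
  have hzs : ∀ i, z ≠ s i := fun i h => hsP i (h ▸ hz)
  have hzQ : z ∉ Q := fun h => Finset.disjoint_left.1 hPQ hz h
  have m2 : Minor (gr (fun u v : {x // x ∈ insert z (Q ∪ {a, b, c})} =>
      (if u.1 ∈ P ∨ v.1 ∈ P then 0 else p u.1 v.1) + (tri a b c ya yb yc u.1 v.1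
        + star z a b c (na + ya) (nb + yb) (nc + yc) u.1 v.1))) (gr p) := by
    set g : V → Finset V := fun x => if x = z then U else gof s S x with hg
    have gz : g z = U := by simp [hg]
    have gs : ∀ i, g (s i) = S i := fun i => by
      simp only [hg]; rw [if_neg (hzs i).symm, gof_s hs]
    have gQ : ∀ x ∈ Q, g x = {x} := fun x hx => by
      have hxz : x ≠ z := fun h => hzQ (h ▸ hx)
      simp only [hg]
      rw [if_neg hxz, gof_n s S x (fun j h => hsQ j (h ▸ hx))]
    refine minor_of (insert z (Q ∪ {a, b, c})) (fun u v =>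
      (if u ∈ P ∨ v ∈ P then 0 else p u v) + (tri a b c ya yb yc u v
        + star z a b c (na + ya) (nb + yb) (nc + yc) u v)) g ?_ ?_ ?_
    · have k1 : ∀ x ∈ Q, ∀ i, Disjoint ({x} : Finset V) (S i) := by
        intro x hx i
        rw [Finset.disjoint_singleton_left]
        intro h
        rcases hC.sub i x h with h | h
        · exact hsQ i (h ▸ hx)
        · exact Finset.disjoint_left.1 hPQ h hx
      have k2 : ∀ x ∈ Q, Disjoint ({x} : Finset V) U := by
        intro x hx
        rw [Finset.disjoint_singleton_left]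
        intro h
        exact Finset.disjoint_left.1 hPQ (hC.subU h) hx
      intro x hx y hy hxy
      rw [Finset.mem_insert, Finset.mem_union, hsmem] at hx hy
      rcases hx with rfl | hx | ⟨i, rfl⟩
      · rcases hy with rfl | hy | ⟨j, rfl⟩
        · exact absurd rfl hxy
        · rw [gz, gQ y hy]; exact (k2 y hy).symm
        · rw [gz, gs]; exact hC.disU j
      · rcases hy with rfl | hy | ⟨j, rfl⟩
        · rw [gz, gQ x hx]; exact k2 x hx
        · rw [gQ x hx, gQ y hy, Finset.disjoint_singleton]; exact hxy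
        · rw [gQ x hx, gs]; exact k1 x hx j
      · rcases hy with rfl | hy | ⟨j, rfl⟩
        · rw [gz, gs]; exact (hC.disU i).symm
        · rw [gQ y hy, gs]; exact (k1 y hy i).symm
        · rw [gs, gs]; exact hC.dis i j (fun h => hxy (by rw [h]))
    · intro x hx
      rw [Finset.mem_insert, Finset.mem_union, hsmem] at hx
      rcases hx with rfl | hx | ⟨i, rfl⟩
      · rw [gz]; exact hC.cnU
      · rw [gQ x hx]; exact cn_singleton _ x
      · rw [gs]; exact hC.cn i
    · intro x hx y hy hxy hq
      by_cases hpxy : (if x ∈ P ∨ y ∈ P then 0 else p x y) ≠ 0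
      · have hP' : ¬ (x ∈ P ∨ y ∈ P) := by
          intro h; apply hpxy; rw [if_pos h]
        rw [if_neg hP'] at hpxy
        push Not at hP'
        have hm : ∀ w, w ∉ P → w ∈ g w := by
          intro w hw
          have hwz : w ≠ z := fun h => hw (h ▸ hz)
          simp only [hg]
          rw [if_neg hwz]
          exact mem_gof hs hC.mem w
        exact ⟨x, hm x hP'.1, y, hm y hP'.2, hadj x y hxy hpxy⟩
      · push Not at hpxy
        by_cases htri : tri a b c ya yb yc x y ≠ 0
        · refine tri_K (K := fun u v => Ad (gr p) (g u) (g v)) (fun u v h => h.symm)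
            (fun h => ?_) (fun h => ?_) (fun h => ?_) htri
          · show Ad (gr p) (g (s 1)) (g (s 2))
            rw [gs, gs]; exact hya h
          · show Ad (gr p) (g (s 2)) (g (s 0))
            rw [gs, gs]; exact hyb h
          · show Ad (gr p) (g (s 0)) (g (s 1))
            rw [gs, gs]; exact hyc h
        · push Not at htri
          have hstar : star z a b c (na + ya) (nb + yb) (nc + yc) x y ≠ 0 := by
            intro h
            apply hq
            show (if x ∈ P ∨ y ∈ P then 0 else p x y) + (tri a b c ya yb yc x y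
              + star z a b c (na + ya) (nb + yb) (nc + yc) x y) = 0
            rw [hpxy, htri, h]
          refine star_K (K := fun u v => Ad (gr p) (g u) (g v)) (fun u v h => h.symm)
            (fun _ => ?_) (fun _ => ?_) (fun _ => ?_) hstar
          · show Ad (gr p) (g z) (g (s 0))
            rw [gz, gs]; exact hC.ad 0
          · show Ad (gr p) (g z) (g (s 1))
            rw [gz, gs]; exact hC.ad 1
          · show Ad (gr p) (g z) (g (s 2))
            rw [gz, gs]; exact hC.ad 2
  have e1 := Finset.card_union_le P ({a, b, c} : Finset V)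
  have e2 := Finset.card_insert_le z (Q ∪ ({a, b, c} : Finset V))
  have e3 := Finset.card_union_le Q ({a, b, c} : Finset V)
  have hP3 : 3 ≤ P.card := by
    obtain ⟨k', hk⟩ := ho
    omega
  have c1 := col_of_cover (k := k) restr h1 fun h => hbelow _ _ (by
    rw [Fintype.card_coe]; omega) h m1
  have c2 := col_of_cover (k := k) restr h2 fun h => hbelow _ _ (by
    rw [Fintype.card_coe]; omega) h m2
  have d1 : Col (k * r) (fun u v => k * (if u ∈ P ∨ v ∈ P then p u v else 0)) :=
    del_fold del (q := tri a b c na nb nc) hsplit.symmA (tri_symm _ _ _ _ _ _) c1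
  have d2 : Col (k * r) (fun u v => k * (if u ∈ P ∨ v ∈ P then 0 else p u v)) := by
    refine del_fold del (q := fun x y => tri a b c ya yb yc x y
      + star z a b c (na + ya) (nb + yb) (nc + yc) x y) hsplit.symmB ?_ c2
    intro u v
    rw [tri_symm, star_symm]
  have h5 := assemble glue3 hsplit hp' d1 d2
  refine (span V k r p hp0).2 (col_congr h5 rfl ?_)
  intro u v
  congr 1
  split_ifs <;> simp

end

theorem cover_sep3K (k : ℕ) {V : Type} [Fintype V] [DecidableEq V] {r : ℕ} {p : V → V → ℕ} (hr : 1 ≤ r)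
    (hp0 : RGraph r p) (h3 : Conn3 (gr p))
    (hbelow : ∀ (W : Type) [Fintype W] [DecidableEq W] (q : W → W → ℕ),
      Fintype.card W < Fintype.card V → RGraph r q → Minor (gr q) (gr p) → Cover k r q)
    (hs : Sep3 (gr p)) : Cover k r p := by
  obtain ⟨P, Q, S, hPQ, hPS, hQS, hU, hS, hP, hQ, hpq⟩ := hs
  have hcard : (univ : Finset V).card = P.card + Q.card + 3 := by
    rw [← hU, Finset.card_union_of_disjoint, Finset.card_union_of_disjoint hPQ, hS]
    rw [Finset.disjoint_union_left]
    exact ⟨hPS, hQS⟩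
  have hev := even_card (span V 1 r p hp0).1 hr
  rw [hcard] at hev
  have hpq0 : ∀ u ∈ P, ∀ v ∈ Q, p u v = 0 := by
    intro u hu v hv
    by_contra h
    exact hpq u hu v hv (Y13.adj_gr p u v (fun h' => Finset.disjoint_left.1 hPQ hu (h' ▸ hv))
      (Nat.pos_of_ne_zero h))
  rcases Nat.even_or_odd P.card with hPe | hPo
  · have hQo : Odd Q.card := by
      obtain ⟨i, hi⟩ := hev
      obtain ⟨j, hj⟩ := hPe
      exact ⟨i - j - 2, by omega⟩
    refine vcut_classK k hp0 h3 hbelow hPQ.symm hQS hPS ?_ hS hQo hPe hQ hP ?_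
    · rw [Finset.union_comm Q P]; exact hU
    · intro u hu v hv
      rw [hp0.symm]
      exact hpq0 v hv u hu
  · have hQe : Even Q.card := by
      obtain ⟨i, hi⟩ := hev
      obtain ⟨j, hj⟩ := hPo
      exact ⟨i - j - 2, by omega⟩
    exact vcut_classK k hp0 h3 hbelow hPQ hPS hQS hU hS hPo hQe hP hQ hpq0

/-- smallest counterexamples in a class with an excluded minor of the Petersen graph -/
theorem smallestK (k : ℕ) {I : Type} (F : SimpleGraph I)
    (hF : ∀ (W : Type) (G : SimpleGraph W), PetMinor G → Minor F G)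
    {V : Type} [Fintype V] [DecidableEq V] {r : ℕ} {p : V → V → ℕ} (hp : RGraph r p)
    (hFp : ¬ Minor F (gr p)) (hno : ¬ Cover k r p)
    (hmin : ∀ (W : Type) [Fintype W] [DecidableEq W] (q : W → W → ℕ),
      Fintype.card W < Fintype.card V → RGraph r q → ¬ Minor F (gr q) → Cover k r q) :
    NoTight r p ∧ Brick (gr p) ∧ 14 ≤ Fintype.card V ∧ ¬ Sep3 (gr p) := by
  have hr : 1 ≤ r := by
    rcases Nat.eq_zero_or_pos r with h | h
    · subst h
      exact absurd (cmul k (H76TX.cover_zero hp)) hno
    · exact h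
  have hc4 : ¬ Fintype.card V ≤ 4 := fun h => hno (cmul k (eight' V r p (by omega) hp))
  have hVe : Even (Fintype.card V) := by
    by_contra hodd
    have := hp.odd univ (by simpa using hodd)
    simp [H76FC.cut] at this
    omega
  have hc6 : 6 ≤ Fintype.card V := by
    obtain ⟨m, hm⟩ := hVe
    omega
  have hcon : (gr p).Connected := by
    by_contra hcon
    exact hno (disc' (fun V G => ¬ Minor F G)
      (fun A B H G i hi hadj h h' => h (minor_trans h' (minor_sub i hi hadj))) k r p hp
      hcon hFp (fun W _ _ q hW hq hnq => hmin W q hW hq hnq))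
  have hnt : NoTight r p := by
    by_contra hnt
    apply hno
    unfold NoTight at hnt
    push Not at hnt
    obtain ⟨X, hX, hc, hX1, hX2⟩ := hnt
    have hadd' : X.card + Xᶜ.card = Fintype.card V := Finset.card_add_card_compl X
    have hodd' : Odd Xᶜ.card := by
      rw [← hadd'] at hVe
      exact (Nat.even_add'.1 hVe).1 hX
    have hcardX : Fintype.card {v // v ∈ X} + Fintype.card {v // v ∉ X}
        = Fintype.card V := by
      rw [← Fintype.card_sum]
      exact Fintype.card_congr (Equiv.sumCompl (· ∈ X))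
    have hcX : Fintype.card {v // v ∈ X} = X.card := by simp
    have hcX' : Fintype.card {v // v ∉ X} = Xᶜ.card := by
      rw [hcX] at hcardX
      omega
    have hX3 : 3 ≤ X.card := by obtain ⟨c, hc'⟩ := hX; omega
    have hX3' : 3 ≤ Xᶜ.card := by obtain ⟨c, hc'⟩ := hodd'; omega
    set e : V ≃ {v // v ∈ X} ⊕ {v // v ∉ X} := (Equiv.sumCompl (· ∈ X)).symm with he
    set p' : {v // v ∈ X} ⊕ {v // v ∉ X} → {v // v ∈ X} ⊕ {v // v ∉ X} → ℕ :=
      fun a b => p (e.symm a) (e.symm b) with hp'
    have hpe : ∀ u v, p u v = p' (e u) (e v) := by intro u v; simp [hp']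
    obtain ⟨h1, h2, h3'⟩ := transport V _ e p p' k r hpe
    have hRp' := h1 hp
    have hgr : gr p' = (gr p).comap e.symm := gr_comap e p
    have hcon' : (gr p').Connected := by
      rw [hgr]
      exact (SimpleGraph.Iso.comap e.symm (gr p)).connected_iff.2 hcon
    have hnp' : ¬ Minor F (gr p') := by
      intro h
      refine hFp (minor_trans h (minor_sub e.symm e.symm.injective ?_))
      intro a b hab
      rw [hgr, SimpleGraph.comap_adj] at hab
      exact hab
    have hsum : ∑ u, ∑ v, p' (.inl u) (.inr v) = r := by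
      rw [← hc]
      have hl : ∀ u : {v // v ∈ X}, e.symm (.inl u) = u.1 := fun u => rfl
      have hr : ∀ u : {v // v ∉ X}, e.symm (.inr u) = u.1 := fun u => rfl
      simp only [hp', hl, hr, cut]
      rw [← Finset.sum_coe_sort X]
      apply Finset.sum_congr rfl
      intro u _
      exact (Finset.sum_subtype (Xᶜ) (fun x => by simp) (fun v => p u.1 v)).symm
    have hO1 : Odd (Fintype.card {v // v ∈ X}) := by rw [hcX]; exact hX
    have hO2 : Odd (Fintype.card {v // v ∉ X}) := by rw [hcX']; exact hodd'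
    obtain ⟨hs1', hs2'⟩ := connSide _ _ r p' (by omega) hRp' hcon' hO1 hO2 hsum
    apply h2
    refine tight2 _ _ k r p' hRp' hO1 hO2 hsum ?_ ?_
    · intro hR
      refine hmin _ _ ?_ hR (fun h => hnp' (minor_trans h (minor_of_odd
        ((contrOdd _ {v // v ∈ X} {v // v ∉ X} _ p' hRp'.symm).1 hO2 hs2' (oddMinor_self _)))))
      rw [Fintype.card_option, hcX]
      omega
    · intro hR
      refine hmin _ _ ?_ hR (fun h => hnp' (minor_trans h (minor_of_odd
        ((contrOdd _ {v // v ∈ X} {v // v ∉ X} _ p' hRp'.symm).2 hO1 hs1' (oddMinor_self _)))))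
      rw [Fintype.card_option, hcX']
      omega
  have hbrick : Brick (gr p) := by
    rcases Pool.Agent.W427.LB.bicrit V r p hc6 hr hp hnt hcon with ⟨Z, hZ1, hZ2⟩ | hM
    · exfalso
      apply hno
      apply cmul k
      obtain ⟨h1, h2⟩ := H76TW.span V 1 r p hp
      apply h2
      have h5 := H76TW.bip V r p univ Z h1 (Finset.subset_univ _)
        (by rw [Finset.card_univ]; exact hZ1) hZ2
      exact H76TW.col_congr h5 (one_mul _).symm (fun u v => (one_mul _).symm)
    · intro u v huv
      refine ⟨Pool.Agent.W209.LB.conn3 V r p hc6 hr hp hnt hcon u v huv, ?_⟩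
      obtain ⟨M, hM1, hM2, hM3⟩ := hM u v huv
      refine ⟨M, hM1, hM2, ?_⟩
      intro x hxu hxv
      refine Y13.adj_gr p x (M x) ?_ (hM3 x hxu hxv)
      intro h
      have h4 := hM3 x hxu hxv
      rw [← h, hp.loopless] at h4
      exact lt_irrefl 0 h4
  refine ⟨hnt, hbrick, ?_, ?_⟩
  · by_contra h
    exact hno (cmul k (thirteen _ (by omega) V rfl r p hp (fun h' => hFp (hF V _ h'))))
  · intro hs
    refine hno (cover_sep3K k hr hp (conn3_of_brick hbrick) ?_ hs)
    intro W _ _ q hW hq hm
    exact hmin W q hW hq (fun h => hFp (minor_trans h hm))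

end Pool.Agent.U881.HB
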